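import Pool.Agent.H794.Calc

/-!
# Linear algebra of 3 by 3 matrices: commutators
-/

set_option autoImplicit false

open scoped Manifold ContDiff Matrix ComplexOrder
open Matrix Topology Set Filter

namespace Pool.Agent.H794

open Pool.Agent.Helper614.HE Pool.Agent.Helper614.HE.P_UN1 Pool.Agent.Helper614.HE.P_UN2

theorem fro_smul (a : ℂ) (X : M3) : fro (a • X) = ‖a‖ ^ 2 * fro X := by
  simp only [fro, Matrix.smul_apply, smul_eq_mul, norm_mul, mul_pow, Finset.mul_sum]

theorem fro_ct (X : M3) : fro Xᴴ = fro X := by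
  simp only [fro, Matrix.conjTranspose_apply, norm_star]
  rw [Finset.sum_comm]

theorem fro_one : fro (1 : M3) = 3 := by
  simp [fro, Fin.sum_univ_three, Matrix.one_apply]
  norm_num

theorem fro_add_le (X Y : M3) : fro (X + Y) ≤ 2 * fro X + 2 * fro Y := by
  have h : ∀ i j, ‖(X + Y) i j‖ ^ 2 ≤ 2 * ‖X i j‖ ^ 2 + 2 * ‖Y i j‖ ^ 2 := by
    intro i j
    have h1 : ‖(X + Y) i j‖ ≤ ‖X i j‖ + ‖Y i j‖ := by
      rw [Matrix.add_apply]; exact norm_add_le _ _
    have h2 := norm_nonneg ((X + Y) i j)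
    nlinarith [sq_nonneg (‖X i j‖ - ‖Y i j‖)]
  have h3 : fro (X + Y) ≤ ∑ i, ∑ j, (2 * ‖X i j‖ ^ 2 + 2 * ‖Y i j‖ ^ 2) :=
    Finset.sum_le_sum fun i _ => Finset.sum_le_sum fun j _ => h i j
  refine h3.trans (le_of_eq ?_)
  simp only [fro, Finset.sum_add_distrib, Finset.mul_sum]

theorem fro_eq_trace (X : M3) : (X * Xᴴ).trace.re = fro X := by
  rw [trace_self, Complex.ofReal_re]

theorem fro_neg (X : M3) : fro (-X) = fro X := by
  simp only [fro, Matrix.neg_apply, norm_neg]

theorem fro_sub_le (X Y : M3) : fro (X - Y) ≤ 2 * fro X + 2 * fro Y := by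
  rw [sub_eq_add_neg]
  have := fro_add_le X (-Y)
  rwa [fro_neg] at this

/-- Cayley-Hamilton for traceless matrices -/
theorem ch_traceless (A : M3) (h : A.trace = 0) :
    A * A * A = ((A * A).trace / 2) • A + A.det • (1 : M3) := by
  have h1 : A 2 2 = -A 0 0 - A 1 1 := by
    rw [Matrix.trace, Fin.sum_univ_three] at h
    simp only [Matrix.diag_apply] at h
    linear_combination h
  ext i j
  fin_cases i <;> fin_cases j <;>
  · simp [Matrix.mul_apply, Fin.sum_univ_three, Matrix.det_fin_three, Matrix.trace,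
      Matrix.one_apply, h1]
    ring

/-- Cayley-Hamilton for the adjugate -/
theorem ch_adj (A : M3) :
    A.adjugate = A * A - A.trace • A + ((A.trace ^ 2 - (A * A).trace) / 2) • (1 : M3) := by
  rw [Matrix.adjugate_fin_three]
  ext i j
  fin_cases i <;> fin_cases j <;>
  · simp [Matrix.mul_apply, Fin.sum_univ_three, Matrix.trace, Matrix.one_apply]
    ring

/-- a normal traceless matrix with small invariants -/
theorem normal_small {A : M3} (h : A.trace = 0) (h1 : fro A = 1) (hn : Aᴴ * A - A * Aᴴ = 0)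
    (h2 : ‖(A * A).trace‖ ≤ 1 / 10) (h3 : ‖A.det‖ ≤ 1 / 10) : False := by
  have hc : Aᴴ * A = A * Aᴴ := sub_eq_zero.1 hn
  set P := Aᴴ * A with hP
  have hPh : Pᴴ = P := by rw [hP, Matrix.conjTranspose_mul, Matrix.conjTranspose_conjTranspose]
  have hPA : P * A = A * P := by
    rw [hP, Matrix.mul_assoc]
    calc Aᴴ * (A * A) = (Aᴴ * A) * A := by rw [Matrix.mul_assoc]
      _ = (A * Aᴴ) * A := by rw [← hP, hc]
      _ = A * (Aᴴ * A) := by rw [Matrix.mul_assoc]
  -- the trace of `P³`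
  have hcube : (A * A * A)ᴴ * (A * A * A) = P * P * P := by
    have e1 : (A * A * A)ᴴ = Aᴴ * Aᴴ * Aᴴ := by
      simp only [Matrix.conjTranspose_mul, Matrix.mul_assoc]
    rw [e1]
    calc Aᴴ * Aᴴ * Aᴴ * (A * A * A) = Aᴴ * Aᴴ * ((Aᴴ * A) * A) * A := by
          simp only [Matrix.mul_assoc]
      _ = Aᴴ * Aᴴ * (A * P) * A := by rw [← hP, hPA]
      _ = Aᴴ * (Aᴴ * A) * (P * A) := by simp only [Matrix.mul_assoc]
      _ = Aᴴ * P * (A * P) := by rw [← hP, hPA]
      _ = Aᴴ * (P * A) * P := by simp only [Matrix.mul_assoc]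
      _ = Aᴴ * (A * P) * P := by rw [hPA]
      _ = (Aᴴ * A) * P * P := by simp only [Matrix.mul_assoc]
      _ = P * P * P := by rw [← hP]
  have hf3 : fro (A * A * A) = (P * P * P).trace.re := by
    rw [← hcube, Matrix.trace_mul_comm, fro_eq_trace]
  have hub : fro (A * A * A) ≤ 8 / 100 := by
    rw [ch_traceless A h]
    refine (fro_add_le _ _).trans ?_
    rw [fro_smul, fro_smul, fro_one, h1]
    have e1 : ‖(A * A).trace / 2‖ ≤ 1 / 20 := by
      rw [norm_div, Complex.norm_ofNat]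
      linarith
    have e2 : ‖(A * A).trace / 2‖ ^ 2 ≤ (1 / 20) ^ 2 := pow_le_pow_left₀ (norm_nonneg _) e1 2
    have e3 : ‖A.det‖ ^ 2 ≤ (1 / 10) ^ 2 := pow_le_pow_left₀ (norm_nonneg _) h3 2
    norm_num at e2 e3 ⊢
    linarith
  -- Cauchy-Schwarz
  have htrP : P.trace = 1 := by
    rw [hP, Matrix.trace_mul_comm, trace_self, h1]; simp
  have hP2 : fro P = (P * P).trace.re := by
    rw [← fro_eq_trace, hPh]
  have cs1 := trace_cs_fro P 1
  rw [Matrix.conjTranspose_one, Matrix.mul_one, htrP, fro_one, hP2] at cs1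
  have cs2 := trace_cs_fro A (A * P)
  have e4 : (A * (A * P)ᴴ).trace = (P * P).trace := by
    rw [Matrix.conjTranspose_mul, hPh, Matrix.trace_mul_comm, Matrix.mul_assoc, ← hP]
  have e5 : fro (A * P) = (P * P * P).trace.re := by
    rw [← fro_eq_trace, Matrix.conjTranspose_mul, hPh]
    have : A * P * (P * Aᴴ) = (A * P * P) * Aᴴ := by simp only [Matrix.mul_assoc]
    rw [this, Matrix.trace_mul_comm]
    have : Aᴴ * (A * P * P) = P * P * P := by
      rw [hP]; simp only [Matrix.mul_assoc]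
    rw [this]
  rw [e4, e5, h1, ← hf3, one_mul] at cs2
  have e6 : (P * P).trace.re ≤ ‖(P * P).trace‖ := Complex.re_le_norm _
  norm_num at cs1
  nlinarith [norm_nonneg (P * P).trace]

theorem continuous_fro : Continuous fro := by
  unfold fro
  refine continuous_finsetSum _ fun i _ => continuous_finsetSum _ fun j _ => ?_
  exact ((continuous_apply_apply i j).norm).pow 2

/-- **a weak form of Henrici's inequality** -/
theorem henrici : ∃ δ : ℝ, 0 < δ ∧ ∀ A : M3, A.trace = 0 → ‖(A * A).trace‖ ≤ 1 / 10 * fro A →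
    ‖A.det‖ ^ 2 ≤ 1 / 100 * fro A ^ 3 → δ * fro A ^ 2 ≤ fro (Aᴴ * A - A * Aᴴ) := by
  let K : Set (Fin 3 → Fin 3 → ℂ) := {A | fro (Matrix.of A) = 1 ∧ (Matrix.of A).trace = 0 ∧
    ‖(Matrix.of A * Matrix.of A).trace‖ ≤ 1 / 10 ∧ ‖(Matrix.of A).det‖ ≤ 1 / 10}
  have c0 : Continuous (fun A : Fin 3 → Fin 3 → ℂ => (Matrix.of A : M3)) := continuous_id
  have c1 : Continuous (fun A : Fin 3 → Fin 3 → ℂ => fro (Matrix.of A)) := continuous_fro.comp c0
  have c2 : Continuous (fun A : Fin 3 → Fin 3 → ℂ => (Matrix.of A : M3).trace) := c0.matrix_trace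
  have c3 : Continuous (fun A : Fin 3 → Fin 3 → ℂ =>
      ‖((Matrix.of A : M3) * (Matrix.of A : M3)).trace‖) :=
    ((c0.matrix_mul c0).matrix_trace).norm
  have c4 : Continuous (fun A : Fin 3 → Fin 3 → ℂ => ‖(Matrix.of A : M3).det‖) :=
    (c0.matrix_det).norm
  have hKc : IsClosed K := by
    refine (isClosed_eq c1 continuous_const).inter ((isClosed_eq c2 continuous_const).inter
      ((isClosed_le c3 continuous_const).inter (isClosed_le c4 continuous_const)))
  have hKb : K ⊆ Metric.closedBall 0 1 := by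
    intro A hA
    rw [Metric.mem_closedBall, dist_zero_right]
    rw [pi_norm_le_iff_of_nonneg (by norm_num)]
    intro i
    rw [pi_norm_le_iff_of_nonneg (by norm_num)]
    intro j
    have h1 : ‖A i j‖ ^ 2 ≤ fro (Matrix.of A) := by
      have h2 : ‖A i j‖ ^ 2 ≤ ∑ j, ‖(Matrix.of A) i j‖ ^ 2 :=
        Finset.single_le_sum (f := fun j => ‖(Matrix.of A) i j‖ ^ 2) (fun _ _ => by positivity)
          (Finset.mem_univ j)
      refine h2.trans ?_
      exact Finset.single_le_sum (f := fun i => ∑ j, ‖(Matrix.of A) i j‖ ^ 2)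
        (fun _ _ => Finset.sum_nonneg fun _ _ => by positivity) (Finset.mem_univ i)
    rw [hA.1] at h1
    have h3 := norm_nonneg (A i j)
    by_contra hcon
    push Not at hcon
    nlinarith
  have hK : IsCompact K := (isCompact_closedBall 0 1).of_isClosed_subset hKc hKb
  let f : (Fin 3 → Fin 3 → ℂ) → ℝ := fun A =>
    fro ((Matrix.of A : M3)ᴴ * Matrix.of A - Matrix.of A * (Matrix.of A : M3)ᴴ)
  have cf : Continuous f :=
    continuous_fro.comp ((c0.matrix_conjTranspose.matrix_mul c0).sub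
      (c0.matrix_mul c0.matrix_conjTranspose))
  obtain ⟨δ, hδ, hδ'⟩ : ∃ δ : ℝ, 0 < δ ∧ ∀ A ∈ K, δ ≤ f A := by
    by_cases hne : K.Nonempty
    · obtain ⟨A0, hA0, hmin⟩ := hK.exists_isMinOn hne cf.continuousOn
      refine ⟨f A0, ?_, fun A hA => hmin hA⟩
      rcases (fro_nonneg ((Matrix.of A0 : M3)ᴴ * Matrix.of A0 -
        Matrix.of A0 * (Matrix.of A0 : M3)ᴴ)).eq_or_lt with h | h
      · exfalso
        exact normal_small hA0.2.1 hA0.1 (fro_eq_zero h.symm) hA0.2.2.1 hA0.2.2.2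
      · exact h
    · exact ⟨1, one_pos, fun A hA => absurd ⟨A, hA⟩ hne⟩
  refine ⟨δ, hδ, fun A htr h2 h3 => ?_⟩
  rcases (fro_nonneg A).eq_or_lt with h | h
  · rw [← h]
    simpa using fro_nonneg _
  set t := Real.sqrt (fro A) with ht
  have ht0 : 0 < t := Real.sqrt_pos.2 h
  have ht2 : t ^ 2 = fro A := Real.sq_sqrt h.le
  let B : M3 := ((t⁻¹ : ℝ) : ℂ) • A
  have hn : ‖((t⁻¹ : ℝ) : ℂ)‖ = t⁻¹ := by
    rw [Complex.norm_real, Real.norm_eq_abs, abs_of_pos (inv_pos.2 ht0)]
  have hA : A = (t : ℂ) • B := by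
    simp only [B, smul_smul]
    rw [← Complex.ofReal_mul, mul_inv_cancel₀ ht0.ne']
    simp
  have hBK : B ∈ K := by
    refine ⟨?_, ?_, ?_, ?_⟩
    · show fro B = 1
      rw [fro_smul, hn, ← ht2]
      field_simp
    · show B.trace = 0
      rw [Matrix.trace_smul, htr, smul_zero]
    · show ‖(B * B).trace‖ ≤ 1 / 10
      rw [Matrix.smul_mul, Matrix.mul_smul, Matrix.trace_smul, Matrix.trace_smul, smul_eq_mul,
        smul_eq_mul, norm_mul, norm_mul, hn]
      rw [← ht2] at h2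
      have : t⁻¹ * (t⁻¹ * ‖(A * A).trace‖) ≤ t⁻¹ * (t⁻¹ * (1 / 10 * t ^ 2)) := by gcongr
      refine this.trans (le_of_eq ?_)
      field_simp
    · show ‖B.det‖ ≤ 1 / 10
      rw [Matrix.det_smul, Fintype.card_fin, norm_mul, norm_pow, hn]
      rw [← ht2] at h3
      have h4 : ‖A.det‖ ≤ 1 / 10 * t ^ 3 := by
        have h5 : ‖A.det‖ ^ 2 ≤ (1 / 10 * t ^ 3) ^ 2 := by
          refine h3.trans (le_of_eq ?_)
          ring
        exact (pow_le_pow_iff_left₀ (norm_nonneg _) (by positivity) two_ne_zero).1 h5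
      have : t⁻¹ ^ 3 * ‖A.det‖ ≤ t⁻¹ ^ 3 * (1 / 10 * t ^ 3) := by gcongr
      refine this.trans (le_of_eq ?_)
      field_simp
  have h5 := hδ' B hBK
  have h6 : fro (Aᴴ * A - A * Aᴴ) = t ^ 4 * f B := by
    have gen : ∀ B' : M3, ((t : ℂ) • B')ᴴ * ((t : ℂ) • B') - ((t : ℂ) • B') * ((t : ℂ) • B')ᴴ =
        ((t ^ 2 : ℝ) : ℂ) • (B'ᴴ * B' - B' * B'ᴴ) := by
      intro B'
      rw [Matrix.conjTranspose_smul, Matrix.smul_mul, Matrix.mul_smul, Matrix.smul_mul,
        Matrix.mul_smul, smul_smul, smul_smul, smul_sub]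
      simp only [Complex.star_def, Complex.conj_ofReal]
      push_cast
      rw [pow_two]
    have e1 : Aᴴ * A - A * Aᴴ = ((t ^ 2 : ℝ) : ℂ) • (Bᴴ * B - B * Bᴴ) := by
      calc Aᴴ * A - A * Aᴴ = ((t : ℂ) • B)ᴴ * ((t : ℂ) • B) - ((t : ℂ) • B) * ((t : ℂ) • B)ᴴ := by
            rw [← hA]
        _ = _ := gen B
    rw [e1, fro_smul, Complex.norm_real, Real.norm_eq_abs, abs_of_pos (by positivity)]
    have : f B = fro (Bᴴ * B - B * Bᴴ) := rfl
    rw [this]
    ring
  rw [h6, ← ht2]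
  nlinarith [pow_pos ht0 4]

/-- **the commutator with the adjoint for a rank one projection** -/
theorem block_lemma {π B : M3} {c : ℂ} (h1 : B * π = 0) (h2 : π * B = 0)
    (h3 : ∀ M : M3, π * M * π = (M * π).trace • π) (h4 : π.trace = 1)
    (h5 : B.adjugate = c • π) :
    1 ≤ fro π ∧ ‖c‖ ^ 2 * fro π * (fro π - 1) ≤ fro B * fro (Bᴴ * π - π * Bᴴ) ∧
      ‖c‖ ^ 2 * fro π ≤ fro B ^ 2 / 2 := by
  have hπ0 : π ≠ 0 := by
    intro h; rw [h] at h4; simp at h4
  have hf0 : 0 < fro π := by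
    rcases (fro_nonneg π).eq_or_lt with h | h
    · exact absurd (fro_eq_zero h.symm) hπ0
    · exact h
  have hidem : π * π = π := by
    have := h3 1
    rwa [Matrix.mul_one, Matrix.one_mul, h4, one_smul] at this
  have e1 : (πᴴ * π).trace = (fro π : ℂ) := by
    rw [Matrix.trace_mul_comm, trace_self]
  have e2 : π * πᴴ * π = (fro π : ℂ) • π := by rw [h3, e1]
  set s : ℂ := (((fro π)⁻¹ : ℝ) : ℂ) with hs
  have hs1 : s * (fro π : ℂ) = 1 := by
    rw [hs, ← Complex.ofReal_mul, inv_mul_cancel₀ hf0.ne', Complex.ofReal_one]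
  set Z : M3 := π - s • (πᴴ * π) with hZ
  have hsc : star s = s := by rw [hs, Complex.star_def, Complex.conj_ofReal]
  have e3 : πᴴ * π * (πᴴ * π) = (fro π : ℂ) • (πᴴ * π) := by
    calc πᴴ * π * (πᴴ * π) = πᴴ * (π * πᴴ * π) := by simp only [Matrix.mul_assoc]
      _ = _ := by rw [e2, Matrix.mul_smul]
  -- the norm of `Z`
  have hZf : fro Z = fro π - 1 := by
    have e4 : (Z * Zᴴ).trace = ((fro π - 1 : ℝ) : ℂ) := by
      have e5 : Zᴴ = πᴴ - s • (πᴴ * π) := by
        rw [hZ, Matrix.conjTranspose_sub, Matrix.conjTranspose_smul, Matrix.conjTranspose_mul,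
          Matrix.conjTranspose_conjTranspose, hsc]
      have t1 : (π * (πᴴ * π)).trace = (fro π : ℂ) := by
        rw [← Matrix.mul_assoc, e2, Matrix.trace_smul, h4, smul_eq_mul, mul_one]
      have t2 : (πᴴ * π * πᴴ).trace = (fro π : ℂ) := by
        have := congrArg star t1
        rw [← Matrix.trace_conjTranspose] at this
        simp only [Matrix.conjTranspose_mul, Matrix.conjTranspose_conjTranspose] at this
        rw [this, Complex.star_def, Complex.conj_ofReal]
      rw [e5, hZ, Matrix.mul_sub, Matrix.sub_mul, Matrix.sub_mul, Matrix.mul_smul, Matrix.smul_mul,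
        Matrix.smul_mul, Matrix.mul_smul, e3, Matrix.trace_sub, Matrix.trace_sub, Matrix.trace_sub,
        Matrix.trace_smul, Matrix.trace_smul, Matrix.trace_smul, Matrix.trace_smul,
        Matrix.trace_smul, trace_self, t1, t2, e1]
      simp only [smul_eq_mul]
      push_cast
      linear_combination (s * (fro π : ℂ) - 1) * hs1
    rw [trace_self] at e4
    exact_mod_cast e4
  have hge : 1 ≤ fro π := by
    have := fro_nonneg Z
    linarith
  set X : M3 := B * Bᴴ with hX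
  have hXh : Xᴴ = X := by rw [hX, Matrix.conjTranspose_mul, Matrix.conjTranspose_conjTranspose]
  have hadj : X.adjugate = ((‖c‖ ^ 2 : ℝ) : ℂ) • (πᴴ * π) := by
    rw [hX, Matrix.adjugate_mul_distrib, ← Matrix.adjugate_conjTranspose, h5,
      Matrix.conjTranspose_smul, Matrix.smul_mul, Matrix.mul_smul, smul_smul]
    congr 1
    rw [mul_comm, Complex.star_def, Complex.mul_conj']
    push_cast; rfl
  have hch := ch_adj X
  have htrX : X.trace = (fro B : ℂ) := trace_self B
  have hB1 : Bᴴ * πᴴ = 0 := by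
    rw [← Matrix.conjTranspose_mul, h2, Matrix.conjTranspose_zero]
  have hBZ : Bᴴ * Z = Bᴴ * π := by
    rw [hZ, Matrix.mul_sub, Matrix.mul_smul, ← Matrix.mul_assoc, hB1, Matrix.zero_mul, smul_zero,
      sub_zero]
  have hXX : (X * X).trace = (fro X : ℂ) := by
    have := trace_self X
    rwa [hXh] at this
  -- the second elementary symmetric function
  have he2 : ((X.trace ^ 2 - (X * X).trace) / 2) = ((‖c‖ ^ 2 * fro π : ℝ) : ℂ) := by
    have h6 := congrArg Matrix.trace hch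
    rw [hadj, Matrix.trace_smul, e1, Matrix.trace_add, Matrix.trace_sub, Matrix.trace_smul,
      Matrix.trace_smul, Matrix.trace_one, Fintype.card_fin, smul_eq_mul, smul_eq_mul,
      smul_eq_mul] at h6
    push_cast at h6 ⊢
    linear_combination (-1 : ℂ) * h6
  refine ⟨hge, ?_, ?_⟩
  · -- apply Cayley-Hamilton to `Z`
    have h7 : πᴴ * π * Z = 0 := by
      rw [hZ, Matrix.mul_sub, Matrix.mul_smul, e3, smul_smul, hs1, one_smul, Matrix.mul_assoc,
        hidem, sub_self]
    have h8 : X * X * Z = (fro B : ℂ) • (X * Z) - ((‖c‖ ^ 2 * fro π : ℝ) : ℂ) • Z := by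
      have h9 : X.adjugate * Z = (X * X - X.trace • X +
        ((X.trace ^ 2 - (X * X).trace) / 2) • (1 : M3)) * Z := by rw [← hch]
      rw [hadj, Matrix.smul_mul, h7, smul_zero, Matrix.add_mul, Matrix.sub_mul, Matrix.smul_mul,
        Matrix.smul_mul, Matrix.one_mul, he2, htrX] at h9
      rw [eq_sub_iff_add_eq, ← sub_eq_zero]
      rw [h9]
      abel
    have h10 : ((X * Z) * (X * Z)ᴴ).trace = ((fro B * fro (Bᴴ * π) - ‖c‖ ^ 2 * fro π * fro Z : ℝ) : ℂ) := by
      have e7 : (X * Z) * (X * Z)ᴴ = (X * Z) * (Zᴴ * X) := by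
        rw [Matrix.conjTranspose_mul, hXh]
      have e8 : ((X * Z) * (Zᴴ * X)).trace = (X * X * Z * Zᴴ).trace := by
        have : (X * Z) * (Zᴴ * X) = ((X * Z) * Zᴴ) * X := by simp only [Matrix.mul_assoc]
        rw [this, Matrix.trace_mul_comm]
        simp only [Matrix.mul_assoc]
      rw [e7, e8, h8, Matrix.sub_mul, Matrix.smul_mul, Matrix.smul_mul, Matrix.trace_sub,
        Matrix.trace_smul, Matrix.trace_smul, trace_self]
      have e9 : (X * Z * Zᴴ).trace = (fro (Bᴴ * π) : ℂ) := by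
        rw [← hBZ, ← trace_self, hX, Matrix.conjTranspose_mul, Matrix.conjTranspose_conjTranspose]
        have : B * Bᴴ * Z * Zᴴ = B * (Bᴴ * Z * Zᴴ) := by simp only [Matrix.mul_assoc]
        rw [this, Matrix.trace_mul_comm]
        simp only [Matrix.mul_assoc]
      rw [e9]
      simp only [smul_eq_mul]
      push_cast
      ring
    have h11 : 0 ≤ fro B * fro (Bᴴ * π) - ‖c‖ ^ 2 * fro π * fro Z := by
      rw [trace_self] at h10
      have h12 : fro (X * Z) = fro B * fro (Bᴴ * π) - ‖c‖ ^ 2 * fro π * fro Z := by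
        exact_mod_cast h10
      rw [← h12]
      exact fro_nonneg _
    have h13 : fro (Bᴴ * π - π * Bᴴ) = fro (Bᴴ * π) + fro (π * Bᴴ) := by
      have e10 : ((Bᴴ * π - π * Bᴴ) * (Bᴴ * π - π * Bᴴ)ᴴ).trace =
          ((fro (Bᴴ * π) + fro (π * Bᴴ) : ℝ) : ℂ) := by
        have t3 : (Bᴴ * π) * (π * Bᴴ)ᴴ = 0 := by
          rw [Matrix.conjTranspose_mul, Matrix.conjTranspose_conjTranspose, Matrix.mul_assoc,
            ← Matrix.mul_assoc π, h2, Matrix.zero_mul, Matrix.mul_zero]
        have t4 : (π * Bᴴ) * (Bᴴ * π)ᴴ = 0 := by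
          have := congrArg Matrix.conjTranspose t3
          rw [Matrix.conjTranspose_mul, Matrix.conjTranspose_conjTranspose,
            Matrix.conjTranspose_zero] at this
          exact this
        rw [Matrix.conjTranspose_sub, Matrix.sub_mul, Matrix.mul_sub, Matrix.mul_sub, t3, t4,
          sub_zero, zero_sub, sub_neg_eq_add, Matrix.trace_add, trace_self, trace_self]
        push_cast; rfl
      rw [trace_self] at e10
      exact_mod_cast e10
    rw [h13, hZf] at *
    have h14 := mul_nonneg (fro_nonneg B) (fro_nonneg (π * Bᴴ))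
    nlinarith
  · rw [htrX, hXX] at he2
    have h15 : (fro B ^ 2 - fro X) / 2 = ‖c‖ ^ 2 * fro π := by
      have : (((fro B ^ 2 - fro X) / 2 : ℝ) : ℂ) = ((‖c‖ ^ 2 * fro π : ℝ) : ℂ) := by
        rw [← he2]; push_cast; rfl
      exact_mod_cast this
    rw [← h15]
    have := fro_nonneg X
    linarith

end Pool.Agent.H794
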