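import Pool.Agent.H794.Om

/-!
# The two Higgs bundles
-/

set_option autoImplicit false

open scoped Manifold ContDiff Matrix ComplexOrder
open Matrix Topology Set Filter

namespace Pool.Agent.H794

open Pool.Agent.Helper614.HE Pool.Agent.Helper614.HE.P_TH

/-- the coefficient of the quadratic differential in the frame of the copy `j` -/
noncomputable def qa (r c : ℝ) (j : Bool) (v : ℂ) : ℂ :=
  if j = false then 4 / 3 * (r * v) ^ 2 - c else 4 / 3 * r ^ 2 * v ^ 18 - c * v ^ 20

/-- the coefficient of the cubic differential in the frame of the copy `j` -/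
noncomputable def qb (r c : ℝ) (j : Bool) (v : ℂ) : ℂ :=
  if j = false then 2 / 3 * (r * v) * (c - 8 / 9 * (r * v) ^ 2)
  else -(2 / 3 * r * c * v ^ 29) + 16 / 27 * r ^ 3 * v ^ 27

/-- the companion matrix -/
def cmp (a b : ℂ) : M3 := !![0, a, b; 1, 0, 0; 0, 1, 0]

/-- the block matrix in the frame of the copy `j` -/
noncomputable def blk (r c : ℝ) (j : Bool) (v : ℂ) : M3 :=
  if j = false then !![-(r * v / 3), (r * v) ^ 2 - c, 0; 1, -(r * v / 3), 0; 0, 0, 2 / 3 * (r * v)]
  else !![r / 3 * v ^ 9, -(r ^ 2 * v ^ 8 - c * v ^ 10), 0; -(v ^ 10), r / 3 * v ^ 9, 0;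
    0, 0, -(2 / 3 * r * v ^ 9)]

/-- the transition functions of `K ⊕ O ⊕ K⁻¹` -/
noncomputable def gt (i j : Bool) (x : SX 4) : M3 :=
  if i = j then 1 else Matrix.diagonal ![-(VV 4 i x ^ 10), 1, (-(VV 4 i x ^ 10))⁻¹]

theorem qa_rel (r c : ℝ) (i : Bool) {v : ℂ} (hv : v ≠ 0) :
    qa r c i v = (-(v ^ 10)) ^ 2 * qa r c (!i) v⁻¹ := by
  cases i <;> simp [qa] <;> field_simp

theorem qb_rel (r c : ℝ) (i : Bool) {v : ℂ} (hv : v ≠ 0) :
    qb r c i v = (-(v ^ 10)) ^ 3 * qb r c (!i) v⁻¹ := by
  cases i <;> simp [qb] <;> field_simp <;> ring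

theorem blk_rel (r c : ℝ) (i : Bool) {v : ℂ} (hv : v ≠ 0) :
    blk r c i v = (-(v ^ 10)) • blk r c (!i) v⁻¹ := by
  cases i <;> ext a b <;> fin_cases a <;> fin_cases b <;> simp [blk] <;> field_simp <;> try ring

theorem qa_diff (r c : ℝ) (j : Bool) : Differentiable ℂ (qa r c j) := by
  unfold qa
  cases j
  · simp only [if_true]; fun_prop
  · simp only [Bool.true_eq_false, if_false]; fun_prop

theorem qb_diff (r c : ℝ) (j : Bool) : Differentiable ℂ (qb r c j) := by
  unfold qb
  cases j
  · simp only [if_true]; fun_prop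
  · simp only [Bool.true_eq_false, if_false]; fun_prop

theorem blk_diff (r c : ℝ) (j : Bool) (a b : Fin 3) :
    Differentiable ℂ (fun v => blk r c j v a b) := by
  unfold blk
  cases j
  · simp only [if_true]
    fin_cases a <;> fin_cases b <;> simp <;> fun_prop
  · simp only [Bool.true_eq_false, if_false]
    fin_cases a <;> fin_cases b <;> simp <;> fun_prop

theorem bne {i j : Bool} (h : i ≠ j) : j = !i := by
  cases i <;> cases j <;> simp_all

section

variable [ChartedSpace ℂ (SX 4)] (hB : SBasic 4) (hG : SGood 4)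

omit [ChartedSpace ℂ (SX 4)] in
include hB in
theorem VV_ne : ∀ i j, i ≠ j → ∀ x ∈ UU 4 i ∩ UU 4 j, VV 4 i x ≠ 0 := by
  intro i j hij x hx
  rw [bne hij] at hx
  exact (hB.mem_other i x hx.1).mp hx.2

omit [ChartedSpace ℂ (SX 4)] in
include hB in
theorem VV_inv : ∀ i j, i ≠ j → ∀ x ∈ UU 4 i ∩ UU 4 j, VV 4 j x = (VV 4 i x)⁻¹ := by
  intro i j hij x hx
  rw [bne hij] at hx ⊢
  exact hB.VV_other i x hx.1 hx.2

include hB hG in
theorem om_rel {i j : Bool} (hij : i ≠ j) {e : OpenPartialHomeomorph (SX 4) ℂ}
    (he : e ∈ atlas ℂ (SX 4)) {x : SX 4} (hx : x ∈ (UU 4 i ∩ UU 4 j) ∩ e.source) :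
    om 4 j e x = -(VV 4 i x ^ 10) * om 4 i e x := by
  rw [bne hij] at hx ⊢
  exact om_five (by norm_num) hB hG he hx

/-- **the Higgs bundle of the Hitchin section** -/
noncomputable def HT (r c : ℝ) : HiggsBundle 3 (SX 4) where
  ι := Bool
  U := UU 4
  isOpen_U := hB.isOpen_UU
  cover := fun x => (hB.cover x).elim (fun h => ⟨false, h⟩) (fun h => ⟨true, h⟩)
  g := gt
  holo_g := by
    intro i j e he a b
    by_cases hij : i = j
    · simp only [gt, if_pos hij]
      exact differentiableOn_const _
    · simp only [gt, if_neg hij]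
      have hV : DifferentiableOn ℂ (fun z => -(VV 4 i (e.symm z) ^ 10))
          (e.target ∩ e.symm ⁻¹' (UU 4 i ∩ UU 4 j)) :=
        (((hG.holoV e he i).mono (fun z hz => ⟨hz.1, hz.2.1⟩)).fun_pow 10).fun_neg
      have hV' : DifferentiableOn ℂ (fun z => (-(VV 4 i (e.symm z) ^ 10))⁻¹)
          (e.target ∩ e.symm ⁻¹' (UU 4 i ∩ UU 4 j)) :=
        hV.inv (fun z hz => neg_ne_zero.2 (pow_ne_zero _ (VV_ne hB i j hij _ hz.2)))
      fin_cases a <;> fin_cases b <;>
        first
          | simpa [Matrix.diagonal] using hV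
          | simpa [Matrix.diagonal] using hV'
  det_g := by
    intro i j x hx
    by_cases hij : i = j
    · simp [gt, hij]
    · simp only [gt, if_neg hij, Matrix.det_diagonal, Fin.prod_univ_three]
      have := VV_ne hB i j hij x hx
      simp [this]
  cocycle := by
    intro i j k x hx
    by_cases hij : i = j
    · subst hij
      simp [gt]
    · by_cases hjk : j = k
      · subst hjk
        simp [gt]
      · have hik : i = k := by
          rw [bne hjk, bne hij]; simp
        subst hik
        have h1 := VV_ne hB i j hij x hx.1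
        have h2 := VV_inv hB i j hij x hx.1
        simp only [gt, if_neg hij, if_neg hjk, if_true]
        rw [Matrix.diagonal_mul_diagonal, ← Matrix.diagonal_one]
        congr 1
        funext a
        fin_cases a <;> simp [h2, h1]
  φ := fun i e x => (r * om 4 i e x) • cmp (qa r c i (VV 4 i x)) (qb r c i (VV 4 i x))
  trace_φ := by
    intro i e he x hx
    rw [Matrix.trace_smul]
    simp [cmp, Matrix.trace, Fin.sum_univ_three]
  holo_φ := by
    intro i e he a b
    have h1 : DifferentiableOn ℂ (fun z => (r : ℂ) * om 4 i e (e.symm z))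
        (e.target ∩ e.symm ⁻¹' UU 4 i) := (om_one (by norm_num) hB hG he i).const_mul _
    have hV := hG.holoV e he i
    have h2 : DifferentiableOn ℂ (fun z => qa r c i (VV 4 i (e.symm z)))
        (e.target ∩ e.symm ⁻¹' UU 4 i) := by
      exact (qa_diff r c i).comp_differentiableOn hV
    have h3 : DifferentiableOn ℂ (fun z => qb r c i (VV 4 i (e.symm z)))
        (e.target ∩ e.symm ⁻¹' UU 4 i) := by
      exact (qb_diff r c i).comp_differentiableOn hV
    have h4 := h1.fun_mul h2
    have h5 := h1.fun_mul h3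
    fin_cases a <;> fin_cases b <;>
      first
        | simpa [cmp] using h4
        | simpa [cmp] using h5
        | simpa [cmp] using h1
        | simp [cmp]
  change_φ := by
    intro i e he e' he' x hx
    rw [om_two hB hG he he' hx, smul_smul]
    congr 1
    ring
  glue_φ := by
    intro i j e he x hx
    by_cases hij : i = j
    · subst hij
      simp [gt]
    · have h1 := VV_ne hB i j hij x hx.1
      have h2 := VV_inv hB i j hij x hx.1
      have h3 := om_rel hB hG hij he hx
      have hj := bne hij
      have hA := qa_rel r c i h1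
      have hP := qb_rel r c i h1
      rw [← hj, ← h2] at hA hP
      simp only [gt, if_neg hij]
      rw [h3, hA, hP]
      have h4 : -(VV 4 i x ^ 10) ≠ 0 := neg_ne_zero.2 (pow_ne_zero _ h1)
      generalize -(VV 4 i x ^ 10) = l at *
      generalize qa r c j (VV 4 j x) = a
      generalize qb r c j (VV 4 j x) = b
      generalize om 4 i e x = t
      ext s u
      fin_cases s <;> fin_cases u <;>
      · simp [cmp, Matrix.mul_diagonal, Matrix.diagonal_mul]
        try field_simp

/-- **the direct sum of a Higgs bundle of rank two and a Higgs line bundle** -/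
noncomputable def EB (r c : ℝ) : HiggsBundle 3 (SX 4) where
  ι := Bool
  U := UU 4
  isOpen_U := hB.isOpen_UU
  cover := fun x => (hB.cover x).elim (fun h => ⟨false, h⟩) (fun h => ⟨true, h⟩)
  g := fun _ _ _ => 1
  holo_g := by
    intro i j e he a b
    exact differentiableOn_const _
  det_g := by
    intro i j x hx
    exact Matrix.det_one
  cocycle := by
    intro i j k x hx
    exact Matrix.one_mul 1
  φ := fun i e x => (r * om 4 i e x) • blk r c i (VV 4 i x)
  trace_φ := by
    intro i e he x hx
    rw [Matrix.trace_smul]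
    have : (blk r c i (VV 4 i x)).trace = 0 := by
      cases i <;> simp [blk, Matrix.trace, Fin.sum_univ_three] <;> ring
    rw [this, smul_zero]
  holo_φ := by
    intro i e he a b
    have h1 : DifferentiableOn ℂ (fun z => (r : ℂ) * om 4 i e (e.symm z))
        (e.target ∩ e.symm ⁻¹' UU 4 i) := (om_one (by norm_num) hB hG he i).const_mul _
    have hV := hG.holoV e he i
    have h2 : DifferentiableOn ℂ (fun z => blk r c i (VV 4 i (e.symm z)) a b)
        (e.target ∩ e.symm ⁻¹' UU 4 i) := by
      exact (blk_diff r c i a b).comp_differentiableOn hV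
    exact h1.fun_mul h2
  change_φ := by
    intro i e he e' he' x hx
    rw [om_two hB hG he he' hx, smul_smul]
    congr 1
    ring
  glue_φ := by
    intro i j e he x hx
    rw [Matrix.mul_one, Matrix.one_mul]
    by_cases hij : i = j
    · subst hij
      rfl
    · have h1 := VV_ne hB i j hij x hx.1
      have h2 := VV_inv hB i j hij x hx.1
      have h3 := om_rel hB hG hij he hx
      have hA := blk_rel r c i h1
      rw [← bne hij, ← h2] at hA
      rw [h3, hA, smul_smul]
      congr 1
      ring

end

end Pool.Agent.H794
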