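import Pool.Graph.R_pool_sql_team_seeded_620a6dc7.Helper614.HE.Assembled

/-!
# Wirtinger calculus for matrices, the Laplacian, and a Bochner inequality
-/

set_option autoImplicit false

open scoped Manifold ContDiff Matrix ComplexOrder
open Matrix Topology Set Filter

namespace Pool.Agent.H794

open Pool.Agent.Helper614.HE Pool.Agent.Helper614.HE.P_UN1 Pool.Agent.Helper614.HE.P_UN2

/-- complex 3 by 3 matrices -/
abbrev M3 := Matrix (Fin 3) (Fin 3) ℂ

/-- the square of the norm of a matrix for the metric `H` -/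
noncomputable def nrm (H M : M3) : ℝ := (M * adj H M).trace.re

/-! ### Linear algebra -/

theorem adj_fact {H B M : M3} (hB : H = Bᴴ * B) (h0 : B.det ≠ 0) :
    adj H M = B⁻¹ * (B * M * B⁻¹)ᴴ * B := by
  have hu : IsUnit B.det := isUnit_iff_ne_zero.mpr h0
  have hu' : IsUnit (Bᴴ).det := by
    rw [Matrix.det_conjTranspose]; exact isUnit_iff_ne_zero.mpr (star_ne_zero.mpr h0)
  rw [adj, hB, Matrix.mul_inv_rev, Matrix.conjTranspose_mul, Matrix.conjTranspose_mul,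
    Matrix.conjTranspose_nonsing_inv]
  simp only [Matrix.mul_assoc]

theorem conj_mul {B M N : M3} (h0 : B.det ≠ 0) :
    B * (M * N) * B⁻¹ = (B * M * B⁻¹) * (B * N * B⁻¹) := by
  have hu : IsUnit B.det := isUnit_iff_ne_zero.mpr h0
  have h1 : B⁻¹ * B = 1 := Matrix.nonsing_inv_mul _ hu
  calc B * (M * N) * B⁻¹ = B * M * (1 * (N * B⁻¹)) := by
        rw [Matrix.one_mul]; simp only [Matrix.mul_assoc]
    _ = B * M * ((B⁻¹ * B) * (N * B⁻¹)) := by rw [h1]
    _ = _ := by simp only [Matrix.mul_assoc]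

theorem trace_conj {B M : M3} (h0 : B.det ≠ 0) : (B * M * B⁻¹).trace = M.trace := by
  have hu : IsUnit B.det := isUnit_iff_ne_zero.mpr h0
  rw [Matrix.trace_mul_comm, ← Matrix.mul_assoc, Matrix.nonsing_inv_mul _ hu, Matrix.one_mul]

theorem conj_adj {H B M : M3} (hB : H = Bᴴ * B) (h0 : B.det ≠ 0) :
    B * adj H M * B⁻¹ = (B * M * B⁻¹)ᴴ := by
  have hu : IsUnit B.det := isUnit_iff_ne_zero.mpr h0
  rw [adj_fact hB h0]
  have h1 : B * B⁻¹ = 1 := Matrix.mul_nonsing_inv _ hu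
  calc B * (B⁻¹ * (B * M * B⁻¹)ᴴ * B) * B⁻¹ = (B * B⁻¹) * (B * M * B⁻¹)ᴴ * (B * B⁻¹) := by
        simp only [Matrix.mul_assoc]
    _ = _ := by rw [h1, Matrix.one_mul, Matrix.mul_one]

theorem trace_mul_adj {H B M N : M3} (hB : H = Bᴴ * B) (h0 : B.det ≠ 0) :
    (M * adj H N).trace = ((B * M * B⁻¹) * (B * N * B⁻¹)ᴴ).trace := by
  rw [← trace_conj h0, conj_mul h0, conj_adj hB h0]

theorem trace_mul_ct (X Y : M3) : (X * Yᴴ).trace = ∑ i, ∑ j, X i j * star (Y i j) := by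
  rw [Matrix.trace]
  refine Finset.sum_congr rfl fun i _ => ?_
  rw [Matrix.diag_apply, Matrix.mul_apply]
  rfl

/-- the square of the Frobenius norm -/
noncomputable def fro (X : M3) : ℝ := ∑ i, ∑ j, ‖X i j‖ ^ 2

theorem fro_nonneg (X : M3) : 0 ≤ fro X :=
  Finset.sum_nonneg fun _ _ => Finset.sum_nonneg fun _ _ => by positivity

theorem trace_self (X : M3) : (X * Xᴴ).trace = (fro X : ℂ) := by
  rw [trace_mul_ct, fro]
  push_cast
  refine Finset.sum_congr rfl fun i _ => Finset.sum_congr rfl fun j _ => ?_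
  have := Complex.mul_conj' (X i j)
  exact this

theorem nrm_eq {H B M : M3} (hB : H = Bᴴ * B) (h0 : B.det ≠ 0) :
    nrm H M = fro (B * M * B⁻¹) := by
  rw [nrm, trace_mul_adj hB h0, trace_self, Complex.ofReal_re]

theorem trace_adj_self {H M : M3} (hH : H.PosDef) : (M * adj H M).trace = (nrm H M : ℂ) := by
  obtain ⟨B, hB, h0⟩ := UN1_fact hH
  rw [nrm, trace_mul_adj hB h0, trace_self, Complex.ofReal_re]

theorem nrm_nonneg {H : M3} (hH : H.PosDef) (M : M3) : 0 ≤ nrm H M := by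
  obtain ⟨B, hB, h0⟩ := UN1_fact hH
  rw [nrm_eq hB h0]
  exact fro_nonneg _

theorem fro_eq_zero {X : M3} (h : fro X = 0) : X = 0 := by
  ext i j
  have h1 := (Finset.sum_eq_zero_iff_of_nonneg (fun i _ =>
    Finset.sum_nonneg fun j _ => by positivity)).1 h i (Finset.mem_univ i)
  have h2 := (Finset.sum_eq_zero_iff_of_nonneg (fun j _ => by positivity)).1 h1 j
    (Finset.mem_univ j)
  simpa using h2

theorem nrm_pos {H : M3} (hH : H.PosDef) {M : M3} (hM : M ≠ 0) : 0 < nrm H M := by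
  obtain ⟨B, hB, h0⟩ := UN1_fact hH
  have hu : IsUnit B.det := isUnit_iff_ne_zero.mpr h0
  rw [nrm_eq hB h0]
  rcases (fro_nonneg (B * M * B⁻¹)).eq_or_lt with h | h
  · exfalso
    apply hM
    have h1 := fro_eq_zero h.symm
    calc M = (B⁻¹ * B) * M * (B⁻¹ * B) := by
          rw [Matrix.nonsing_inv_mul _ hu, Matrix.one_mul, Matrix.mul_one]
      _ = B⁻¹ * (B * M * B⁻¹) * B := by simp only [Matrix.mul_assoc]
      _ = 0 := by rw [h1]; simp
  · exact h

/-- Cauchy-Schwarz -/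
theorem trace_cs_fro (X Y : M3) : ‖(X * Yᴴ).trace‖ ^ 2 ≤ fro X * fro Y := by
  rw [trace_mul_ct]
  have h1 : ‖∑ i, ∑ j, X i j * star (Y i j)‖ ≤ ∑ p : Fin 3 × Fin 3, ‖X p.1 p.2‖ * ‖Y p.1 p.2‖ := by
    rw [← Fintype.sum_prod_type' (fun i j => X i j * star (Y i j))]
    refine (norm_sum_le _ _).trans (le_of_eq ?_)
    refine Finset.sum_congr rfl fun p _ => ?_
    rw [norm_mul, norm_star]
  have h2 : fro X = ∑ p : Fin 3 × Fin 3, ‖X p.1 p.2‖ ^ 2 := by
    rw [fro, ← Fintype.sum_prod_type' (fun i j => ‖X i j‖ ^ 2)]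
  have h3 : fro Y = ∑ p : Fin 3 × Fin 3, ‖Y p.1 p.2‖ ^ 2 := by
    rw [fro, ← Fintype.sum_prod_type' (fun i j => ‖Y i j‖ ^ 2)]
  rw [h2, h3]
  refine (pow_le_pow_left₀ (norm_nonneg _) h1 2).trans ?_
  exact Finset.sum_mul_sq_le_sq_mul_sq _ _ _

theorem trace_cs {H : M3} (hH : H.PosDef) (X Y : M3) :
    ‖(X * adj H Y).trace‖ ^ 2 ≤ nrm H X * nrm H Y := by
  obtain ⟨B, hB, h0⟩ := UN1_fact hH
  rw [trace_mul_adj hB h0, nrm_eq hB h0, nrm_eq hB h0]
  exact trace_cs_fro _ _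

theorem adj_adj {H : M3} (hH : H.PosDef) (X : M3) : adj H (adj H X) = X := by
  have uH : IsUnit H.det := (Matrix.isUnit_iff_isUnit_det _).mp hH.isUnit
  rw [adj, adj, Matrix.conjTranspose_mul, Matrix.conjTranspose_mul,
    Matrix.conjTranspose_conjTranspose, hH.isHermitian.eq, hH.inv.isHermitian.eq]
  calc H⁻¹ * (H * (X * H⁻¹)) * H = (H⁻¹ * H) * X * (H⁻¹ * H) := by simp only [Matrix.mul_assoc]
    _ = X := by rw [Matrix.nonsing_inv_mul _ uH, Matrix.one_mul, Matrix.mul_one]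

theorem adj_mul {H : M3} (hH : H.PosDef) (X Y : M3) : adj H (X * Y) = adj H Y * adj H X := by
  have uH : IsUnit H.det := (Matrix.isUnit_iff_isUnit_det _).mp hH.isUnit
  rw [adj, adj, adj, Matrix.conjTranspose_mul]
  calc H⁻¹ * (Yᴴ * Xᴴ) * H = H⁻¹ * Yᴴ * 1 * Xᴴ * H := by
        rw [Matrix.mul_one]; simp only [Matrix.mul_assoc]
    _ = H⁻¹ * Yᴴ * (H * H⁻¹) * Xᴴ * H := by rw [Matrix.mul_nonsing_inv _ uH]
    _ = _ := by simp only [Matrix.mul_assoc]

theorem adj_sub {H : M3} (X Y : M3) : adj H (X - Y) = adj H X - adj H Y := by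
  rw [adj, adj, adj, Matrix.conjTranspose_sub, Matrix.mul_sub, Matrix.sub_mul]

theorem adj_add {H : M3} (X Y : M3) : adj H (X + Y) = adj H X + adj H Y := by
  rw [adj, adj, adj, Matrix.conjTranspose_add, Matrix.mul_add, Matrix.add_mul]

/-- the commutator term -/
theorem comm_term {H : M3} (hH : H.PosDef) {P S : M3} (h : P * S = S * P) :
    (((P * adj H P - adj H P * P) * S - S * (P * adj H P - adj H P * P)) * adj H S).trace =
      (nrm H (adj H P * S - S * adj H P) : ℂ) := by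
  rw [← trace_adj_self hH, adj_sub, adj_mul hH, adj_mul hH, adj_adj hH]
  set Q := adj H P
  set T := adj H S
  have e1 : (P * Q - Q * P) * S - S * (P * Q - Q * P) =
      P * (Q * S - S * Q) - (Q * S - S * Q) * P := by
    have h1 : Q * P * S = Q * (S * P) := by rw [Matrix.mul_assoc, h]
    have h2 : S * (P * Q) = P * S * Q := by rw [← Matrix.mul_assoc, h]
    simp only [Matrix.mul_sub, Matrix.sub_mul]
    rw [h1, h2]
    simp only [Matrix.mul_assoc]
    abel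
  rw [e1]
  set C := Q * S - S * Q
  clear_value C
  rw [Matrix.sub_mul, Matrix.trace_sub, Matrix.mul_sub, Matrix.trace_sub, Matrix.mul_assoc P C T,
    Matrix.trace_mul_comm P, Matrix.mul_assoc C T P, Matrix.mul_assoc C P T]

/-! ### Calculus -/

theorem UN1_D_herm {n : ℕ} {A : ℂ → Matrix (Fin n) (Fin n) ℂ} {z : ℂ} (hA : UN1_D A z) :
    UN1_D (fun w => (A w)ᴴ) z := by
  intro i j
  exact ((Complex.conjCLE : ℂ →L[ℝ] ℂ).differentiableAt).comp z (hA j i)

theorem dz_star {f : ℂ → ℂ} {z : ℂ} (hf : DifferentiableAt ℝ f z) :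
    dz (fun w => star (f w)) z = star (dzb f z) := by
  have h : HasFDerivAt (fun w => star (f w)) ((Complex.conjCLE : ℂ →L[ℝ] ℂ).comp (fderiv ℝ f z)) z :=
    (Complex.conjCLE : ℂ →L[ℝ] ℂ).hasFDerivAt.comp z hf.hasFDerivAt
  rw [dzb, dz, h.fderiv]
  simp
  ring

theorem mdz_ct {n : ℕ} {A : ℂ → Matrix (Fin n) (Fin n) ℂ} {z : ℂ} (hA : UN1_D A z) :
    mdz (fun w => (A w)ᴴ) z = (mdzb A z)ᴴ := by
  ext i j
  exact dz_star (hA j i)

theorem mdzb_ct {n : ℕ} {A : ℂ → Matrix (Fin n) (Fin n) ℂ} {z : ℂ} (hA : UN1_D A z) :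
    mdzb (fun w => (A w)ᴴ) z = (mdz A z)ᴴ := by
  ext i j
  exact UN1_dzb_star (hA j i)

theorem dzb_holo {f : ℂ → ℂ} {z : ℂ} (hf : DifferentiableAt ℂ f z) : dzb f z = 0 := by
  have h1 : HasFDerivAt f ((fderiv ℂ f z).restrictScalars ℝ) z :=
    hf.hasFDerivAt.restrictScalars ℝ
  rw [dzb, h1.fderiv]
  have h2 : (fderiv ℂ f z) Complex.I = Complex.I * (fderiv ℂ f z) 1 := by
    rw [← smul_eq_mul, ← map_smul, smul_eq_mul, mul_one]
  rw [ContinuousLinearMap.coe_restrictScalars', h2, ← mul_assoc, Complex.I_mul_I]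
  ring

theorem dz_holo {f : ℂ → ℂ} {z : ℂ} (hf : DifferentiableAt ℂ f z) : dz f z = deriv f z := by
  have h1 : HasFDerivAt f ((fderiv ℂ f z).restrictScalars ℝ) z :=
    hf.hasFDerivAt.restrictScalars ℝ
  rw [dz, h1.fderiv]
  have h2 : (fderiv ℂ f z) Complex.I = Complex.I * (fderiv ℂ f z) 1 := by
    rw [← smul_eq_mul, ← map_smul, smul_eq_mul, mul_one]
  rw [ContinuousLinearMap.coe_restrictScalars', h2, ← mul_assoc, Complex.I_mul_I]
  have h3 : (fderiv ℂ f z) 1 = deriv f z := rfl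
  rw [h3]
  ring

theorem mdzb_holo {n : ℕ} {S : ℂ → Matrix (Fin n) (Fin n) ℂ} {z : ℂ}
    (hS : ∀ a b, DifferentiableAt ℂ (fun w => S w a b) z) : mdzb S z = 0 := by
  ext i j
  exact dzb_holo (hS i j)

theorem mdz_holo {n : ℕ} {S : ℂ → Matrix (Fin n) (Fin n) ℂ} {z : ℂ}
    (hS : ∀ a b, DifferentiableAt ℂ (fun w => S w a b) z) :
    mdz S z = Matrix.of fun i j => deriv (fun w => S w i j) z := by
  ext i j
  exact dz_holo (hS i j)

/-- first derivative of `T = adj H S` for holomorphic `S` -/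
theorem mdz_adj {H S : ℂ → M3} {z : ℂ} (hH : UN1_D H z) (h0 : ∀ᶠ w in 𝓝 z, (H w).det ≠ 0)
    (hS : ∀ a b, DifferentiableAt ℂ (fun w => S w a b) z) :
    mdz (fun w => adj (H w) (S w)) z =
      adj (H z) (S z) * ((H z)⁻¹ * mdz H z) - ((H z)⁻¹ * mdz H z) * adj (H z) (S z) := by
  have hSD : UN1_D S z := fun a b => (hS a b).restrictScalars ℝ
  have hi := UN1_D_inv hH h0.self_of_nhds
  have hc := UN1_D_herm hSD
  have uH : IsUnit (H z).det := isUnit_iff_ne_zero.mpr h0.self_of_nhds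
  have e1 : mdz (fun w => adj (H w) (S w)) z = UN1_md (-Complex.I) (fun w => (H w)⁻¹ * (S w)ᴴ * H w) z :=
    UN1_mdz _ _
  rw [e1, UN1_md_mul _ (UN1_D_mul hi hc) hH, UN1_md_mul _ hi hc, UN1_md_inv _ hH h0,
    ← UN1_mdz, ← UN1_mdz, mdz_ct hSD, mdzb_holo hS]
  rw [adj, Matrix.conjTranspose_zero, Matrix.mul_zero, add_zero]
  have h1 : (H z)⁻¹ * (S z)ᴴ * H z * ((H z)⁻¹ * mdz H z) = (H z)⁻¹ * (S z)ᴴ * mdz H z := by
    rw [← Matrix.mul_assoc, Matrix.mul_assoc ((H z)⁻¹ * (S z)ᴴ) (H z), Matrix.mul_nonsing_inv _ uH,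
      Matrix.mul_one]
  rw [h1]
  simp only [Matrix.neg_mul, Matrix.mul_assoc]
  abel

theorem UN1_D_adj {H S : ℂ → M3} {z : ℂ} (hH : UN1_D H z) (h0 : (H z).det ≠ 0)
    (hS : UN1_D S z) : UN1_D (fun w => adj (H w) (S w)) z :=
  UN1_D_mul (UN1_D_mul (UN1_D_inv hH h0) (UN1_D_herm hS)) hH

/-- second derivative of `T = adj H S` -/
theorem mdzb_adj {H S : ℂ → M3} {z : ℂ} (hH : UN1_D H z) (hp : ∀ᶠ w in 𝓝 z, (H w).PosDef)
    (hS : ∀ a b, DifferentiableAt ℂ (fun w => S w a b) z) :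
    mdzb (fun w => adj (H w) (S w)) z =
      adj (H z) (mdz S z + ((H z)⁻¹ * mdz H z) * S z - S z * ((H z)⁻¹ * mdz H z)) := by
  have h0 : ∀ᶠ w in 𝓝 z, (H w).det ≠ 0 := hp.mono fun w hw => ne_of_gt hw.det_pos
  have hSD : UN1_D S z := fun a b => (hS a b).restrictScalars ℝ
  have hi := UN1_D_inv hH h0.self_of_nhds
  have hc := UN1_D_herm hSD
  have hpz := hp.self_of_nhds
  have uH : IsUnit (H z).det := isUnit_iff_ne_zero.mpr h0.self_of_nhds
  have hherm : mdzb H z = (mdz H z)ᴴ := UN1_herm hH (hp.mono fun w hw => hw.isHermitian.eq)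
  have e1 : mdzb (fun w => adj (H w) (S w)) z = UN1_md Complex.I (fun w => (H w)⁻¹ * (S w)ᴴ * H w) z :=
    rfl
  rw [e1, UN1_md_mul _ (UN1_D_mul hi hc) hH, UN1_md_mul _ hi hc, UN1_md_inv _ hH h0,
    ← UN1_mdzb, ← UN1_mdzb, mdzb_ct hSD, hherm]
  rw [adj_sub, adj_add, adj, adj, adj]
  simp only [Matrix.conjTranspose_mul, hpz.inv.isHermitian.eq]
  have h1 : (H z)⁻¹ * ((S z)ᴴ * ((mdz H z)ᴴ * (H z)⁻¹)) * H z = (H z)⁻¹ * (S z)ᴴ * (mdz H z)ᴴ := by
    have : (H z)⁻¹ * ((S z)ᴴ * ((mdz H z)ᴴ * (H z)⁻¹)) * H z =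
      (H z)⁻¹ * ((S z)ᴴ * ((mdz H z)ᴴ * ((H z)⁻¹ * H z))) := by simp only [Matrix.mul_assoc]
    rw [this, Matrix.nonsing_inv_mul _ uH, Matrix.mul_one, Matrix.mul_assoc]
  rw [h1]
  simp only [Matrix.neg_mul, Matrix.mul_assoc, Matrix.add_mul]
  abel

theorem ev_of_cda {A : ℂ → M3} {z : ℂ} (h : ∀ i j, ContDiffAt ℝ 2 (fun w => A w i j) z) :
    ∀ᶠ w in 𝓝 z, UN1_D A w := by
  have h1 : ∀ i j, ∀ᶠ w in 𝓝 z, ContDiffAt ℝ 2 (fun w => A w i j) w := fun i j =>
    (h i j).eventually (by norm_num)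
  have h2 : ∀ᶠ w in 𝓝 z, ∀ i j, ContDiffAt ℝ 2 (fun w => A w i j) w := by
    rw [Filter.eventually_all]; intro i
    rw [Filter.eventually_all]; intro j
    exact h1 i j
  exact h2.mono fun w hw i j => (hw i j).differentiableAt (by norm_num)

/-- the connection matrix -/
noncomputable def conn (H : ℂ → M3) (z : ℂ) : M3 := (H z)⁻¹ * mdz H z

/-- the covariant derivative of a holomorphic endomorphism -/
noncomputable def cov (H S : ℂ → M3) (z : ℂ) : M3 := mdz S z + conn H z * S z - S z * conn H z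

theorem dz_trace {H S : ℂ → M3} {z : ℂ} (hH : UN1_D H z) (h0 : ∀ᶠ w in 𝓝 z, (H w).det ≠ 0)
    (hS : ∀ a b, DifferentiableAt ℂ (fun w => S w a b) z) :
    dz (fun w => (S w * adj (H w) (S w)).trace) z = (cov H S z * adj (H z) (S z)).trace := by
  have hSD : UN1_D S z := fun a b => (hS a b).restrictScalars ℝ
  have hT := UN1_D_adj hH h0.self_of_nhds hSD
  rw [UN1_dz, UN1_md_trace _ (UN1_D_mul hSD hT), UN1_md_mul _ hSD hT, ← UN1_mdz, ← UN1_mdz,
    mdz_adj hH h0 hS, cov, conn]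
  set T := adj (H z) (S z)
  set A := (H z)⁻¹ * mdz H z
  rw [Matrix.mul_sub, Matrix.trace_add, Matrix.trace_sub, Matrix.sub_mul, Matrix.add_mul,
    Matrix.trace_sub, Matrix.trace_add, ← Matrix.mul_assoc (S z) T A,
    Matrix.trace_mul_comm (S z * T) A, ← Matrix.mul_assoc A, ← Matrix.mul_assoc (S z) A T]
  ring

/-- the Laplacian of the square of the norm -/
theorem dzb_dz_trace {H S : ℂ → M3} {z : ℂ} (hp : ∀ᶠ w in 𝓝 z, (H w).PosDef)
    (hC : ∀ a b, ContDiffAt ℝ 2 (fun w => H w a b) z)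
    (hS : ∀ᶠ w in 𝓝 z, ∀ a b, DifferentiableAt ℂ (fun w => S w a b) w)
    (R : M3) (hR : mdzb (conn H) z = R) :
    dzb (dz (fun w => (S w * adj (H w) (S w)).trace)) z =
      ((R * S z - S z * R) * adj (H z) (S z)).trace + (nrm (H z) (cov H S z) : ℂ) := by
  have hd : ∀ᶠ w in 𝓝 z, (H w).det ≠ 0 := hp.mono fun w hw => ne_of_gt hw.det_pos
  have hDH := ev_of_cda hC
  have h1 : dz (fun w => (S w * adj (H w) (S w)).trace) =ᶠ[𝓝 z]
      fun w => (cov H S w * adj (H w) (S w)).trace := by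
    filter_upwards [hDH, hd.eventually_nhds, hS] with w a1 a2 a3
    exact dz_trace a1 a2 a3
  have hSz := hS.self_of_nhds
  have hSD : UN1_D S z := fun a b => (hSz a b).restrictScalars ℝ
  have hHz := hDH.self_of_nhds
  have hT := UN1_D_adj hHz hd.self_of_nhds hSD
  have hi := UN1_D_inv hHz hd.self_of_nhds
  have hmd := UN1_D_mdz hC
  have hA : UN1_D (conn H) z := UN1_D_mul hi hmd
  -- holomorphy of the derivative of `S`
  have hSh : ∀ a b, DifferentiableAt ℂ (deriv fun w => S w a b) z := by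
    intro a b
    have h2 : ∀ᶠ w in 𝓝 z, DifferentiableAt ℂ (fun w => S w a b) w := hS.mono fun w hw => hw a b
    exact ((Complex.analyticAt_iff_eventually_differentiableAt.2 h2).deriv).differentiableAt
  have hmS : mdz S =ᶠ[𝓝 z] fun w => Matrix.of fun i j => deriv (fun w => S w i j) w := by
    filter_upwards [hS] with w hw
    exact mdz_holo hw
  have hmS0 : ∀ a b, DifferentiableAt ℂ (fun w => mdz S w a b) z := by
    intro a b
    refine (hSh a b).congr_of_eventuallyEq ?_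
    filter_upwards [hmS] with w hw
    rw [hw]; rfl
  have hmSD : UN1_D (mdz S) z := fun a b => (hmS0 a b).restrictScalars ℝ
  have hAS := UN1_D_mul hA hSD
  have hSA := UN1_D_mul hSD hA
  have hadd : UN1_D (fun w => mdz S w + conn H w * S w) z := fun a b => (hmSD a b).add (hAS a b)
  have hcov : UN1_D (cov H S) z := UN1_D_sub hadd hSA
  have hcovd : mdzb (cov H S) z = R * S z - S z * R := by
    have e2 : mdzb (cov H S) z = mdzb (mdz S) z + UN1_md Complex.I (fun w => conn H w * S w) z -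
        UN1_md Complex.I (fun w => S w * conn H w) z := by
      have e3 : mdzb (cov H S) z = UN1_md Complex.I (fun w => (mdz S w + conn H w * S w) -
        S w * conn H w) z := rfl
      rw [e3, UN1_md_sub _ hadd hSA]
      congr 1
      ext i j
      have e4 := fderiv_fun_add (hmSD i j) (hAS i j)
      simp only [UN1_md, UN1_dd, mdzb, dzb, Matrix.of_apply, Matrix.add_apply]
      rw [e4]
      simp only [_root_.add_apply]
      ring
    rw [e2, UN1_md_mul _ hA hSD, UN1_md_mul _ hSD hA, ← UN1_mdzb, ← UN1_mdzb, mdzb_holo hmS0,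
      mdzb_holo hSz, hR]
    simp
  rw [UN1_dzb, UN1_dd_congr _ h1, UN1_md_trace _ (UN1_D_mul hcov hT), UN1_md_mul _ hcov hT,
    ← UN1_mdzb, ← UN1_mdzb, hcovd, mdzb_adj hHz hp hSz, Matrix.trace_add,
    ← trace_adj_self hp.self_of_nhds]
  rfl

/-! ### The Laplacian of a logarithm -/

theorem norm_dz_sq {g : ℂ → ℝ} {z : ℂ} (hg : DifferentiableAt ℝ g z) :
    4 * ‖dz (fun w => (g w : ℂ)) z‖ ^ 2 = fderiv ℝ g z 1 ^ 2 + fderiv ℝ g z Complex.I ^ 2 := by
  have h1 : ∀ v : ℂ, fderiv ℝ (fun z => (g z : ℂ)) z v = ((fderiv ℝ g z v : ℝ) : ℂ) := by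
    intro v
    have := (Complex.ofRealCLM.hasFDerivAt.comp z hg.hasFDerivAt).fderiv
    have h3 : fderiv ℝ (fun z => (g z : ℂ)) z = Complex.ofRealCLM.comp (fderiv ℝ g z) := this
    rw [h3]
    simp
  rw [dz, h1, h1, ← Complex.normSq_eq_norm_sq, Complex.normSq_apply]
  simp
  ring

theorem L_log {g : ℂ → ℝ} {z : ℂ} (hg : ContDiffAt ℝ 2 g z) (h0 : 0 < g z) :
    UN2_L (fun w => Real.log (g w)) z = UN2_L g z / g z -
      (fderiv ℝ g z 1 ^ 2 + fderiv ℝ g z Complex.I ^ 2) / g z ^ 2 := by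
  have hev : ∀ᶠ w in 𝓝 z, 0 < g w := hg.continuousAt.eventually (lt_mem_nhds h0)
  have key : ∀ v : ℂ, fderiv ℝ (fun w => fderiv ℝ (fun w => Real.log (g w)) w v) z v =
      fderiv ℝ (fun w => fderiv ℝ g w v) z v / g z - fderiv ℝ g z v ^ 2 / g z ^ 2 := by
    intro v
    have e1 : (fun w => fderiv ℝ (fun w => Real.log (g w)) w v) =ᶠ[𝓝 z]
        fun w => fderiv ℝ g w v * (g w)⁻¹ := by
      filter_upwards [UN2_ev hg, hev] with w hw hw0
      have h1 := (hw.hasFDerivAt.log hw0.ne').fderiv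
      rw [h1]
      simp
      ring
    rw [e1.fderiv_eq]
    have hgd : DifferentiableAt ℝ g z := (UN2_ev hg).self_of_nhds
    have h2 : HasFDerivAt (fun w => (g w)⁻¹) (-(g z ^ 2)⁻¹ • fderiv ℝ g z) z := by
      have := (hasDerivAt_inv h0.ne').comp_hasFDerivAt z hgd.hasFDerivAt
      exact this
    have h3 := ((UN2_dd hg v).hasFDerivAt.mul h2).fderiv
    have h4 : fderiv ℝ (fun w => fderiv ℝ g w v * (g w)⁻¹) z = _ := h3
    rw [h4]
    simp
    field_simp
    ring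
  unfold UN2_L
  rw [key 1, key Complex.I]
  ring

/-- **Bochner inequality** -/
theorem bochner {H P S : ℂ → M3} {z : ℂ} (hp : ∀ᶠ w in 𝓝 z, (H w).PosDef)
    (hC : ∀ a b, ContDiffAt ℝ 2 (fun w => H w a b) z)
    (hS : ∀ᶠ w in 𝓝 z, ∀ a b, DifferentiableAt ℂ (fun w => S w a b) w)
    (hcomm : P z * S z = S z * P z) (hS0 : S z ≠ 0)
    (hH : mdzb (fun w => (H w)⁻¹ * mdz H w) z =
      P z * adj (H z) (P z) - adj (H z) (P z) * P z) :
    ContDiffAt ℝ 2 (fun w => nrm (H w) (S w)) z ∧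
    4 * nrm (H z) (adj (H z) (P z) * S z - S z * adj (H z) (P z)) / nrm (H z) (S z) ≤
      UN2_L (fun w => Real.log (nrm (H w) (S w))) z := by
  have hd : ∀ᶠ w in 𝓝 z, (H w).det ≠ 0 := hp.mono fun w hw => ne_of_gt hw.det_pos
  have hpz := hp.self_of_nhds
  have hSz := hS.self_of_nhds
  -- smoothness
  have hSc : ∀ a b, ContDiffAt ℝ 2 (fun w => S w a b) z := by
    intro a b
    have h2 : ∀ᶠ w in 𝓝 z, DifferentiableAt ℂ (fun w => S w a b) w := hS.mono fun w hw => hw a b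
    have h3 := (Complex.analyticAt_iff_eventually_differentiableAt.2 h2)
    exact (h3.contDiffAt (n := 2)).restrict_scalars ℝ
  have hdet : ContDiffAt ℝ 2 (fun w => (H w).det) z := by
    simp only [Matrix.det_fin_three]
    have h00 := hC 0 0
    have h01 := hC 0 1
    have h02 := hC 0 2
    have h10 := hC 1 0
    have h11 := hC 1 1
    have h12 := hC 1 2
    have h20 := hC 2 0
    have h21 := hC 2 1
    have h22 := hC 2 2
    fun_prop
  have hinv : ∀ a b, ContDiffAt ℝ 2 (fun w => (H w)⁻¹ a b) z := by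
    intro a b
    have h1 : ∀ w, (H w)⁻¹ a b = ((H w).det)⁻¹ * (H w).adjugate a b := by
      intro w
      rw [Matrix.inv_def, Matrix.smul_apply, Ring.inverse_eq_inv', smul_eq_mul]
    simp only [h1]
    refine (hdet.inv hd.self_of_nhds).mul ?_
    have h00 := hC 0 0
    have h01 := hC 0 1
    have h02 := hC 0 2
    have h10 := hC 1 0
    have h11 := hC 1 1
    have h12 := hC 1 2
    have h20 := hC 2 0
    have h21 := hC 2 1
    have h22 := hC 2 2
    simp only [Matrix.adjugate_fin_three]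
    fin_cases a <;> fin_cases b <;> simp <;> fun_prop
  have hgC : ContDiffAt ℝ 2 (fun w => nrm (H w) (S w)) z := by
    have e1 : (fun w => nrm (H w) (S w)) = fun w => (∑ a, ∑ b, S w a b *
        (∑ c, (∑ d, (H w)⁻¹ b d * star (S w c d)) * H w c a)).re := by
      funext w
      rw [nrm, Matrix.trace]
      congr 1
    rw [e1]
    have e2 : ContDiffAt ℝ 2 (fun w => (∑ a, ∑ b, S w a b *
        (∑ c, (∑ d, (H w)⁻¹ b d * star (S w c d)) * H w c a))) z := by
      refine ContDiffAt.sum fun a _ => ContDiffAt.sum fun b _ => (hSc a b).mul ?_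
      refine ContDiffAt.sum fun c _ => ContDiffAt.mul ?_ (hC c a)
      refine ContDiffAt.sum fun d _ => (hinv b d).mul ?_
      exact ((Complex.conjCLE : ℂ →L[ℝ] ℂ).contDiff.contDiffAt).comp z (hSc c d)
    exact (Complex.reCLM.contDiff.contDiffAt).comp z e2
  refine ⟨hgC, ?_⟩
  have hg0 : 0 < nrm (H z) (S z) := nrm_pos hpz hS0
  rw [L_log hgC hg0]
  have hgd : DifferentiableAt ℝ (fun w => nrm (H w) (S w)) z := (UN2_ev hgC).self_of_nhds
  rw [← norm_dz_sq hgd]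
  have e2 : (fun w => ((nrm (H w) (S w) : ℝ) : ℂ)) =ᶠ[𝓝 z]
      fun w => (S w * adj (H w) (S w)).trace := by
    filter_upwards [hp] with w hw
    exact (trace_adj_self hw).symm
  have e3 : dz (fun w => ((nrm (H w) (S w) : ℝ) : ℂ)) z = (cov H S z * adj (H z) (S z)).trace := by
    rw [UN1_dz, UN1_dd_congr _ e2, ← UN1_dz]
    exact dz_trace (ev_of_cda hC).self_of_nhds hd hSz
  have e4 : dzb (dz (fun w => ((nrm (H w) (S w) : ℝ) : ℂ))) z =
      (nrm (H z) (adj (H z) (P z) * S z - S z * adj (H z) (P z)) : ℂ) +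
        (nrm (H z) (cov H S z) : ℂ) := by
    have e5 : dz (fun w => ((nrm (H w) (S w) : ℝ) : ℂ)) =ᶠ[𝓝 z]
        dz (fun w => (S w * adj (H w) (S w)).trace) := by
      filter_upwards [e2.eventuallyEq_nhds] with w hw
      rw [UN1_dz, UN1_dz, UN1_dd_congr _ hw]
    rw [UN1_dzb, UN1_dd_congr _ e5, ← UN1_dzb,
      dzb_dz_trace hp hC hS _ hH, comm_term hpz hcomm]
  have e6 := UN2_levi hgC
  rw [e4] at e6
  have e7 : UN2_L (fun w => nrm (H w) (S w)) z =
      4 * (nrm (H z) (adj (H z) (P z) * S z - S z * adj (H z) (P z)) +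
        nrm (H z) (cov H S z)) := by
    rw [← Complex.ofReal_add, Complex.ofReal_re] at e6
    linarith
  rw [e7, e3]
  have e8 := trace_cs hpz (cov H S z) (S z)
  set a := nrm (H z) (adj (H z) (P z) * S z - S z * adj (H z) (P z))
  set b := nrm (H z) (cov H S z)
  set c := nrm (H z) (S z)
  set d := ‖(cov H S z * adj (H z) (S z)).trace‖ ^ 2
  have e9 : 4 * (a + b) / c - 4 * d / c ^ 2 = 4 * a / c + 4 * (b * c - d) / c ^ 2 := by
    field_simp
    ring
  rw [e9]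
  have : 0 ≤ 4 * (b * c - d) / c ^ 2 := by
    apply div_nonneg _ (by positivity)
    linarith
  linarith

end Pool.Agent.H794
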