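import Pool.Agent.H794.Alg

/-!
# Estimates on discs
-/

set_option autoImplicit false

open scoped Manifold ContDiff Matrix ComplexOrder
open Matrix Topology Set Filter

namespace Pool.Agent.H794

open Pool.Agent.Helper614.HE Pool.Agent.Helper614.HE.P_UN1 Pool.Agent.Helper614.HE.P_UN2

/-- maximum principle -/
theorem max_principle {w : ℂ → ℝ} {x1 : ℂ} {r : ℝ}
    (hc : ContinuousOn w (Metric.closedBall x1 r))
    (hbd : ∀ x, ‖x - x1‖ = r → w x ≤ 0)
    (hin : ∀ x, ‖x - x1‖ < r → 0 < w x → ContDiffAt ℝ 2 w x ∧ 0 < UN2_L w x) :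
    ∀ x, ‖x - x1‖ ≤ r → w x ≤ 0 := by
  intro x hx
  by_contra hcon
  push Not at hcon
  have hxm : x ∈ Metric.closedBall x1 r := by
    rw [Metric.mem_closedBall, dist_eq_norm]; exact hx
  obtain ⟨x2, hx2, hmax⟩ := (isCompact_closedBall x1 r).exists_isMaxOn ⟨x, hxm⟩ hc
  have h1 : 0 < w x2 := lt_of_lt_of_le hcon (hmax hxm)
  have h2 : ‖x2 - x1‖ ≤ r := by
    rwa [Metric.mem_closedBall, dist_eq_norm] at hx2
  rcases h2.eq_or_lt with h3 | h3
  · have := hbd x2 h3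
    linarith
  · obtain ⟨h4, h5⟩ := hin x2 h3 h1
    have hloc : IsLocalMax w x2 := by
      have : Metric.closedBall x1 r ∈ 𝓝 x2 := by
        refine Filter.mem_of_superset (Metric.isOpen_ball.mem_nhds (x := x2) ?_)
          Metric.ball_subset_closedBall
        rw [Metric.mem_ball, dist_eq_norm]; exact h3
      exact hmax.isLocalMax this
    have := UN2_max h4 hloc
    linarith

/-- the square of the distance -/
def qq (c w : ℂ) : ℝ := (w.re - c.re) ^ 2 + (w.im - c.im) ^ 2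

theorem qq_eq (c w : ℂ) : qq c w = ‖w - c‖ ^ 2 := UN2_norm w c

theorem qq_fd (c w : ℂ) : HasFDerivAt (qq c)
    ((2 * (w.re - c.re)) • Complex.reCLM + (2 * (w.im - c.im)) • Complex.imCLM) w := by
  have h1 : HasFDerivAt (fun w : ℂ => w.re - c.re) Complex.reCLM w :=
    Complex.reCLM.hasFDerivAt.sub_const c.re
  have h2 : HasFDerivAt (fun w : ℂ => w.im - c.im) Complex.imCLM w :=
    Complex.imCLM.hasFDerivAt.sub_const c.im
  have h3 := (h1.pow 2).add (h2.pow 2)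
  unfold qq
  refine h3.congr_fderiv ?_
  ext v
  simp

theorem qq_cd (c : ℂ) : ContDiff ℝ 2 (qq c) := by
  unfold qq
  have h1 : ContDiff ℝ 2 (fun w : ℂ => w.re) := Complex.reCLM.contDiff
  have h2 : ContDiff ℝ 2 (fun w : ℂ => w.im) := Complex.imCLM.contDiff
  fun_prop

theorem qq_L (c z : ℂ) : UN2_L (qq c) z = 4 := by
  unfold UN2_L
  have e1 : (fun w => fderiv ℝ (qq c) w 1) = fun w => 2 * (w.re - c.re) := by
    funext w; rw [(qq_fd c w).fderiv]; simp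
  have e2 : (fun w => fderiv ℝ (qq c) w Complex.I) = fun w => 2 * (w.im - c.im) := by
    funext w; rw [(qq_fd c w).fderiv]; simp
  rw [e1, e2]
  have h1 : HasFDerivAt (fun w : ℂ => 2 * (w.re - c.re)) ((2 : ℝ) • Complex.reCLM) z :=
    (Complex.reCLM.hasFDerivAt.sub_const c.re).const_mul 2
  have h2 : HasFDerivAt (fun w : ℂ => 2 * (w.im - c.im)) ((2 : ℝ) • Complex.imCLM) z :=
    (Complex.imCLM.hasFDerivAt.sub_const c.im).const_mul 2
  rw [h1.fderiv, h2.fderiv]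
  simp
  norm_num

theorem qq_grad (c z : ℂ) : fderiv ℝ (qq c) z 1 ^ 2 + fderiv ℝ (qq c) z Complex.I ^ 2 =
    4 * qq c z := by
  rw [(qq_fd c z).fderiv]
  simp [qq]
  ring

/-- Laplacian of a composition -/
theorem L_comp {g : ℂ → ℝ} {z : ℂ} (hg : ContDiffAt ℝ 2 g z) {G G' : ℝ → ℝ} {G'' : ℝ}
    (h1 : ∀ᶠ t in 𝓝 (g z), HasDerivAt G (G' t) t) (h2 : HasDerivAt G' G'' (g z)) :
    UN2_L (fun w => G (g w)) z =
      G'' * (fderiv ℝ g z 1 ^ 2 + fderiv ℝ g z Complex.I ^ 2) + G' (g z) * UN2_L g z := by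
  have key : ∀ v : ℂ, fderiv ℝ (fun w => fderiv ℝ (fun w => G (g w)) w v) z v =
      G'' * fderiv ℝ g z v ^ 2 + G' (g z) * fderiv ℝ (fun w => fderiv ℝ g w v) z v := by
    intro v
    have e1 : (fun w => fderiv ℝ (fun w => G (g w)) w v) =ᶠ[𝓝 z]
        fun w => G' (g w) * fderiv ℝ g w v := by
      filter_upwards [UN2_ev hg, hg.continuousAt.eventually h1] with w hw hw1
      have h3 : HasFDerivAt (fun w => G (g w)) (G' (g w) • fderiv ℝ g w) w :=
        hw1.comp_hasFDerivAt w hw.hasFDerivAt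
      rw [h3.fderiv]
      simp
    rw [e1.fderiv_eq]
    have hgd : DifferentiableAt ℝ g z := (UN2_ev hg).self_of_nhds
    have h4 : HasFDerivAt (fun w => G' (g w)) (G'' • fderiv ℝ g z) z :=
      h2.comp_hasFDerivAt z hgd.hasFDerivAt
    have h5 := (h4.mul (UN2_dd hg v).hasFDerivAt).fderiv
    have h6 : fderiv ℝ (fun w => G' (g w) * fderiv ℝ g w v) z = _ := h5
    rw [h6]
    simp
    ring
  unfold UN2_L
  rw [key 1, key Complex.I]
  ring

theorem L_exp {g : ℂ → ℝ} {z : ℂ} (hg : ContDiffAt ℝ 2 g z) :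
    UN2_L (fun w => Real.exp (g w)) z = Real.exp (g z) *
      (fderiv ℝ g z 1 ^ 2 + fderiv ℝ g z Complex.I ^ 2 + UN2_L g z) := by
  rw [L_comp hg (G := Real.exp) (G' := Real.exp) (G'' := Real.exp (g z))
    (Filter.Eventually.of_forall fun t => Real.hasDerivAt_exp t) (Real.hasDerivAt_exp _)]
  ring

/-- Laplacian of `log (a + b q)` -/
theorem L_logq {c z : ℂ} {a b : ℝ} (h : 0 < a + b * qq c z) :
    ContDiffAt ℝ 2 (fun w => Real.log (a + b * qq c w)) z ∧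
    UN2_L (fun w => Real.log (a + b * qq c w)) z = 4 * a * b / (a + b * qq c z) ^ 2 ∧
    fderiv ℝ (fun w => Real.log (a + b * qq c w)) z 1 ^ 2 +
      fderiv ℝ (fun w => Real.log (a + b * qq c w)) z Complex.I ^ 2 =
        4 * b ^ 2 * qq c z / (a + b * qq c z) ^ 2 := by
  have hg : ContDiffAt ℝ 2 (fun w => a + b * qq c w) z :=
    contDiffAt_const.add (contDiffAt_const.mul (qq_cd c).contDiffAt)
  have hfd : HasFDerivAt (fun w => a + b * qq c w) (b • fderiv ℝ (qq c) z) z :=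
    (((qq_fd c z).differentiableAt.hasFDerivAt).const_mul b).const_add a
  have hL : UN2_L (fun w => a + b * qq c w) z = 4 * b := by
    have h1 := UN2_L_add (g := fun _ => a) (b := qq c) (z := z) contDiffAt_const
      (qq_cd c).contDiffAt b
    rw [h1, qq_L]
    have : UN2_L (fun _ => a) z = 0 := by
      unfold UN2_L
      simp
    rw [this]; ring
  refine ⟨hg.log h.ne', ?_, ?_⟩
  · rw [L_log hg h, hL, hfd.fderiv]
    have h2 := qq_grad c z
    simp only [_root_.smul_apply, smul_eq_mul, mul_pow]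
    have h3 : b ^ 2 * fderiv ℝ (qq c) z 1 ^ 2 + b ^ 2 * fderiv ℝ (qq c) z Complex.I ^ 2 =
        b ^ 2 * (4 * qq c z) := by rw [← h2]; ring
    rw [h3]
    field_simp
    ring
  · have h4 : HasFDerivAt (fun w => Real.log (a + b * qq c w)) ((a + b * qq c z)⁻¹ •
        (b • fderiv ℝ (qq c) z)) z := hfd.log h.ne'
    rw [h4.fderiv]
    have h2 := qq_grad c z
    simp only [_root_.smul_apply, smul_eq_mul, mul_pow]
    have h3 : (a + b * qq c z)⁻¹ ^ 2 * (b ^ 2 * fderiv ℝ (qq c) z 1 ^ 2) +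
        (a + b * qq c z)⁻¹ ^ 2 * (b ^ 2 * fderiv ℝ (qq c) z Complex.I ^ 2) =
        (a + b * qq c z)⁻¹ ^ 2 * (b ^ 2 * (4 * qq c z)) := by rw [← h2]; ring
    rw [h3]
    field_simp

/-! ### The Higgs field -/

/-- the Higgs field in the rescaled coordinate -/
noncomputable def Ph (c : ℝ) (x : ℂ) : M3 :=
  !![0, 4 / 3 * x ^ 2 - c, 2 / 3 * x * (c - 8 / 9 * x ^ 2); 1, 0, 0; 0, 1, 0]

/-- the Higgs field minus the eigenvalue -/
noncomputable def Bh (c : ℝ) (x : ℂ) : M3 := Ph c x - (2 / 3 * x) • (1 : M3)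

/-- the projection -/
noncomputable def pih (c : ℝ) (x : ℂ) : M3 :=
  (c : ℂ)⁻¹ • !![(2 / 3 * x) ^ 2, (2 / 3 * x) ^ 3, (2 / 3 * x) ^ 2 * (c - 8 / 9 * x ^ 2);
    2 / 3 * x, (2 / 3 * x) ^ 2, 2 / 3 * x * (c - 8 / 9 * x ^ 2);
    1, 2 / 3 * x, c - 8 / 9 * x ^ 2]

theorem pih_rank {c : ℝ} {x : ℂ} : pih c x =
    Matrix.vecMulVec ((c : ℂ)⁻¹ • ![(2 / 3 * x) ^ 2, 2 / 3 * x, 1])
      ![1, 2 / 3 * x, c - 8 / 9 * x ^ 2] := by
  ext i j
  fin_cases i <;> fin_cases j <;>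
  · simp [pih, Matrix.vecMulVec]
    try ring

theorem Bh_eq (c : ℝ) (x : ℂ) : Bh c x = !![-(2 / 3 * x), 4 / 3 * x ^ 2 - c,
    2 / 3 * x * (c - 8 / 9 * x ^ 2); 1, -(2 / 3 * x), 0; 0, 1, -(2 / 3 * x)] := by
  ext i j
  fin_cases i <;> fin_cases j <;> simp [Bh, Ph]

theorem vmv_rank (u v : Fin 3 → ℂ) (M : M3) :
    Matrix.vecMulVec u v * M * Matrix.vecMulVec u v =
      (M * Matrix.vecMulVec u v).trace • Matrix.vecMulVec u v := by
  rw [Matrix.vecMulVec_mul, Matrix.vecMulVec_mul_vecMulVec, Matrix.mul_vecMulVec,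
    Matrix.trace_vecMulVec]
  ext i j
  simp only [Matrix.smul_apply, Matrix.vecMulVec_apply, smul_eq_mul, Pi.smul_apply]
  have : v ᵥ* M ⬝ᵥ u = M *ᵥ u ⬝ᵥ v := by
    rw [← Matrix.dotProduct_mulVec, dotProduct_comm]
  rw [this]
  try ring

theorem pih_prop {c : ℝ} (hc : c ≠ 0) (x : ℂ) :
    Bh c x * pih c x = 0 ∧ pih c x * Bh c x = 0 ∧
    (∀ M : M3, pih c x * M * pih c x = (M * pih c x).trace • pih c x) ∧ (pih c x).trace = 1 ∧
    (Bh c x).adjugate = (c : ℂ) • pih c x := by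
  have hc' : (c : ℂ) ≠ 0 := by exact_mod_cast hc
  refine ⟨?_, ?_, ?_, ?_, ?_⟩
  · rw [pih, Matrix.mul_smul, Bh_eq, Matrix.mul_fin_three]
    ext i j
    fin_cases i <;> fin_cases j <;>
    · simp
      try right
      try ring
  · rw [pih, Matrix.smul_mul, Bh_eq, Matrix.mul_fin_three]
    ext i j
    fin_cases i <;> fin_cases j <;>
    · simp
      try right
      try ring
  · intro M
    rw [pih_rank]
    exact vmv_rank _ _ M
  · rw [pih, Matrix.trace_smul, Matrix.trace, Fin.sum_univ_three]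
    simp
    field_simp
    ring
  · rw [pih, smul_smul, mul_inv_cancel₀ hc', one_smul, Matrix.adjugate_fin_three, Bh_eq]
    ext i j
    fin_cases i <;> fin_cases j <;>
    · simp
      try ring

theorem Ph_trace (c : ℝ) (x : ℂ) : (Ph c x).trace = 0 := by
  simp [Ph, Matrix.trace, Fin.sum_univ_three]

theorem Ph_trace_sq (c : ℝ) (x : ℂ) : (Ph c x * Ph c x).trace = 2 * (4 / 3 * x ^ 2 - c) := by
  simp [Ph, Matrix.trace, Fin.sum_univ_three]
  ring

theorem Ph_det (c : ℝ) (x : ℂ) : (Ph c x).det = 2 / 3 * x * (c - 8 / 9 * x ^ 2) := by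
  simp [Ph, Matrix.det_fin_three]

theorem Ph_ne (c : ℝ) (x : ℂ) : Ph c x ≠ 0 := by
  intro h
  have := congrFun (congrFun h 1) 0
  simp [Ph] at this

theorem pih_ne {c : ℝ} (hc : c ≠ 0) (x : ℂ) : pih c x ≠ 0 := by
  intro h
  have := (pih_prop hc x).2.2.2.1
  rw [h] at this
  simp at this

theorem Ph_holo (c : ℝ) (x : ℂ) (a b : Fin 3) : DifferentiableAt ℂ (fun w => Ph c w a b) x := by
  fin_cases a <;> fin_cases b <;> simp [Ph] <;> fun_prop

theorem pih_holo (c : ℝ) (x : ℂ) (a b : Fin 3) : DifferentiableAt ℂ (fun w => pih c w a b) x := by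
  fin_cases a <;> fin_cases b <;> simp [pih] <;> fun_prop

/-- A solution of Hitchin's equation on a disc. -/
structure Sol (R : ℝ) (H : ℂ → M3) (w : ℂ → ℂ) (Φ : ℂ → M3) : Prop where
  pos : ∀ x, ‖x‖ < R → (H x).PosDef
  cd : ∀ x, ‖x‖ < R → ∀ a b, ContDiffAt ℝ 2 (fun y => H y a b) x
  eq : ∀ x, ‖x‖ < R → mdzb (fun y => (H y)⁻¹ * mdz H y) x =
    (w x • Φ x) * adj (H x) (w x • Φ x) - adj (H x) (w x • Φ x) * (w x • Φ x)
  wl : ∀ x, ‖x‖ < R → 1 / 2 ≤ ‖w x‖ ^ 2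

theorem adj_smul (H : M3) (a : ℂ) (X : M3) : adj H (a • X) = star a • adj H X := by
  rw [adj, adj, Matrix.conjTranspose_smul, Matrix.mul_smul, Matrix.smul_mul]

theorem nrm_smul {H : M3} (hH : H.PosDef) (a : ℂ) (X : M3) :
    nrm H (a • X) = ‖a‖ ^ 2 * nrm H X := by
  obtain ⟨B, hB, h0⟩ := UN1_fact hH
  rw [nrm_eq hB h0, nrm_eq hB h0, Matrix.mul_smul, Matrix.smul_mul, fro_smul]

theorem nrm_sub_le {H : M3} (hH : H.PosDef) (X Y : M3) :
    nrm H (X - Y) ≤ 2 * nrm H X + 2 * nrm H Y := by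
  obtain ⟨B, hB, h0⟩ := UN1_fact hH
  rw [nrm_eq hB h0, nrm_eq hB h0, nrm_eq hB h0, Matrix.mul_sub, Matrix.sub_mul]
  exact fro_sub_le _ _

theorem nrm_one {H : M3} (hH : H.PosDef) : nrm H 1 = 3 := by
  obtain ⟨B, hB, h0⟩ := UN1_fact hH
  rw [nrm_eq hB h0, Matrix.mul_one, Matrix.mul_nonsing_inv _ (isUnit_iff_ne_zero.mpr h0), fro_one]

/-- the commutator term, conjugated -/
theorem nrm_comm {H B : M3} (hB : H = Bᴴ * B) (h0 : B.det ≠ 0) (X Y : M3) :
    nrm H (adj H X * Y - Y * adj H X) =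
      fro ((B * X * B⁻¹)ᴴ * (B * Y * B⁻¹) - (B * Y * B⁻¹) * (B * X * B⁻¹)ᴴ) := by
  rw [nrm_eq hB h0, Matrix.mul_sub, Matrix.sub_mul, conj_mul h0, conj_mul h0, conj_adj hB h0]

theorem henrici_nrm {δ : ℝ} (hδ : ∀ A : M3, A.trace = 0 → ‖(A * A).trace‖ ≤ 1 / 10 * fro A →
    ‖A.det‖ ^ 2 ≤ 1 / 100 * fro A ^ 3 → δ * fro A ^ 2 ≤ fro (Aᴴ * A - A * Aᴴ))
    {H : M3} (hH : H.PosDef) {X : M3} (h1 : X.trace = 0)
    (h2 : ‖(X * X).trace‖ ≤ 1 / 10 * nrm H X) (h3 : ‖X.det‖ ^ 2 ≤ 1 / 100 * nrm H X ^ 3) :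
    δ * nrm H X ^ 2 ≤ nrm H (adj H X * X - X * adj H X) := by
  obtain ⟨B, hB, h0⟩ := UN1_fact hH
  rw [nrm_comm hB h0]
  rw [nrm_eq hB h0] at h2 h3 ⊢
  refine hδ _ ?_ ?_ ?_
  · rw [trace_conj h0, h1]
  · rw [← conj_mul h0, trace_conj h0]; exact h2
  · have hu : IsUnit B.det := isUnit_iff_ne_zero.mpr h0
    rw [Matrix.det_mul, Matrix.det_mul, Matrix.det_nonsing_inv, Ring.inverse_eq_inv',
      mul_comm B.det, mul_assoc, mul_inv_cancel₀ h0, mul_one]
    exact h3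

theorem block_nrm {H : M3} (hH : H.PosDef) {c : ℝ} (hc : c ≠ 0) (x : ℂ) :
    1 ≤ nrm H (pih c x) ∧ c ^ 2 * nrm H (pih c x) * (nrm H (pih c x) - 1) ≤
      nrm H (Bh c x) * nrm H (adj H (Bh c x) * pih c x - pih c x * adj H (Bh c x)) ∧
      c ^ 2 * nrm H (pih c x) ≤ nrm H (Bh c x) ^ 2 / 2 := by
  obtain ⟨B, hB, h0⟩ := UN1_fact hH
  have hu : IsUnit B.det := isUnit_iff_ne_zero.mpr h0
  obtain ⟨p1, p2, p3, p4, p5⟩ := pih_prop hc x
  rw [nrm_comm hB h0, nrm_eq hB h0, nrm_eq hB h0]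
  have hinv : B⁻¹ * B = 1 := Matrix.nonsing_inv_mul _ hu
  have key := block_lemma (π := B * pih c x * B⁻¹) (B := B * Bh c x * B⁻¹) (c := (c : ℂ))
    (by rw [← conj_mul h0, p1]; simp) (by rw [← conj_mul h0, p2]; simp)
    (by
      intro M
      have e1 : B * pih c x * B⁻¹ * M * (B * pih c x * B⁻¹) =
          B * (pih c x * (B⁻¹ * M * B) * pih c x) * B⁻¹ := by simp only [Matrix.mul_assoc]
      have e2 : ((B⁻¹ * M * B) * pih c x).trace = (M * (B * pih c x * B⁻¹)).trace := by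
        have : (B⁻¹ * M * B) * pih c x = B⁻¹ * (M * B * pih c x) := by
          simp only [Matrix.mul_assoc]
        rw [this, Matrix.trace_mul_comm]
        simp only [Matrix.mul_assoc]
      rw [e1, p3, e2, Matrix.mul_smul, Matrix.smul_mul])
    (by rw [trace_conj h0, p4])
    (by
      rw [Matrix.adjugate_mul_distrib, Matrix.adjugate_mul_distrib, p5]
      have e3 : B.adjugate = B.det • B⁻¹ := by
        rw [Matrix.inv_def, smul_smul, Ring.mul_inverse_cancel _ hu, one_smul]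
      have e4 : B⁻¹.adjugate = B.det⁻¹ • B := by
        have e5 : (B⁻¹).adjugate = (B⁻¹).det • (B⁻¹)⁻¹ := by
          have hu' : IsUnit (B⁻¹).det := Matrix.isUnit_nonsing_inv_det _ hu
          rw [Matrix.inv_def B⁻¹, smul_smul, Ring.mul_inverse_cancel _ hu', one_smul]
        rw [e5, Matrix.nonsing_inv_nonsing_inv _ hu, Matrix.det_nonsing_inv,
          Ring.inverse_eq_inv']
      rw [e3, e4]
      simp only [Matrix.smul_mul, Matrix.mul_smul, smul_smul, Matrix.mul_assoc]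
      congr 1
      field_simp)
  rwa [Complex.norm_real, Real.norm_eq_abs, sq_abs] at key

end Pool.Agent.H794
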