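import Pool.Agent.H794.Sect

/-!
# The lower bound of the energy density of the direct sum
-/

set_option autoImplicit false

open scoped Manifold ContDiff Matrix ComplexOrder
open Matrix Topology Set Filter

namespace Pool.Agent.H794

open Pool.Agent.Helper614.HE Pool.Agent.Helper614.HE.P_UN1 Pool.Agent.Helper614.HE.P_UN2

theorem fderiv_coe {g : ℂ → ℝ} {z : ℂ} (hg : DifferentiableAt ℝ g z) (v : ℂ) :
    fderiv ℝ (fun w => (g w : ℂ)) z v = ((fderiv ℝ g z v : ℝ) : ℂ) := by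
  have := (Complex.ofRealCLM.hasFDerivAt.comp z hg.hasFDerivAt).fderiv
  have h3 : fderiv ℝ (fun z => (g z : ℂ)) z = Complex.ofRealCLM.comp (fderiv ℝ g z) := this
  rw [h3]
  simp

theorem dz_log {A : ℂ → ℝ} {z : ℂ} (hA : DifferentiableAt ℝ A z) (h0 : 0 < A z) :
    dz (fun w => ((Real.log (A w) : ℝ) : ℂ)) z = (A z : ℂ)⁻¹ * dz (fun w => (A w : ℂ)) z := by
  have h1 : HasFDerivAt (fun w => Real.log (A w)) ((A z)⁻¹ • fderiv ℝ A z) z :=
    hA.hasFDerivAt.log h0.ne'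
  rw [dz, dz, fderiv_coe h1.differentiableAt, fderiv_coe h1.differentiableAt, fderiv_coe hA,
    fderiv_coe hA, h1.fderiv]
  simp only [_root_.smul_apply, smul_eq_mul]
  push_cast
  ring

theorem dz_zero {f : ℂ → ℂ} {z : ℂ} (h : f =ᶠ[𝓝 z] fun _ => 0) : dz f z = 0 := by
  unfold dz
  rw [h.fderiv_eq]
  simp

/-- the equation for diagonal metrics -/
theorem diag_hit {H : ℂ → M3} {P : M3} {z : ℂ} (h : Hit H P z)
    (hC : ∀ a b, ContDiffAt ℝ 2 (fun w => H w a b) z)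
    (hpos : ∀ᶠ w in 𝓝 z, (H w).PosDef)
    (hd : ∀ᶠ w in 𝓝 z, ∀ a b, a ≠ b → H w a b = 0) (k : Fin 3) :
    ContDiffAt ℝ 2 (fun w => Real.log (H w k k).re) z ∧
    UN2_L (fun w => Real.log (H w k k).re) z =
      4 * ((P * adj (H z) P - adj (H z) P * P) k k).re := by
  have hAC : ContDiffAt ℝ 2 (fun w => (H w k k).re) z :=
    (Complex.reCLM.contDiff.contDiffAt).comp z (hC k k)
  have hA0 : ∀ᶠ w in 𝓝 z, 0 < (H w k k).re := by
    filter_upwards [hpos] with w hw
    exact (Complex.lt_def.mp (hw.diag_pos (i := k))).1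
  have hreal : ∀ᶠ w in 𝓝 z, H w k k = (((H w k k).re : ℝ) : ℂ) := by
    filter_upwards [hpos] with w hw
    have := (Complex.lt_def.mp (hw.diag_pos (i := k))).2
    apply Complex.ext
    · simp
    · simp only [Complex.zero_im] at this
      simp [← this]
  have hlC : ContDiffAt ℝ 2 (fun w => Real.log (H w k k).re) z :=
    hAC.log hA0.self_of_nhds.ne'
  refine ⟨hlC, ?_⟩
  have h1 := UN2_levi hlC
  have h2 : dz (fun w => ((Real.log (H w k k).re : ℝ) : ℂ)) =ᶠ[𝓝 z]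
      fun w => ((H w)⁻¹ * mdz H w) k k := by
    filter_upwards [hA0, UN2_ev hAC, hd.eventually_nhds, hreal.eventually_nhds, hpos]
      with w b1 b2 b3 b4 b5
    rw [dz_log b2 b1]
    have hdiag : H w = Matrix.diagonal (fun i => H w i i) := by
      ext a b
      by_cases hab : a = b
      · subst hab; simp
      · rw [Matrix.diagonal_apply_ne _ hab]
        exact b3.self_of_nhds a b hab
    have hinv : (H w)⁻¹ = Matrix.diagonal (fun i => (H w i i)⁻¹) := by
      apply Matrix.inv_eq_left_inv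
      rw [hdiag, Matrix.diagonal_mul_diagonal, ← Matrix.diagonal_one]
      congr 1
      funext i
      simp only [Matrix.diagonal_apply_eq]
      exact inv_mul_cancel₀ (b5.diag_pos (i := i)).ne'
    rw [hinv, Matrix.diagonal_mul]
    have e1 : mdz H w k k = dz (fun w => ((H w k k).re : ℂ)) w := by
      show dz (fun w => H w k k) w = _
      exact P_UNQ.UNQ_dz_congr b4
    have e2 : (((H w k k).re : ℝ) : ℂ) = H w k k := b4.self_of_nhds.symm
    rw [e1, e2]
  have h3 : dzb (dz (fun w => ((Real.log (H w k k).re : ℝ) : ℂ))) z =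
      (P * adj (H z) P - adj (H z) P * P) k k := by
    rw [P_UNQ.UNQ_dzb_congr h2]
    exact congrFun (congrFun h k) k
  rw [h3] at h1
  linarith

/-- the block matrix in the coordinate of the disc -/
noncomputable def blx (c : ℝ) (x : ℂ) : M3 :=
  !![-(x / 3), x ^ 2 - c, 0; 1, -(x / 3), 0; 0, 0, 2 / 3 * x]

theorem blx_eq (r c : ℝ) (v : ℂ) : blk r c false v = blx c (r * v) := by
  simp [blk, blx]

/-- the commutator for diagonal metrics -/
theorem diag_comm {c : ℝ} {x w a0 a1 a2 : ℂ} {H : M3} (hH : H = Matrix.diagonal ![a0, a1, a2])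
    (h0 : a0 ≠ 0) (h1 : a1 ≠ 0) (h2 : a2 ≠ 0) :
    ((w • blx c x) * adj H (w • blx c x) - adj H (w • blx c x) * (w • blx c x)) 0 0 =
      (w * star w) * ((x ^ 2 - c) * star (x ^ 2 - c) * (a0 / a1) - a1 / a0) ∧
    ((w • blx c x) * adj H (w • blx c x) - adj H (w • blx c x) * (w • blx c x)) 1 1 =
      (w * star w) * (a1 / a0 - (x ^ 2 - c) * star (x ^ 2 - c) * (a0 / a1)) := by
  have hinv : H⁻¹ = Matrix.diagonal ![a0⁻¹, a1⁻¹, a2⁻¹] := by
    apply Matrix.inv_eq_left_inv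
    rw [hH, Matrix.diagonal_mul_diagonal, ← Matrix.diagonal_one]
    congr 1
    funext i
    fin_cases i <;> simp [h0, h1, h2]
  have hadj : adj H (w • blx c x) = Matrix.of fun a b =>
      (![a0⁻¹, a1⁻¹, a2⁻¹] : Fin 3 → ℂ) a * star ((w • blx c x) b a) * (![a0, a1, a2] : Fin 3 → ℂ) b := by
    ext a b
    rw [adj, hinv, hH, Matrix.mul_diagonal, Matrix.diagonal_mul, Matrix.conjTranspose_apply,
      Matrix.of_apply]
  rw [hadj]
  constructor
  · rw [Matrix.sub_apply, Matrix.mul_apply, Matrix.mul_apply, Fin.sum_univ_three,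
      Fin.sum_univ_three]
    simp [blx]
    field_simp
    ring
  · rw [Matrix.sub_apply, Matrix.mul_apply, Matrix.mul_apply, Fin.sum_univ_three,
      Fin.sum_univ_three]
    simp [blx]
    field_simp
    ring

theorem diag_nrm {c : ℝ} {a0 a1 a2 : ℂ} {H : M3} (hH : H = Matrix.diagonal ![a0, a1, a2])
    (h0 : a0 ≠ 0) (h1 : a1 ≠ 0) (h2 : a2 ≠ 0) :
    (blx c 0 * adj H (blx c 0)).trace = a1 / a0 + c ^ 2 * (a0 / a1) := by
  have hinv : H⁻¹ = Matrix.diagonal ![a0⁻¹, a1⁻¹, a2⁻¹] := by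
    apply Matrix.inv_eq_left_inv
    rw [hH, Matrix.diagonal_mul_diagonal, ← Matrix.diagonal_one]
    congr 1
    funext i
    fin_cases i <;> simp [h0, h1, h2]
  have hadj : adj H (blx c 0) = Matrix.of fun a b =>
      (![a0⁻¹, a1⁻¹, a2⁻¹] : Fin 3 → ℂ) a * star ((blx c 0) b a) * (![a0, a1, a2] : Fin 3 → ℂ) b := by
    ext a b
    rw [adj, hinv, hH, Matrix.mul_diagonal, Matrix.diagonal_mul, Matrix.conjTranspose_apply,
      Matrix.of_apply]
  rw [hadj, Matrix.trace, Fin.sum_univ_three]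
  simp only [Matrix.diag_apply, Matrix.mul_apply, Fin.sum_univ_three]
  simp [blx]
  field_simp
  ring

section

variable [ChartedSpace ℂ (SX 4)] {hB : SBasic 4} {hG : SGood 4}

/-- **the lower bound at the centre of the disc** -/
theorem EB_low {r c : ℝ} (hr : 6 < r) (hc0 : 0 < c) (hc : c ≤ 1 / 10) {h : Bool → SX 4 → M3}
    (H : IsHarmonicMetric (EB hB hG r c) 1 h) :
    7 / 64 ≤ nrm (h false (sg r 0)) (blx c 0) := by
  have hr0 : 0 < r := by linarith
  have hφ : ∀ e ∈ atlas ℂ (SX 4), ∀ x ∈ UU 4 false ∩ e.source,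
      (EB hB hG r c).φ false e x = ((r : ℂ) * om 4 false e x) • blx c (r * VV 4 false x) := by
    intro e he x hx
    show ((r : ℂ) * om 4 false e x) • blk r c false (VV 4 false x) = _
    rw [blx_eq]
  set K : ℂ → M3 := fun x => h false (sg r x) with hK
  have hsol : ∀ x : ℂ, ‖x‖ < r → (K x).PosDef ∧ (∀ a b, ContDiffAt ℝ 2 (fun y => K y a b) x) ∧
      Hit K ((yv (x / r) ^ 3)⁻¹ • blx c x) x := fun x hx =>
    disc_sol hB hG (E := EB hB hG r c) (i := false) rfl hr0 hφ H hx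
  have hdiag : ∀ x, K x = Matrix.diagonal ![K x 0 0, K x 1 1, K x 2 2] := fun x =>
    EB_diag hr0.ne' hc0.ne' H false _ (sg_mem r x)
  have hoff : ∀ x, ∀ a b, a ≠ b → K x a b = 0 := by
    intro x a b hab
    rw [hdiag x, Matrix.diagonal_apply_ne _ hab]
  have hcoe : ∀ x : ℂ, ‖x‖ < r → ∀ k, K x k k = (((K x k k).re : ℝ) : ℂ) ∧ 0 < (K x k k).re := by
    intro x hx k
    have h1 := Complex.lt_def.mp ((hsol x hx).1.diag_pos (i := k))
    refine ⟨?_, h1.1⟩
    apply Complex.ext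
    · simp
    · have := h1.2
      simp only [Complex.zero_im] at this
      simp [← this]
  set u : ℂ → ℝ := fun x => Real.log (K x 1 1).re + (-1) * Real.log (K x 0 0).re with hu
  have hpos : ∀ x : ℂ, ‖x‖ < r → ∀ᶠ w in 𝓝 x, (K w).PosDef := by
    intro x hx
    filter_upwards [ball_open_mem hx] with w hw
    exact (hsol w hw).1
  have hd := fun (x : ℂ) (hx : ‖x‖ < r) (k : Fin 3) =>
    diag_hit (hsol x hx).2.2 (hsol x hx).2.1 (hpos x hx)
      (Filter.Eventually.of_forall fun w => hoff w) k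
  have hexp : ∀ x : ℂ, ‖x‖ < r → Real.exp (u x) = (K x 1 1).re / (K x 0 0).re ∧
      Real.exp (-u x) = (K x 0 0).re / (K x 1 1).re := by
    intro x hx
    have h0 := (hcoe x hx 0).2
    have h1 := (hcoe x hx 1).2
    have e1 : u x = Real.log ((K x 1 1).re / (K x 0 0).re) := by
      rw [Real.log_div h1.ne' h0.ne']
      simp only [hu]; ring
    constructor
    · rw [e1, Real.exp_log (by positivity)]
    · rw [e1, Real.exp_neg, Real.exp_log (by positivity), inv_div]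
  have key := scal_bound (c := c) (R := r / 2) (u := u)
    (W := fun x => ‖(yv (x / r) ^ 3)⁻¹‖ ^ 2) hc0 hc (by linarith)
    (by
      intro x hx
      have hx' : ‖x‖ < r := by linarith
      exact (hd x hx' 1).1.add (contDiffAt_const.mul (hd x hx' 0).1))
    (by
      intro x hx
      apply yv_bound
      rw [norm_div, Complex.norm_real, Real.norm_eq_abs, abs_of_pos hr0, div_le_iff₀ hr0]
      linarith)
    (by
      intro x hx
      have hx' : ‖x‖ < r := by linarith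
      have h0 := hcoe x hx' 0
      have h1 := hcoe x hx' 1
      have h2 := hcoe x hx' 2
      rw [UN2_L_add (hd x hx' 1).1 (hd x hx' 0).1, (hd x hx' 1).2, (hd x hx' 0).2]
      obtain ⟨c0, c1⟩ := diag_comm (c := c) (x := x) (w := (yv (x / r) ^ 3)⁻¹) (hdiag x)
        (by rw [h0.1]; exact_mod_cast h0.2.ne') (by rw [h1.1]; exact_mod_cast h1.2.ne')
        (by rw [h2.1]; exact_mod_cast h2.2.ne')
      rw [c0, c1, (hexp x hx').1, (hexp x hx').2]
      have e1 : ∀ a : ℂ, a * star a = ((‖a‖ ^ 2 : ℝ) : ℂ) := by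
        intro a
        rw [Complex.star_def, Complex.mul_conj']
        push_cast; rfl
      rw [e1, e1, h0.1, h1.1]
      set A := (K x 0 0).re
      set B := (K x 1 1).re
      have e2 : ((‖(yv (x / r) ^ 3)⁻¹‖ ^ 2 : ℝ) : ℂ) * ((B : ℂ) / (A : ℂ) -
          ((‖x ^ 2 - (c : ℂ)‖ ^ 2 : ℝ) : ℂ) * ((A : ℂ) / (B : ℂ))) =
          ((‖(yv (x / r) ^ 3)⁻¹‖ ^ 2 * (B / A - ‖x ^ 2 - (c : ℂ)‖ ^ 2 * (A / B)) : ℝ) : ℂ) := by
        push_cast; ring
      have e3 : ((‖(yv (x / r) ^ 3)⁻¹‖ ^ 2 : ℝ) : ℂ) * (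
          ((‖x ^ 2 - (c : ℂ)‖ ^ 2 : ℝ) : ℂ) * ((A : ℂ) / (B : ℂ)) - (B : ℂ) / (A : ℂ)) =
          ((‖(yv (x / r) ^ 3)⁻¹‖ ^ 2 * (‖x ^ 2 - (c : ℂ)‖ ^ 2 * (A / B) - B / A) : ℝ) : ℂ) := by
        push_cast; ring
      rw [e2, e3, Complex.ofReal_re, Complex.ofReal_re]
      simp only [Complex.ofReal_re]
      ring)
  -- the norm at the centre
  have h00 : ‖(0 : ℂ)‖ < r := by simpa using hr0
  have h0 := hcoe 0 h00 0
  have h1 := hcoe 0 h00 1
  have h2 := hcoe 0 h00 2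
  have hn : nrm (K 0) (blx c 0) = (K 0 1 1).re / (K 0 0 0).re +
      c ^ 2 * ((K 0 0 0).re / (K 0 1 1).re) := by
    have n0 : K 0 0 0 ≠ 0 := by rw [h0.1]; exact_mod_cast h0.2.ne'
    have n1 : K 0 1 1 ≠ 0 := by rw [h1.1]; exact_mod_cast h1.2.ne'
    have n2 : K 0 2 2 ≠ 0 := by rw [h2.1]; exact_mod_cast h2.2.ne'
    have e4 : (blx c 0 * adj (K 0) (blx c 0)).trace = K 0 1 1 / K 0 0 0 +
        c ^ 2 * (K 0 0 0 / K 0 1 1) := diag_nrm (hdiag 0) n0 n1 n2
    rw [nrm, e4, h0.1, h1.1]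
    have e5 : (((K 0 1 1).re : ℂ) / ((K 0 0 0).re : ℂ) + (c : ℂ) ^ 2 *
        (((K 0 0 0).re : ℂ) / ((K 0 1 1).re : ℂ))) =
        (((K 0 1 1).re / (K 0 0 0).re + c ^ 2 * ((K 0 0 0).re / (K 0 1 1).re) : ℝ) : ℂ) := by
      push_cast; ring
    rw [e5, Complex.ofReal_re]
    simp
  show 7 / 64 ≤ nrm (K 0) (blx c 0)
  rw [hn]
  rw [(hexp 0 h00).1] at key
  have := h0.2
  have := h1.2
  have : 0 ≤ c ^ 2 * ((K 0 0 0).re / (K 0 1 1).re) := by positivity
  linarith

end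

end Pool.Agent.H794
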