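import Pool.Agent.H794.HTsym

/-!
# The involution, and the upper bound of the energy density of the Hitchin section
-/

set_option autoImplicit false

open scoped Manifold ContDiff Matrix ComplexOrder
open Matrix Topology Set Filter

namespace Pool.Agent.H794

open Pool.Agent.Helper614.HE Pool.Agent.Helper614.HE.P_UN1 Pool.Agent.Helper614.HE.P_UN2
  Pool.Agent.Helper614.HE.P_TH

section

variable [ChartedSpace ℂ (SX 4)] {hB : SBasic 4} {hG : SGood 4}

/-- the involution is holomorphic -/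
theorem tau_holo (hB : SBasic 4) (hG : SGood 4) {e e' : OpenPartialHomeomorph (SX 4) ℂ}
    (he : e ∈ atlas ℂ (SX 4)) (he' : e' ∈ atlas ℂ (SX 4)) {z : ℂ} (hz : z ∈ e.target)
    (hz' : tau (e.symm z) ∈ e'.source) :
    DifferentiableAt ℂ (fun w => e' (tau (e.symm w))) z := by
  obtain ⟨j, hs, htype⟩ := hG.chart_type e' he'
  have hj : e.symm z ∈ UU 4 j := tau_mem_iff.1 (hs hz')
  have hc : ContinuousAt (fun w => tau (e.symm w)) z :=
    tau_cont.continuousAt.comp (e.symm.continuousAt hz)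
  have hev : ∀ᶠ w in 𝓝 z, tau (e.symm w) ∈ e'.source := hc (e'.open_source.mem_nhds hz')
  have hev2 : ∀ᶠ w in 𝓝 z, w ∈ e.target ∩ e.symm ⁻¹' UU 4 j := (TH_open hB e j).mem_nhds ⟨hz, hj⟩
  rcases htype with ht | ht
  · have h1 : (fun w => e' (tau (e.symm w))) =ᶠ[𝓝 z] fun w => -VV 4 j (e.symm w) := by
      filter_upwards [hev, hev2] with w hw hw2
      rw [(ht _ hw).1, tau_V hB hw2.2]
    exact (TH_diffV hB hG he ⟨hz, hj⟩).fun_neg.congr_of_eventuallyEq h1
  · have h1 : (fun w => e' (tau (e.symm w))) =ᶠ[𝓝 z] fun w => YY 4 j (e.symm w) := by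
      filter_upwards [hev, hev2] with w hw hw2
      rw [(ht _ hw).1, tau_Y hB hw2.2]
    exact (TH_diffY hB hG he ⟨hz, hj⟩).congr_of_eventuallyEq h1

/-- the pullback of the form by the involution -/
theorem tau_om (hB : SBasic 4) (hG : SGood 4) {e e' : OpenPartialHomeomorph (SX 4) ℂ}
    (he : e ∈ atlas ℂ (SX 4)) (he' : e' ∈ atlas ℂ (SX 4)) {z : ℂ} (hz : z ∈ e.target)
    (hz' : tau (e.symm z) ∈ e'.source) {j : Bool} (hj : e.symm z ∈ UU 4 j) :
    deriv (fun w => e' (tau (e.symm w))) z * om 4 j e' (tau (e.symm z)) =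
      -om 4 j e (e.symm z) := by
  have hψ := tau_holo hB hG he he' hz hz'
  set ψ : ℂ → ℂ := fun w => e' (tau (e.symm w)) with hψdef
  have hc : ContinuousAt (fun w => tau (e.symm w)) z :=
    tau_cont.continuousAt.comp (e.symm.continuousAt hz)
  have hev : ∀ᶠ w in 𝓝 z, tau (e.symm w) ∈ e'.source := hc (e'.open_source.mem_nhds hz')
  have hev2 : ∀ᶠ w in 𝓝 z, w ∈ e.target ∩ e.symm ⁻¹' UU 4 j := (TH_open hB e j).mem_nhds ⟨hz, hj⟩
  have hψz : ψ z ∈ e'.target ∩ e'.symm ⁻¹' UU 4 j := by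
    refine ⟨e'.map_source hz', ?_⟩
    rw [mem_preimage]
    have : e'.symm (ψ z) = tau (e.symm z) := e'.left_inv hz'
    rw [this]
    exact tau_mem hj
  have hV : deriv (fun w => VV 4 j (e'.symm w)) (ψ z) * deriv ψ z =
      -deriv (fun w => VV 4 j (e.symm w)) z := by
    have h1 : HasDerivAt (fun w => VV 4 j (e'.symm (ψ w)))
        (deriv (fun w => VV 4 j (e'.symm w)) (ψ z) * deriv ψ z) z :=
      (TH_diffV hB hG he' hψz).hasDerivAt.comp z hψ.hasDerivAt
    have h2 : (fun w => VV 4 j (e'.symm (ψ w))) =ᶠ[𝓝 z] fun w => -VV 4 j (e.symm w) := by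
      filter_upwards [hev, hev2] with w hw hw2
      have : e'.symm (ψ w) = tau (e.symm w) := e'.left_inv hw
      rw [this, tau_V hB hw2.2]
    have h3 := (TH_diffV hB hG he ⟨hz, hj⟩).hasDerivAt.fun_neg
    exact h1.unique (h3.congr_of_eventuallyEq h2)
  have hY : deriv (fun w => YY 4 j (e'.symm w)) (ψ z) * deriv ψ z =
      deriv (fun w => YY 4 j (e.symm w)) z := by
    have h1 : HasDerivAt (fun w => YY 4 j (e'.symm (ψ w)))
        (deriv (fun w => YY 4 j (e'.symm w)) (ψ z) * deriv ψ z) z :=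
      (TH_diffY hB hG he' hψz).hasDerivAt.comp z hψ.hasDerivAt
    have h2 : (fun w => YY 4 j (e'.symm (ψ w))) =ᶠ[𝓝 z] fun w => YY 4 j (e.symm w) := by
      filter_upwards [hev, hev2] with w hw hw2
      have : e'.symm (ψ w) = tau (e.symm w) := e'.left_inv hw
      rw [this, tau_Y hB hw2.2]
    have h3 := (TH_diffY hB hG he ⟨hz, hj⟩).hasDerivAt
    exact h1.unique (h3.congr_of_eventuallyEq h2)
  have hψe : e' (tau (e.symm z)) = ψ z := rfl
  unfold om
  rw [tau_Y hB hj, tau_V hB hj, hψe, e.right_inv hz]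
  by_cases hY0 : YY 4 j (e.symm z) = 0
  · rw [if_neg (not_not.2 hY0), if_neg (not_not.2 hY0)]
    have e1 : (-VV 4 j (e.symm z)) ^ (4 * 4 - 1) = -VV 4 j (e.symm z) ^ (4 * 4 - 1) := by
      norm_num
      exact Odd.neg_pow (by decide) _
    rw [e1, ← hY]
    have hV0 : VV 4 j (e.symm z) ≠ 0 := TH_V_ne (by norm_num) (hB.eqn j _ hj) hY0
    have hVn : VV 4 j (e.symm z) ^ (4 * 4 - 1) ≠ 0 := pow_ne_zero _ hV0
    field_simp
  · rw [if_pos hY0, if_pos hY0]
    have : deriv ψ z * (deriv (fun w => VV 4 j (e'.symm w)) (ψ z) / YY 4 j (e.symm z) ^ 3) =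
        (deriv (fun w => VV 4 j (e'.symm w)) (ψ z) * deriv ψ z) / YY 4 j (e.symm z) ^ 3 := by ring
    rw [this, hV]
    ring

theorem gt_tau {i j : Bool} (hB : SBasic 4) {x : SX 4} (hx : x ∈ UU 4 i) :
    gt i j (tau x) = gt i j x := by
  by_cases hij : i = j
  · subst hij; rw [gt_self, gt_self]
  · rw [gt_ne hij, gt_ne hij, tau_V hB hx]
    have : (-VV 4 i x) ^ 10 = VV 4 i x ^ 10 := Even.neg_pow (by decide) _
    rw [this]

theorem gt_sgT (i j : Bool) (x : SX 4) : sgT * gt i j x = gt i j x * sgT := by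
  by_cases hij : i = j
  · subst hij; rw [gt_self, Matrix.mul_one, Matrix.one_mul]
  · rw [gt_ne hij, sgT, Matrix.diagonal_mul_diagonal, Matrix.diagonal_mul_diagonal]
    congr 1; funext a; ring

/-- **the pullback of the metric by the involution** -/
theorem HT_tau {r c : ℝ} {h : Bool → SX 4 → M3}
    (H : IsHarmonicMetric (HT hB hG r c) 1 h) :
    IsHarmonicMetric (HT hB hG r c) 1 (fun i x => sgT * h i (tau x) * sgT) := by
  have hloc : ∀ i, ∀ e ∈ atlas ℂ (SX 4), ∀ z ∈ e.target, e.symm z ∈ UU 4 i →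
      (∀ a b, ContDiffAt ℝ ∞ (fun w => h i (tau (e.symm w)) a b) z) ∧
      Hit (fun w => h i (tau (e.symm w)))
        (((r : ℂ) * om 4 i e (e.symm z)) •
          (-cmp (qa r c i (VV 4 i (e.symm z))) (-qb r c i (VV 4 i (e.symm z))))) z ∧
      (∀ᶠ w in 𝓝 z, (h i (tau (e.symm w))).PosDef) := by
    intro i e he z hz hi
    set e' := chartAt ℂ (tau (e.symm z)) with he'
    have hea : e' ∈ atlas ℂ (SX 4) := chart_mem_atlas ℂ _
    have hz' : tau (e.symm z) ∈ e'.source := mem_chart_source ℂ _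
    set ψ : ℂ → ℂ := fun w => e' (tau (e.symm w)) with hψ
    have hc : ContinuousAt (fun w => tau (e.symm w)) z :=
      tau_cont.continuousAt.comp (e.symm.continuousAt hz)
    have hev : ∀ᶠ w in 𝓝 z, tau (e.symm w) ∈ e'.source := hc (e'.open_source.mem_nhds hz')
    have hψd : ∀ᶠ w in 𝓝 z, DifferentiableAt ℂ ψ w := by
      filter_upwards [hev, e.open_target.mem_nhds hz] with w hw hw'
      exact tau_holo hB hG he hea hw' hw
    have hψz : e'.symm (ψ z) = tau (e.symm z) := e'.left_inv hz'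
    have hzt : ψ z ∈ e'.target := e'.map_source hz'
    have hi' : e'.symm (ψ z) ∈ (HT hB hG r c).U i := by rw [hψz]; exact tau_mem hi
    have heq : (fun w => h i (tau (e.symm w))) =ᶠ[𝓝 z] fun w => h i (e'.symm (ψ w)) := by
      filter_upwards [hev] with w hw
      have : e'.symm (ψ w) = tau (e.symm w) := e'.left_inv hw
      rw [this]
    refine ⟨?_, ?_, ?_⟩
    · intro a b
      have h1 : ContDiffAt ℝ ∞ (fun w => h i (e'.symm w) a b) (ψ z) := hm_cd H hea hzt hi' a b
      have h2 : ContDiffAt ℝ ∞ ψ z := by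
        have := Complex.analyticAt_iff_eventually_differentiableAt.2 hψd
        exact (this.contDiffAt (n := ∞)).restrict_scalars ℝ
      have h3 : ContDiffAt ℝ ∞ (fun w => h i (e'.symm (ψ w)) a b) z := h1.comp z h2
      refine h3.congr_of_eventuallyEq ?_
      filter_upwards [heq] with w hw
      rw [hw]
    · have h1 := (hm_hit H hea hzt hi').comp (ψ := ψ) (hm_pos H hzt hi')
        (fun a b => hm_cd2 H hea hzt hi' a b) hψd
      have h2 := h1.congr heq
      have h3 : deriv ψ z • (HT hB hG r c).φ i e' (e'.symm (ψ z)) =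
          ((r : ℂ) * om 4 i e (e.symm z)) •
          (-cmp (qa r c i (VV 4 i (e.symm z))) (-qb r c i (VV 4 i (e.symm z)))) := by
        rw [hψz]
        show deriv ψ z • (((r : ℂ) * om 4 i e' (tau (e.symm z))) •
          cmp (qa r c i (VV 4 i (tau (e.symm z)))) (qb r c i (VV 4 i (tau (e.symm z))))) = _
        rw [tau_V hB hi, qa_neg, qb_neg, smul_smul, smul_neg, ← neg_smul]
        congr 1
        have h4 := tau_om hB hG he hea hz hz' hi
        linear_combination (r : ℂ) * h4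
      rw [h3] at h2
      exact h2
    · filter_upwards [(TH_open hB e i).mem_nhds ⟨hz, hi⟩] with w hw
      exact H.posDef i _ (tau_mem hw.2)
  refine mk_hm ?_ ?_ ?_ ?_ ?_
  · intro i x hx
    have := posDef_conj (H.posDef i (tau x) (tau_mem hx)) (isUnit_of_sq sgT_sq)
    rwa [sgT_ct] at this
  · intro i x hx
    rw [Matrix.det_mul, Matrix.det_mul, H.det i (tau x) (tau_mem hx), mul_one]
    exact det_of_sq sgT_sq
  · intro i j x hx
    have e1 : h j (tau x) = (gt i j (tau x))ᴴ * h i (tau x) * gt i j (tau x) :=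
      H.glue i j (tau x) ⟨tau_mem hx.1, tau_mem hx.2⟩
    show sgT * h j (tau x) * sgT = (gt i j x)ᴴ * (sgT * h i (tau x) * sgT) * gt i j x
    rw [e1, gt_tau hB hx.1]
    have e2 := gt_sgT i j x
    have e3 : (gt i j x)ᴴ * sgT = sgT * (gt i j x)ᴴ := by
      have := congrArg Matrix.conjTranspose e2
      rwa [Matrix.conjTranspose_mul, Matrix.conjTranspose_mul, sgT_ct] at this
    calc sgT * ((gt i j x)ᴴ * h i (tau x) * gt i j x) * sgT
        = (sgT * (gt i j x)ᴴ) * h i (tau x) * (gt i j x * sgT) := by simp only [Matrix.mul_assoc]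
      _ = _ := by rw [← e3, ← e2]; simp only [Matrix.mul_assoc]
  · intro i e he z hz hi a b
    have h1 := (hloc i e he z hz hi).1 a b
    have h2 : (fun w => (sgT * h i (tau (e.symm w)) * sgT) a b) = fun w =>
        (![-1, 1, -1] : Fin 3 → ℂ) a * h i (tau (e.symm w)) a b *
          (![-1, 1, -1] : Fin 3 → ℂ) b := by
      funext w
      rw [sgT, Matrix.mul_diagonal, Matrix.diagonal_mul]
    rw [h2]
    exact (contDiffAt_const.mul h1).mul contDiffAt_const
  · intro i e he z hz hi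
    obtain ⟨h1, h2, h3⟩ := hloc i e he z hz hi
    have h4 := h2.conj (G := fun _ => sgT) (P := (HT hB hG r c).φ i e (e.symm z)) h3
      (fun a b => contDiffAt_infty.1 (h1 a b) 2)
      (Filter.Eventually.of_forall fun w => ⟨fun a b => differentiableAt_const _, by
        intro h0
        have := det_of_sq sgT_sq
        rw [h0] at this
        simp at this⟩)
      (by
        show sgT * (((r : ℂ) * om 4 i e (e.symm z)) •
          cmp (qa r c i (VV 4 i (e.symm z))) (qb r c i (VV 4 i (e.symm z)))) = _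
        rw [Matrix.mul_smul, Matrix.smul_mul, sgT_cmp])
    rw [sgT_ct] at h4
    exact h4

omit [ChartedSpace ℂ (SX 4)] in
theorem tau_fix (r : ℝ) : tau (sg r 0) = sg r 0 := by
  unfold sg
  rw [tau_inc]
  congr 1
  apply Subtype.ext
  simp [tau0]

end

/-- the final computation -/
theorem final_alg {H : M3} {c : ℝ} (hc : 0 < c) (hp : H.PosDef) (hd : H.det = 1)
    (h1 : sgT * H * sgT = H) (h2 : (pr (-c))ᴴ * (Hᵀ)⁻¹ * pr (-c) = H) :
    ∃ d : ℝ, 0 < d ∧ nrm H (Ph c 0) = 2 * d ∧ nrm H (pih c 0) = d ^ 2 / c ^ 2 := by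
  have key : ∀ a b : Fin 3, (![-1, 1, -1] : Fin 3 → ℂ) a * H a b *
      (![-1, 1, -1] : Fin 3 → ℂ) b = H a b := by
    intro a b
    have := congrFun (congrFun h1 a) b
    rwa [sgT, Matrix.mul_diagonal, Matrix.diagonal_mul] at this
  have z : ∀ w : ℂ, -w = w → w = 0 := fun w hw => by
    have : (2 : ℂ) * w = 0 := by linear_combination -hw
    simpa using this
  have k01 : H 0 1 = 0 := z _ (by simpa using key 0 1)
  have k10 : H 1 0 = 0 := z _ (by simpa using key 1 0)
  have k12 : H 1 2 = 0 := z _ (by simpa using key 1 2)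
  have k21 : H 2 1 = 0 := z _ (by simpa using key 2 1)
  -- the diagonal entries are real and positive
  have hdiag : ∀ k, H k k = (((H k k).re : ℝ) : ℂ) ∧ 0 < (H k k).re := by
    intro k
    have h1 := Complex.lt_def.mp (hp.diag_pos (i := k))
    refine ⟨?_, h1.1⟩
    apply Complex.ext
    · simp
    · have := h1.2
      simp only [Complex.zero_im] at this
      simp [← this]
  -- the equation
  have hprc : (pr (-c : ℂ))ᴴ = pr (-c) := by
    ext a b
    fin_cases a <;> fin_cases b <;> simp [pr, Matrix.conjTranspose_apply]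
  have hdT : IsUnit (Hᵀ).det := by rw [Matrix.det_transpose, hd]; exact isUnit_one
  have hinvp : !![-(c : ℂ), 0, 1; 0, 1, 0; 1, 0, 0] * pr (-c) = 1 := by
    ext a b
    fin_cases a <;> fin_cases b <;> simp [pr, Matrix.mul_apply, Fin.sum_univ_three]
  have hinvp' : pr (-c) * !![-(c : ℂ), 0, 1; 0, 1, 0; 1, 0, 0] = 1 := by
    ext a b
    fin_cases a <;> fin_cases b <;> simp [pr, Matrix.mul_apply, Fin.sum_univ_three]
  have heq : H * !![-(c : ℂ), 0, 1; 0, 1, 0; 1, 0, 0] * Hᵀ = pr (-c) := by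
    rw [hprc] at h2
    calc H * !![-(c : ℂ), 0, 1; 0, 1, 0; 1, 0, 0] * Hᵀ
        = (pr (-c) * (Hᵀ)⁻¹ * pr (-c)) * !![-(c : ℂ), 0, 1; 0, 1, 0; 1, 0, 0] * Hᵀ := by rw [h2]
      _ = pr (-c) * ((Hᵀ)⁻¹ * ((pr (-c) * !![-(c : ℂ), 0, 1; 0, 1, 0; 1, 0, 0]) * Hᵀ)) := by
          simp only [Matrix.mul_assoc]
      _ = pr (-c) := by
          rw [hinvp', Matrix.one_mul, Matrix.nonsing_inv_mul _ hdT, Matrix.mul_one]
  have q00 := congrFun (congrFun heq 0) 0
  have q11 := congrFun (congrFun heq 1) 1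
  have q02 := congrFun (congrFun heq 0) 2
  have q20 := congrFun (congrFun heq 2) 0
  simp [pr, Matrix.mul_apply, Fin.sum_univ_three, k01, k10, k12, k21] at q00 q11 q02 q20
  obtain ⟨ea, ha⟩ := hdiag 0
  obtain ⟨ek, hk⟩ := hdiag 1
  obtain ⟨ed, hdd⟩ := hdiag 2
  set a := (H 0 0).re
  set k := (H 1 1).re
  set d := (H 2 2).re
  have hne : (H 0 0 : ℂ) ≠ 0 := by rw [ea]; exact_mod_cast ha.ne'
  have k1 : k = 1 := by
    have h3 : k * k = 1 := by
      have := q11
      rw [ek] at this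
      exact_mod_cast this
    nlinarith
  have b02 : H 0 2 = c * a / 2 := by
    have h3 : H 0 0 * (2 * H 0 2 - c * H 0 0) = 0 := by linear_combination q00
    rcases mul_eq_zero.1 h3 with h | h
    · exact absurd h hne
    · rw [ea] at h
      linear_combination (1 / 2) * h
  have b20 : H 2 0 = c * a / 2 := by
    have h3 : H 2 0 = star (H 0 2) := (hp.isHermitian.apply 2 0).symm
    rw [h3, b02]
    simp
  have hrel : a * d - c ^ 2 * a ^ 2 / 4 = 1 := by
    have h3 := hd
    rw [Matrix.det_fin_three, k01, k10, k12, k21, b02, b20, ea, ek, ed, k1] at h3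
    have h4 : (((a * d - c ^ 2 * a ^ 2 / 4 : ℝ)) : ℂ) = ((1 : ℝ) : ℂ) := by
      push_cast
      push_cast at h3
      linear_combination h3
    exact_mod_cast h4
  have hH : H = !![(a : ℂ), 0, c * a / 2; 0, 1, 0; c * a / 2, 0, d] := by
    ext s t
    fin_cases s <;> fin_cases t <;> simp [k01, k10, k12, k21, b02, b20]
    · exact ea
    · rw [ek, k1]; simp
    · exact ed
  have hrelc : (a : ℂ) * d - c ^ 2 * a ^ 2 / 4 = 1 := by exact_mod_cast hrel
  have hinv : H⁻¹ = !![(d : ℂ), 0, -(c * a / 2); 0, 1, 0; -(c * a / 2), 0, a] := by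
    apply Matrix.inv_eq_left_inv
    rw [hH, Matrix.mul_fin_three]
    ext s t
    fin_cases s <;> fin_cases t <;> simp <;>
      first
        | done
        | (ring_nf; done)
        | linear_combination hrelc
  have hc' : (c : ℂ) ≠ 0 := by exact_mod_cast hc.ne'
  refine ⟨d, hdd, ?_, ?_⟩
  · have e1 : (Ph c 0 * adj H (Ph c 0)).trace = ((2 * d : ℝ) : ℂ) := by
      rw [adj, hinv, hH, Matrix.trace, Fin.sum_univ_three]
      simp only [Matrix.diag_apply, Matrix.mul_apply, Fin.sum_univ_three]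
      simp [Ph]
      ring
    rw [nrm, e1, Complex.ofReal_re]
  · have e1 : (pih c 0 * adj H (pih c 0)).trace = ((d ^ 2 / c ^ 2 : ℝ) : ℂ) := by
      rw [adj, hinv, hH, Matrix.trace, Fin.sum_univ_three]
      simp only [Matrix.diag_apply, Matrix.mul_apply, Fin.sum_univ_three]
      simp [pih]
      field_simp
      ring
    rw [nrm, e1, Complex.ofReal_re]

section

variable [ChartedSpace ℂ (SX 4)] {hB : SBasic 4} {hG : SGood 4}

theorem Ph_cmp (r c : ℝ) (v : ℂ) : cmp (qa r c false v) (qb r c false v) = Ph c (r * v) := by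
  simp [cmp, qa, qb, Ph]

/-- **the upper bound at the centre of the disc** -/
theorem HT_up {c : ℝ} (hc0 : 0 < c) (hc : c ≤ 1) : ∃ r0 : ℝ, ∀ r : ℝ, r0 ≤ r →
    ∀ h : Bool → SX 4 → M3, IsHarmonicMetric (HT hB hG r c) 1 h →
      nrm (h false (sg r 0)) (Ph c 0) ≤ 4 * c := by
  obtain ⟨R0, hR0⟩ := pi_bound hc0 hc
  refine ⟨max 1 (2 * R0), fun r hr h H => ?_⟩
  have hr0 : 0 < r := lt_of_lt_of_le one_pos ((le_max_left _ _).trans hr)
  have hr2 : R0 ≤ r / 2 := by
    have := (le_max_right 1 (2 * R0)).trans hr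
    linarith
  have hφ : ∀ e ∈ atlas ℂ (SX 4), ∀ x ∈ UU 4 false ∩ e.source,
      (HT hB hG r c).φ false e x = ((r : ℂ) * om 4 false e x) • Ph c (r * VV 4 false x) := by
    intro e he x hx
    show ((r : ℂ) * om 4 false e x) • cmp (qa r c false (VV 4 false x))
      (qb r c false (VV 4 false x)) = _
    rw [Ph_cmp]
  have hsol : ∀ x : ℂ, ‖x‖ < r → _ := fun x hx =>
    disc_sol hB hG (E := HT hB hG r c) (i := false) rfl hr0 hφ H hx
  have hS : Sol (r / 2) (fun x => h false (sg r x)) (fun x => (yv (x / r) ^ 3)⁻¹) (Ph c) := by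
    refine ⟨?_, ?_, ?_, ?_⟩
    · intro x hx; exact (hsol x (by linarith)).1
    · intro x hx; exact (hsol x (by linarith)).2.1
    · intro x hx; exact (hsol x (by linarith)).2.2
    · intro x hx
      have h1 : ‖x / (r : ℂ)‖ ≤ 1 / 2 := by
        rw [norm_div, Complex.norm_real, Real.norm_eq_abs, abs_of_pos hr0, div_le_iff₀ hr0]
        linarith
      have := (yv_bound h1).1
      linarith
  have hpi := hR0 (r / 2) _ _ hr2 hS
  have hx : sg r 0 ∈ UU 4 false := sg_mem r 0
  have u1 := HT_unique hr0.ne' (HT_tau H) H (sg r 0) hx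
  have u2 := HT_unique hr0.ne' (HT_dual H) H (sg r 0) hx
  simp only [tau_fix] at u1
  have hq : qa r c false (VV 4 false (sg r 0)) = -(c : ℂ) := by
    rw [sg_V hB]; simp [qa]
  simp only [hq] at u2
  obtain ⟨d, hd0, hd1, hd2⟩ := final_alg hc0 (H.posDef false _ hx) (H.det false _ hx) u1 u2
  rw [hd1]
  have h3 : d ^ 2 / c ^ 2 ≤ 4 := by
    rw [← hd2]; exact hpi
  rw [div_le_iff₀ (by positivity)] at h3
  nlinarith

end

end Pool.Agent.H794
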