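import Pool.Agent.H794.HDefs
import Pool.Agent.H794.HTup

/-!
# The bundle `EB` is polystable
-/

set_option autoImplicit false

open scoped Manifold ContDiff Matrix ComplexOrder
open Matrix Topology Set Filter

namespace Pool.Agent.H794

open Pool.Agent.Helper614.HE Pool.Agent.Helper614.HE.P_TH

/-! ### Coordinate subspaces -/

/-- the vectors whose components outside of the range of `ρ` vanish -/
def GS {r : ℕ} (ρ : Fin r → Fin 3) : Submodule ℂ (Fin 3 → ℂ) where
  carrier := {v | ∀ k : Fin 3, (∀ b, k ≠ ρ b) → v k = 0}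
  add_mem' := by
    intro a b ha hb k hk
    simp [ha k hk, hb k hk]
  zero_mem' := by
    intro k _
    rfl
  smul_mem' := by
    intro c a ha k hk
    simp [ha k hk]

/-- the standard frame of the coordinate subspace -/
def CE {r : ℕ} (ρ : Fin r → Fin 3) : Matrix (Fin 3) (Fin r) ℂ :=
  Matrix.of fun a b => if a = ρ b then 1 else 0

theorem CE_mul {r : ℕ} {ρ : Fin r → Fin 3} (hρ : Function.Injective ρ)
    (A : Matrix (Fin 3) (Fin r) ℂ) (hA : ∀ b, (fun a => A a b) ∈ GS ρ) :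
    A = CE ρ * A.submatrix ρ id := by
  ext a b
  rw [Matrix.mul_apply]
  by_cases h : ∀ c, a ≠ ρ c
  · have h0 : A a b = 0 := hA b a h
    rw [h0, Finset.sum_eq_zero]
    intro c _
    simp [CE, h c]
  · push Not at h
    obtain ⟨c, hc⟩ := h
    rw [Finset.sum_eq_single c]
    · simp [CE, ← hc]
    · intro d _ hd
      have : a ≠ ρ d := by
        intro h1
        exact hd (hρ (h1.symm.trans hc))
      simp [CE, this]
    · intro h1
      exact absurd (Finset.mem_univ _) h1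

theorem det_ne {r : ℕ} {ρ : Fin r → Fin 3} (hρ : Function.Injective ρ)
    (A : Matrix (Fin 3) (Fin r) ℂ)
    (hA : ∀ b, (fun a => A a b) ∈ GS ρ) (hli : LinearIndependent ℂ (fun b a => A a b)) :
    (A.submatrix ρ id).det ≠ 0 := by
  intro h0
  obtain ⟨v, hv, hv2⟩ := Matrix.exists_mulVec_eq_zero_iff.mpr h0
  apply hv
  have h1 : A.mulVec v = 0 := by
    rw [CE_mul hρ A hA, ← Matrix.mulVec_mulVec, hv2, Matrix.mulVec_zero]
  rw [Fintype.linearIndependent_iff] at hli
  funext b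
  refine hli v ?_ b
  funext a
  have := congrFun h1 a
  simp only [Matrix.mulVec, dotProduct, Pi.zero_apply] at this
  simp only [Finset.sum_apply, Pi.smul_apply, smul_eq_mul, Pi.zero_apply]
  rw [← this]
  exact Finset.sum_congr rfl fun c _ => mul_comm _ _

theorem CE_li {r : ℕ} {ρ : Fin r → Fin 3} (hρ : Function.Injective ρ) :
    LinearIndependent ℂ (fun b a => CE ρ a b) := by
  rw [Fintype.linearIndependent_iff]
  intro g hg b
  have h1 := congrFun hg (ρ b)
  simp only [Finset.sum_apply, Pi.smul_apply, smul_eq_mul, Pi.zero_apply] at h1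
  rw [Finset.sum_eq_single b] at h1
  · simpa [CE] using h1
  · intro d _ hd
    have : ρ b ≠ ρ d := fun h => hd (hρ h).symm
    simp [CE, this]
  · intro h
    exact absurd (Finset.mem_univ _) h

theorem CE_mem {r : ℕ} (ρ : Fin r → Fin 3) (b : Fin r) : (fun a => CE ρ a b) ∈ GS ρ := by
  intro k hk
  simp [CE, hk b]

theorem CE_span {r : ℕ} {ρ : Fin r → Fin 3} (hρ : Function.Injective ρ) :
    Submodule.span ℂ (Set.range fun b a => CE ρ a b) = GS ρ := by
  apply le_antisymm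
  · rw [Submodule.span_le]
    rintro _ ⟨b, rfl⟩
    exact CE_mem ρ b
  · intro v hv
    have h1 : v = ∑ b, v (ρ b) • (fun a => CE ρ a b) := by
      funext a
      simp only [Finset.sum_apply, Pi.smul_apply, smul_eq_mul]
      by_cases h : ∀ c, a ≠ ρ c
      · rw [hv a h, Finset.sum_eq_zero]
        intro c _
        simp [CE, h c]
      · push Not at h
        obtain ⟨c, hc⟩ := h
        rw [Finset.sum_eq_single c]
        · simp [CE, ← hc]
        · intro d _ hd
          have : a ≠ ρ d := by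
            intro h1
            exact hd (hρ (h1.symm.trans hc))
          simp [CE, this]
        · intro h1
          exact absurd (Finset.mem_univ _) h1
    rw [h1]
    exact Submodule.sum_mem _ fun b _ => Submodule.smul_mem _ _ (Submodule.subset_span ⟨b, rfl⟩)

theorem GS_finrank {r : ℕ} {ρ : Fin r → Fin 3} (hρ : Function.Injective ρ) :
    Module.finrank ℂ (GS ρ) = r := by
  rw [← CE_span hρ, finrank_span_eq_card (CE_li hρ), Fintype.card_fin]

theorem GS_compl {r s : ℕ} {ρ : Fin r → Fin 3} {σ : Fin s → Fin 3}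
    (h1 : ∀ k, (∀ b, k ≠ ρ b) ∨ (∀ b, k ≠ σ b)) (h2 : ∀ k, (∃ b, k = ρ b) ∨ (∃ b, k = σ b)) :
    IsCompl (GS ρ) (GS σ) := by
  constructor
  · rw [Submodule.disjoint_def]
    intro v hv hv'
    funext k
    rcases h1 k with h | h
    · exact hv k h
    · exact hv' k h
  · rw [codisjoint_iff, Submodule.eq_top_iff']
    intro v
    classical
    have h3 : v = (fun k => if ∃ b, k = ρ b then v k else 0) +
        (fun k => if ∃ b, k = ρ b then 0 else v k) := by
      funext k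
      simp only [Pi.add_apply]
      split_ifs <;> simp
    rw [h3]
    refine Submodule.add_mem_sup ?_ ?_
    · intro k hk
      have : ¬ ∃ b, k = ρ b := by
        push Not
        exact hk
      simp [this]
    · intro k hk
      have h4 : ∃ b, k = ρ b := by
        rcases h2 k with h | ⟨b, hb⟩
        · exact h
        · exact absurd hb (hk b)
      simp [h4]

/-! ### An equation without solutions -/

/-- `Q f² = g²` has only the zero solution near a simple zero of `Q` -/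
theorem sq_zero {Q f g : ℂ → ℂ} {z₀ : ℂ} (hQ : AnalyticAt ℂ Q z₀) (hf : AnalyticAt ℂ f z₀)
    (hg : AnalyticAt ℂ g z₀) (hQ0 : Q z₀ = 0) (hQ1 : deriv Q z₀ ≠ 0)
    (h : ∀ᶠ z in 𝓝 z₀, Q z * f z ^ 2 = g z ^ 2) :
    (∀ᶠ z in 𝓝 z₀, f z = 0) ∧ (∀ᶠ z in 𝓝 z₀, g z = 0) := by
  have h1 : analyticOrderAt Q z₀ = 1 := hQ.analyticOrderAt_eq_one_of_zero_deriv_ne_zero hQ0 hQ1
  have h2 : analyticOrderAt (Q * f ^ 2) z₀ = analyticOrderAt (g ^ 2) z₀ := by
    apply analyticOrderAt_congr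
    filter_upwards [h] with z hz
    simpa using hz
  rw [analyticOrderAt_mul hQ (hf.pow 2), analyticOrderAt_pow hf, analyticOrderAt_pow hg, h1] at h2
  rw [← analyticOrderAt_eq_top, ← analyticOrderAt_eq_top]
  generalize analyticOrderAt f z₀ = a at *
  generalize analyticOrderAt g z₀ = b at *
  induction a using ENat.recTopCoe with
  | top =>
    refine ⟨rfl, ?_⟩
    induction b using ENat.recTopCoe with
    | top => rfl
    | coe b =>
      exfalso
      have h3 : (1 : ℕ∞) + 2 • ⊤ = ⊤ := by simp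
      rw [h3] at h2
      have h4 : ((2 * b : ℕ) : ℕ∞) = ⊤ := by rw [h2]; push_cast; simp
      exact absurd h4 (ENat.natCast_ne_top _)
  | coe a =>
    exfalso
    induction b using ENat.recTopCoe with
    | top =>
      have h3 : (2 : ℕ) • (⊤ : ℕ∞) = ⊤ := by simp
      rw [h3] at h2
      have h4 : ((1 + 2 * a : ℕ) : ℕ∞) = ⊤ := by rw [← h2]; push_cast; simp
      exact absurd h4 (ENat.natCast_ne_top _)
    | coe b =>
      have h4 : ((1 + 2 * a : ℕ) : ℕ∞) = ((2 * b : ℕ) : ℕ∞) := by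
        push_cast
        simpa using h2
      have h5 : 1 + 2 * a = 2 * b := by exact_mod_cast h4
      omega

section

variable [ChartedSpace ℂ (SX 4)] (hB : SBasic 4) (hG : SGood 4)

/-- a constant coordinate subbundle -/
theorem const_sub {r : ℕ} {ρ : Fin r → Fin 3} (hρ : Function.Injective ρ) (R c : ℝ)
    (hinv : ∀ i w, ∀ v ∈ GS ρ, (blk R c i w).mulVec v ∈ GS ρ) :
    IsHiggsSubbundle (EB hB hG R c) r (fun _ _ => GS ρ) := by
  refine ⟨?_, ?_, ?_⟩
  · intro i j x hx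
    show GS ρ = (GS ρ).map (Matrix.toLin' 1)
    rw [Matrix.toLin'_one, Submodule.map_id]
  · intro i x hx
    refine ⟨fun _ => CE ρ, UU 4 i, hB.isOpen_UU i, hx, subset_rfl, ?_, ?_⟩
    · intro e he a b
      exact differentiableOn_const _
    · intro y hy
      exact ⟨CE_li hρ, CE_span hρ⟩
  · intro i e he x hx v hv
    show (((R : ℂ) * om 4 i e x) • blk R c i (VV 4 i x)).mulVec v ∈ GS ρ
    rw [Matrix.smul_mulVec]
    exact Submodule.smul_mem _ _ (hinv i _ v hv)

/-- a constant coordinate subbundle has degree zero -/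
theorem const_deg {r : ℕ} {ρ : Fin r → Fin 3} (hρ : Function.Injective ρ) (R c : ℝ)
    {F : Bool → SX 4 → Submodule ℂ (Fin 3 → ℂ)} (hF : ∀ i, ∀ x ∈ UU 4 i, F i x = GS ρ) :
    HasDegree (EB hB hG R c) r F 0 := by
  refine ⟨fun _ _ => CE ρ, fun _ => 0, ?_, ?_, by simp, by simp⟩
  · intro i j x hx
    show CE ρ = 1 * CE ρ
    rw [Matrix.one_mul]
  · intro i x₀ hx₀ B hfr e he hxe
    obtain ⟨V, hVo, hx0V, hVU, hBd, hBs⟩ := hfr
    have hDV : IsOpen (e.target ∩ e.symm ⁻¹' V) := e.isOpen_inter_preimage_symm hVo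
    have hz₀V : e x₀ ∈ e.target ∩ e.symm ⁻¹' V :=
      ⟨e.map_source hxe, Set.mem_preimage.2 (by rw [e.left_inv hxe]; exact hx0V)⟩
    have hBan : ∀ a b, AnalyticAt ℂ (fun z => B (e.symm z) a b) (e x₀) := fun a b =>
      (hBd e he a b).analyticAt (hDV.mem_nhds hz₀V)
    have hcol : ∀ x ∈ V, ∀ b, (fun a => B x a b) ∈ GS ρ := by
      intro x hx b
      rw [← hF i x (hVU hx), ← (hBs x hx).2]
      exact Submodule.subset_span ⟨b, rfl⟩
    have hdet : ∀ x ∈ V, ((B x).submatrix ρ id).det ≠ 0 := fun x hx =>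
      det_ne hρ _ (hcol x hx) (hBs x hx).1
    refine ⟨fun z => ((B (e.symm z)).submatrix ρ id)⁻¹, ?_, ?_, ?_⟩
    · intro a b
      exact P_ST2.ST2_mero_inv (A := fun z => (B (e.symm z)).submatrix ρ id)
        (fun a b => (hBan (ρ a) b).meromorphicAt) a b
    · apply eventually_nhdsWithin_of_eventually_nhds
      filter_upwards [hDV.mem_nhds hz₀V] with z hz
      have h1 := CE_mul hρ (B (e.symm z)) (hcol _ hz.2)
      have h2 : IsUnit ((B (e.symm z)).submatrix ρ id).det :=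
        isUnit_iff_ne_zero.2 (hdet _ hz.2)
      show CE ρ = B (e.symm z) * ((B (e.symm z)).submatrix ρ id)⁻¹
      conv_rhs => rw [h1]
      rw [Matrix.mul_assoc]
      conv_rhs => rw [← h1]
      rw [Matrix.mul_nonsing_inv _ h2, Matrix.mul_one]
    · have h1 : AnalyticAt ℂ (fun z => ((B (e.symm z)).submatrix ρ id).det) (e x₀) :=
        P_ST2.ST2_anal_det (A := fun z => (B (e.symm z)).submatrix ρ id)
          (fun a b => hBan (ρ a) b)
      have h2 : ((B (e.symm (e x₀))).submatrix ρ id).det ≠ 0 := hdet _ hz₀V.2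
      have h3 : AnalyticAt ℂ (fun z => (((B (e.symm z)).submatrix ρ id).det)⁻¹) (e x₀) :=
        h1.inv h2
      have h4 : (fun z => (((B (e.symm z)).submatrix ρ id)⁻¹).det) =
          fun z => (((B (e.symm z)).submatrix ρ id).det)⁻¹ := by
        funext z
        rw [Matrix.det_nonsing_inv, Ring.inverse_eq_inv']
      have h5 : analyticOrderAt (fun z => (((B (e.symm z)).submatrix ρ id).det)⁻¹) (e x₀) = 0 :=
        h3.analyticOrderAt_eq_zero.2 (inv_ne_zero h2)
      show meromorphicOrderAt (fun z => (((B (e.symm z)).submatrix ρ id)⁻¹).det) (e x₀) = _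
      rw [h4, h3.meromorphicOrderAt_eq, h5]
      simp

/-- a Higgs subbundle which is a coordinate subbundle somewhere -/
theorem sub_eq {R c : ℝ} {r : ℕ} {F : Bool → SX 4 → Submodule ℂ (Fin 3 → ℂ)}
    (hF : IsHiggsSubbundle (EB hB hG R c) r F) {ρ : Fin r → Fin 3} (hρ : Function.Injective ρ)
    (h0 : ∃ x₀ : SX 4, ∀ᶠ x in 𝓝 x₀, ∀ i, x ∈ UU 4 i → F i x = GS ρ) :
    ∀ i, ∀ x ∈ UU 4 i, F i x = GS ρ := by
  have hgl : ∀ i j, ∀ x ∈ UU 4 i ∩ UU 4 j, F i x = F j x := by
    intro i j x hx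
    have := hF.glue i j x hx
    rw [this]
    show (F j x).map (Matrix.toLin' 1) = F j x
    rw [Matrix.toLin'_one, Submodule.map_id]
  set A : Set (SX 4) := {x | ∀ᶠ y in 𝓝 x, ∀ i, y ∈ UU 4 i → F i y = GS ρ} with hA
  have hAo : IsOpen A := by
    rw [isOpen_iff_mem_nhds]
    intro x hx
    exact eventually_eventually_nhds.2 hx
  have hAc : IsClosed A := by
    apply isClosed_of_closure_subset
    intro x hx
    obtain ⟨i, hi⟩ : ∃ i, x ∈ UU 4 i :=
      (hB.cover x).elim (fun h => ⟨false, h⟩) (fun h => ⟨true, h⟩)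
    obtain ⟨B, V, hVo, hxV, hVU, hBd, hBs⟩ := hF.frame i x hi
    set e := chartAt ℂ x with he
    have heA : e ∈ atlas ℂ (SX 4) := chart_mem_atlas ℂ x
    have hxe : x ∈ e.source := mem_chart_source ℂ x
    have hDV : IsOpen (e.target ∩ e.symm ⁻¹' V) := e.isOpen_inter_preimage_symm hVo
    have hz₀V : e x ∈ e.target ∩ e.symm ⁻¹' V :=
      ⟨e.map_source hxe, Set.mem_preimage.2 (by rw [e.left_inv hxe]; exact hxV)⟩
    obtain ⟨ε, hε, hball⟩ := Metric.isOpen_iff.1 hDV _ hz₀V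
    have hN : e.source ∩ e ⁻¹' Metric.ball (e x) ε ∈ 𝓝 x :=
      (e.isOpen_inter_preimage Metric.isOpen_ball).mem_nhds
        ⟨hxe, Metric.mem_ball_self hε⟩
    obtain ⟨y, hyN, hyA⟩ := mem_closure_iff_nhds.1 hx _ hN
    have hzero : ∀ k, (∀ b, k ≠ ρ b) → ∀ b, ∀ z ∈ Metric.ball (e x) ε,
        B (e.symm z) k b = 0 := by
      intro k hk b
      have han : AnalyticOnNhd ℂ (fun z => B (e.symm z) k b) (Metric.ball (e x) ε) :=
        ((hBd e heA k b).mono hball).analyticOnNhd Metric.isOpen_ball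
      have hev : (fun z => B (e.symm z) k b) =ᶠ[𝓝 (e y)] 0 := by
        have h1 : ∀ᶠ z in 𝓝 (e y), ∀ i, e.symm z ∈ UU 4 i → F i (e.symm z) = GS ρ :=
          (e.eventually_nhds' _ hyN.1).2 hyA
        filter_upwards [h1, hDV.mem_nhds (hball hyN.2)] with z hz1 hz2
        have h2 : (fun a => B (e.symm z) a b) ∈ F i (e.symm z) := by
          rw [← (hBs _ hz2.2).2]
          exact Submodule.subset_span ⟨b, rfl⟩
        rw [hz1 i (hVU hz2.2)] at h2
        exact h2 k hk
      exact fun z hz => han.eqOn_zero_of_preconnected_of_eventuallyEq_zero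
        (convex_ball _ _).isPreconnected hyN.2 hev hz
    show ∀ᶠ y in 𝓝 x, ∀ i, y ∈ UU 4 i → F i y = GS ρ
    filter_upwards [hN, hVo.mem_nhds hxV] with w hw hwV
    have hwe : e.symm (e w) = w := e.left_inv hw.1
    have hFi : F i w = GS ρ := by
      obtain ⟨h1, h2⟩ := hBs w hwV
      refine Submodule.eq_of_le_of_finrank_eq ?_ ?_
      · rw [← h2, Submodule.span_le]
        rintro _ ⟨b, rfl⟩ k hk
        have := hzero k hk b (e w) hw.2
        rwa [hwe] at this
      · rw [GS_finrank hρ, ← h2, finrank_span_eq_card h1, Fintype.card_fin]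
    intro j hj
    rw [← hFi]
    exact hgl j i w ⟨hj, hVU hwV⟩
  have _ := hG.surface.connected
  have hAu : A = Set.univ := IsClopen.eq_univ ⟨hAc, hAo⟩ h0
  intro i x hx
  have h1 : x ∈ A := by rw [hAu]; trivial
  exact h1.self_of_nhds i hx

/-- the index of the line -/
def rh1 : Fin 1 → Fin 3 := ![2]

/-- the indices of the plane -/
def rh2 : Fin 2 → Fin 3 := ![0, 1]

omit [ChartedSpace ℂ (SX 4)] in
theorem rh1_inj : Function.Injective rh1 := by
  intro a b _
  exact Subsingleton.elim a b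

omit [ChartedSpace ℂ (SX 4)] in
theorem rh2_inj : Function.Injective rh2 := by
  intro a b h
  fin_cases a <;> fin_cases b <;> simp_all [rh2]

omit [ChartedSpace ℂ (SX 4)] in
theorem mem_rh1 {v : Fin 3 → ℂ} : v ∈ GS rh1 ↔ v 0 = 0 ∧ v 1 = 0 := by
  constructor
  · intro h
    exact ⟨h 0 (by intro b; fin_cases b; simp [rh1]), h 1 (by intro b; fin_cases b; simp [rh1])⟩
  · rintro ⟨h0, h1⟩ k hk
    fin_cases k
    · exact h0
    · exact h1
    · exact absurd rfl (hk 0)

omit [ChartedSpace ℂ (SX 4)] in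
theorem mem_rh2 {v : Fin 3 → ℂ} : v ∈ GS rh2 ↔ v 2 = 0 := by
  constructor
  · intro h
    exact h 2 (by intro b; fin_cases b <;> simp [rh2])
  · intro h2 k hk
    fin_cases k
    · exact absurd rfl (hk 0)
    · exact absurd rfl (hk 1)
    · exact h2

omit [ChartedSpace ℂ (SX 4)] in
theorem blk_rh1 (R c : ℝ) (i : Bool) (w : ℂ) : ∀ v ∈ GS rh1, (blk R c i w).mulVec v ∈ GS rh1 := by
  intro v hv
  rw [mem_rh1] at hv ⊢
  obtain ⟨h0, h1⟩ := hv
  cases i <;> simp [blk, Matrix.mulVec, dotProduct, Fin.sum_univ_three, h0, h1]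

omit [ChartedSpace ℂ (SX 4)] in
theorem blk_rh2 (R c : ℝ) (i : Bool) (w : ℂ) : ∀ v ∈ GS rh2, (blk R c i w).mulVec v ∈ GS rh2 := by
  intro v hv
  rw [mem_rh2] at hv ⊢
  cases i <;> simp [blk, Matrix.mulVec, dotProduct, Fin.sum_univ_three, hv]

omit [ChartedSpace ℂ (SX 4)] in
theorem rh_compl : IsCompl (GS rh1) (GS rh2) := by
  apply GS_compl
  · intro k
    fin_cases k
    · left; intro b; fin_cases b; simp [rh1]
    · left; intro b; fin_cases b; simp [rh1]
    · right; intro b; fin_cases b <;> simp [rh2]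
  · intro k
    fin_cases k
    · right; exact ⟨0, rfl⟩
    · right; exact ⟨1, rfl⟩
    · left; exact ⟨0, rfl⟩

include hB hG in
/-- a point near which the plane block has no invariant line -/
theorem base_pt {R c : ℝ} (hR : 0 < R) (hc : 0 < c) : ∃ x₀ ∈ UU 4 false,
    ((R * VV 4 false x₀) ^ 2 - c : ℂ) = 0 ∧ ∀ e ∈ atlas ℂ (SX 4), x₀ ∈ e.source →
      AnalyticAt ℂ (fun z => ((R * VV 4 false (e.symm z)) ^ 2 - c : ℂ)) (e x₀) ∧
      deriv (fun z => ((R * VV 4 false (e.symm z)) ^ 2 - c : ℂ)) (e x₀) ≠ 0 := by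
  set s : ℝ := Real.sqrt c / R with hs
  have hs0 : 0 < s := div_pos (Real.sqrt_pos.2 hc) hR
  have hsR : (R * s) ^ 2 = c := by
    rw [hs, mul_div_cancel₀ _ hR.ne', Real.sq_sqrt hc.le]
  obtain ⟨y0, hy0⟩ := IsAlgClosed.exists_pow_nat_eq ((s : ℂ) ^ (4 * 4) + 1) (n := 4) (by norm_num)
  obtain ⟨x₀, hx₀, hV, hY⟩ := hB.surj false (s : ℂ) y0 hy0
  have hy0' : y0 ≠ 0 := by
    rintro rfl
    have h1 : ((s ^ 16 + 1 : ℝ) : ℂ) = 0 := by
      push_cast
      rw [← hy0]
      norm_num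
    have h2 : s ^ 16 + 1 = 0 := by exact_mod_cast h1
    have : 0 < s ^ 16 := pow_pos hs0 16
    linarith
  refine ⟨x₀, hx₀, ?_, ?_⟩
  · rw [hV]
    have : (((R * s) ^ 2 - c : ℝ) : ℂ) = 0 := by rw [hsR]; simp
    push_cast at this
    exact this
  · intro e he hxe
    have hz : e x₀ ∈ e.target ∩ e.symm ⁻¹' UU 4 false := TH_mem ⟨hx₀, hxe⟩
    have hVan : AnalyticAt ℂ (fun z => VV 4 false (e.symm z)) (e x₀) :=
      (hG.holoV e he false).analyticAt ((TH_open hB e false).mem_nhds hz)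
    refine ⟨((analyticAt_const.mul hVan).pow 2).sub analyticAt_const, ?_⟩
    have hd := TH_dV_ne hB hG he ⟨hx₀, hxe⟩ (by rw [hY]; exact hy0')
    have h1 := hVan.differentiableAt.hasDerivAt
    have h2 := ((h1.const_mul (R : ℂ)).fun_pow 2).sub_const (c : ℂ)
    rw [h2.deriv, e.left_inv hxe, hV]
    have hR' : (R : ℂ) ≠ 0 := by exact_mod_cast hR.ne'
    have hs' : (s : ℂ) ≠ 0 := by exact_mod_cast hs0.ne'
    simp [hR', hs', hd]

theorem start_one {R c : ℝ} (hR : 0 < R) (hc : 0 < c)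
    {F : Bool → SX 4 → Submodule ℂ (Fin 3 → ℂ)}
    (hF : IsHiggsSubbundle (EB hB hG R c) 1 F) :
    ∃ x₀ : SX 4, ∀ᶠ x in 𝓝 x₀, ∀ i, x ∈ UU 4 i → F i x = GS rh1 := by
  have hgl : ∀ i j, ∀ x ∈ UU 4 i ∩ UU 4 j, F i x = F j x := by
    intro i j x hx
    have := hF.glue i j x hx
    rw [this]
    show (F j x).map (Matrix.toLin' 1) = F j x
    rw [Matrix.toLin'_one, Submodule.map_id]
  obtain ⟨x₀, hx₀, hQ0, hQ⟩ := base_pt hB hG hR hc
  refine ⟨x₀, ?_⟩
  obtain ⟨B, V, hVo, hxV, hVU, hBd, hBs⟩ := hF.frame false x₀ hx₀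
  set e := chartAt ℂ x₀ with he
  have heA : e ∈ atlas ℂ (SX 4) := chart_mem_atlas ℂ x₀
  have hxe : x₀ ∈ e.source := mem_chart_source ℂ x₀
  obtain ⟨hQa, hQ1⟩ := hQ e heA hxe
  have hDV : IsOpen (e.target ∩ e.symm ⁻¹' V) := e.isOpen_inter_preimage_symm hVo
  have hz₀V : e x₀ ∈ e.target ∩ e.symm ⁻¹' V :=
    ⟨e.map_source hxe, Set.mem_preimage.2 (by rw [e.left_inv hxe]; exact hxV)⟩
  have hBan : ∀ a b, AnalyticAt ℂ (fun z => B (e.symm z) a b) (e x₀) := fun a b =>
    (hBd e heA a b).analyticAt (hDV.mem_nhds hz₀V)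
  have hrel : ∀ᶠ z in 𝓝 (e x₀), ((R * VV 4 false (e.symm z)) ^ 2 - c : ℂ) *
      B (e.symm z) 1 0 ^ 2 = B (e.symm z) 0 0 ^ 2 := by
    filter_upwards [hDV.mem_nhds hz₀V] with z hz
    have hxU := hVU hz.2
    have hxs : e.symm z ∈ e.source := e.map_target hz.1
    obtain ⟨h1, h2⟩ := hBs _ hz.2
    have h3 : (fun a => B (e.symm z) a 0) ∈ F false (e.symm z) := by
      rw [← h2]; exact Submodule.subset_span ⟨0, rfl⟩
    have h4 := hF.invariant false e heA (e.symm z) ⟨hxU, hxs⟩ _ h3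
    have h5 : (((R : ℂ) * om 4 false e (e.symm z)) • blk R c false
        (VV 4 false (e.symm z))).mulVec (fun a => B (e.symm z) a 0) ∈ F false (e.symm z) := h4
    rw [← h2, Submodule.mem_span_range_iff_exists_fun] at h5
    obtain ⟨l, hl⟩ := h5
    have h6 := congrFun hl 0
    have h7 := congrFun hl 1
    have ht : (R : ℂ) * om 4 false e (e.symm z) ≠ 0 :=
      mul_ne_zero (by exact_mod_cast hR.ne') (om_three (by norm_num) hB hG heA ⟨hxU, hxs⟩)
    generalize (R : ℂ) * om 4 false e (e.symm z) = t at *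
    generalize VV 4 false (e.symm z) = v at *
    simp [blk, Matrix.mulVec, dotProduct, Fin.sum_univ_three] at h6 h7
    have h8 : t * (((R * v) ^ 2 - c : ℂ) * B (e.symm z) 1 0 ^ 2 - B (e.symm z) 0 0 ^ 2) = 0 := by
      linear_combination (-B (e.symm z) 1 0) * h6 + B (e.symm z) 0 0 * h7
    rcases mul_eq_zero.1 h8 with h | h
    · exact absurd h ht
    · linear_combination h
  have hQ00 : ((R * VV 4 false (e.symm (e x₀))) ^ 2 - c : ℂ) = 0 := by
    rw [e.left_inv hxe]; exact hQ0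
  obtain ⟨h1, h2⟩ := sq_zero hQa (hBan 1 0) (hBan 0 0) hQ00 hQ1 hrel
  have h3 : ∀ᶠ z in 𝓝 (e x₀), F false (e.symm z) = GS rh1 := by
    filter_upwards [h1, h2, hDV.mem_nhds hz₀V] with z hz1 hz2 hz
    obtain ⟨k1, k2⟩ := hBs _ hz.2
    refine Submodule.eq_of_le_of_finrank_eq ?_ ?_
    · rw [← k2, Submodule.span_le]
      rintro _ ⟨b, rfl⟩
      have hb : b = 0 := Subsingleton.elim _ _
      subst hb
      exact mem_rh1.2 ⟨hz2, hz1⟩
    · rw [GS_finrank rh1_inj, ← k2, finrank_span_eq_card k1, Fintype.card_fin]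
  have h4 := (e.eventually_nhds' (fun x => F false x = GS rh1) hxe).1 h3
  filter_upwards [h4, (hB.isOpen_UU false).mem_nhds hx₀] with x hx1 hx2 i hi
  rw [← hx1]
  exact hgl i false x ⟨hi, hx2⟩

theorem start_two {R c : ℝ} (hR : 0 < R) (hc : 0 < c)
    {F : Bool → SX 4 → Submodule ℂ (Fin 3 → ℂ)}
    (hF : IsHiggsSubbundle (EB hB hG R c) 2 F) :
    ∃ x₀ : SX 4, ∀ᶠ x in 𝓝 x₀, ∀ i, x ∈ UU 4 i → F i x = GS rh2 := by
  have hgl : ∀ i j, ∀ x ∈ UU 4 i ∩ UU 4 j, F i x = F j x := by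
    intro i j x hx
    have := hF.glue i j x hx
    rw [this]
    show (F j x).map (Matrix.toLin' 1) = F j x
    rw [Matrix.toLin'_one, Submodule.map_id]
  obtain ⟨x₀, hx₀, hQ0, hQ⟩ := base_pt hB hG hR hc
  refine ⟨x₀, ?_⟩
  obtain ⟨B, V, hVo, hxV, hVU, hBd, hBs⟩ := hF.frame false x₀ hx₀
  set e := chartAt ℂ x₀ with he
  have heA : e ∈ atlas ℂ (SX 4) := chart_mem_atlas ℂ x₀
  have hxe : x₀ ∈ e.source := mem_chart_source ℂ x₀
  obtain ⟨hQa, hQ1⟩ := hQ e heA hxe
  have hDV : IsOpen (e.target ∩ e.symm ⁻¹' V) := e.isOpen_inter_preimage_symm hVo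
  have hz₀V : e x₀ ∈ e.target ∩ e.symm ⁻¹' V :=
    ⟨e.map_source hxe, Set.mem_preimage.2 (by rw [e.left_inv hxe]; exact hxV)⟩
  have hBan : ∀ a b, AnalyticAt ℂ (fun z => B (e.symm z) a b) (e x₀) := fun a b =>
    (hBd e heA a b).analyticAt (hDV.mem_nhds hz₀V)
  have hN0 : AnalyticAt ℂ (fun z => B (e.symm z) 1 0 * B (e.symm z) 2 1 -
      B (e.symm z) 2 0 * B (e.symm z) 1 1) (e x₀) :=
    ((hBan 1 0).mul (hBan 2 1)).sub ((hBan 2 0).mul (hBan 1 1))
  have hN1 : AnalyticAt ℂ (fun z => B (e.symm z) 2 0 * B (e.symm z) 0 1 -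
      B (e.symm z) 0 0 * B (e.symm z) 2 1) (e x₀) :=
    ((hBan 2 0).mul (hBan 0 1)).sub ((hBan 0 0).mul (hBan 2 1))
  have hrel : ∀ᶠ z in 𝓝 (e x₀), ((R * VV 4 false (e.symm z)) ^ 2 - c : ℂ) *
      (B (e.symm z) 1 0 * B (e.symm z) 2 1 - B (e.symm z) 2 0 * B (e.symm z) 1 1) ^ 2 =
      (B (e.symm z) 2 0 * B (e.symm z) 0 1 - B (e.symm z) 0 0 * B (e.symm z) 2 1) ^ 2 := by
    filter_upwards [hDV.mem_nhds hz₀V] with z hz
    have hxU := hVU hz.2
    have hxs : e.symm z ∈ e.source := e.map_target hz.1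
    obtain ⟨h1, h2⟩ := hBs _ hz.2
    have h3 : ∀ b, (fun a => B (e.symm z) a b) ∈ F false (e.symm z) := by
      intro b
      rw [← h2]; exact Submodule.subset_span ⟨b, rfl⟩
    have h3' : B (e.symm z) 2 0 • (fun a => B (e.symm z) a 1) -
        B (e.symm z) 2 1 • (fun a => B (e.symm z) a 0) ∈ F false (e.symm z) :=
      Submodule.sub_mem _ (Submodule.smul_mem _ _ (h3 1)) (Submodule.smul_mem _ _ (h3 0))
    have h4 := hF.invariant false e heA (e.symm z) ⟨hxU, hxs⟩ _ h3'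
    have h5 : (((R : ℂ) * om 4 false e (e.symm z)) • blk R c false
        (VV 4 false (e.symm z))).mulVec (B (e.symm z) 2 0 • (fun a => B (e.symm z) a 1) -
        B (e.symm z) 2 1 • (fun a => B (e.symm z) a 0)) ∈ F false (e.symm z) := h4
    rw [← h2, Submodule.mem_span_range_iff_exists_fun] at h5
    obtain ⟨l, hl⟩ := h5
    have h6 := congrFun hl 0
    have h7 := congrFun hl 1
    have h8 := congrFun hl 2
    have ht : (R : ℂ) * om 4 false e (e.symm z) ≠ 0 :=
      mul_ne_zero (by exact_mod_cast hR.ne') (om_three (by norm_num) hB hG heA ⟨hxU, hxs⟩)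
    generalize (R : ℂ) * om 4 false e (e.symm z) = t at *
    generalize VV 4 false (e.symm z) = v at *
    generalize B (e.symm z) = b at *
    simp [blk, Matrix.mulVec, dotProduct, Fin.sum_univ_three, Fin.sum_univ_two] at h6 h7 h8
    have h9 : t * (((R * v) ^ 2 - c : ℂ) * (b 1 0 * b 2 1 - b 2 0 * b 1 1) ^ 2 -
        (b 2 0 * b 0 1 - b 0 0 * b 2 1) ^ 2) = 0 := by
      linear_combination (b 1 0 * b 2 1 - b 2 0 * b 1 1) * h6 +
        (b 2 0 * b 0 1 - b 0 0 * b 2 1) * h7 + (b 0 0 * b 1 1 - b 1 0 * b 0 1) * h8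
    rcases mul_eq_zero.1 h9 with h | h
    · exact absurd h ht
    · linear_combination h
  have hQ00 : ((R * VV 4 false (e.symm (e x₀))) ^ 2 - c : ℂ) = 0 := by
    rw [e.left_inv hxe]; exact hQ0
  obtain ⟨h1, h2⟩ := sq_zero hQa hN0 hN1 hQ00 hQ1 hrel
  have h3 : ∀ᶠ z in 𝓝 (e x₀), F false (e.symm z) = GS rh2 := by
    filter_upwards [h1, h2, hDV.mem_nhds hz₀V] with z hz1 hz2 hz
    obtain ⟨k1, k2⟩ := hBs _ hz.2
    have h9 : ∀ b, B (e.symm z) 2 b = 0 := by
      have k3 := Fintype.linearIndependent_iff.1 k1 ![-B (e.symm z) 2 1, B (e.symm z) 2 0] (by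
        funext a
        simp only [Finset.sum_apply, Pi.smul_apply, smul_eq_mul, Pi.zero_apply,
          Fin.sum_univ_two, Matrix.cons_val_zero, Matrix.cons_val_one]
        fin_cases a
        · show -B (e.symm z) 2 1 * B (e.symm z) 0 0 + B (e.symm z) 2 0 * B (e.symm z) 0 1 = 0
          linear_combination hz2
        · show -B (e.symm z) 2 1 * B (e.symm z) 1 0 + B (e.symm z) 2 0 * B (e.symm z) 1 1 = 0
          linear_combination -hz1
        · show -B (e.symm z) 2 1 * B (e.symm z) 2 0 + B (e.symm z) 2 0 * B (e.symm z) 2 1 = 0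
          ring)
      intro b
      fin_cases b
      · have := k3 1
        simpa using this
      · have := k3 0
        simpa using this
    refine Submodule.eq_of_le_of_finrank_eq ?_ ?_
    · rw [← k2, Submodule.span_le]
      rintro _ ⟨b, rfl⟩
      exact mem_rh2.2 (h9 b)
    · rw [GS_finrank rh2_inj, ← k2, finrank_span_eq_card k1, Fintype.card_fin]
  have h4 := (e.eventually_nhds' (fun x => F false x = GS rh2) hxe).1 h3
  filter_upwards [h4, (hB.isOpen_UU false).mem_nhds hx₀] with x hx1 hx2 i hi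
  rw [← hx1]
  exact hgl i false x ⟨hi, hx2⟩

/-- **the bundle `EB` is polystable** -/
theorem EB_polystable {R c : ℝ} (hR : 0 < R) (hc : 0 < c) :
    IsPolystable (EB hB hG R c) := by
  intro r hr0 hr3 F hF
  right
  have hr : r = 1 ∨ r = 2 := by omega
  rcases hr with rfl | rfl
  · have h1 : ∀ i, ∀ x ∈ UU 4 i, F i x = GS rh1 :=
      sub_eq hB hG hF rh1_inj (start_one hB hG hR hc hF)
    refine ⟨const_deg hB hG rh1_inj R c h1, fun _ _ => GS rh2,
      const_sub hB hG rh2_inj R c (blk_rh2 R c), ?_⟩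
    intro i x hx
    rw [h1 i x hx]
    exact rh_compl
  · have h1 : ∀ i, ∀ x ∈ UU 4 i, F i x = GS rh2 :=
      sub_eq hB hG hF rh2_inj (start_two hB hG hR hc hF)
    refine ⟨const_deg hB hG rh2_inj R c h1, fun _ _ => GS rh1,
      const_sub hB hG rh1_inj R c (blk_rh1 R c), ?_⟩
    intro i x hx
    rw [h1 i x hx]
    exact rh_compl.symm

end

end Pool.Agent.H794
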