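import Pool.Agent.H794.Uniq

/-!
# The harmonic metrics of the direct sum are diagonal
-/

set_option autoImplicit false

open scoped Manifold ContDiff Matrix ComplexOrder
open Matrix Topology Set Filter

namespace Pool.Agent.H794

open Pool.Agent.Helper614.HE Pool.Agent.Helper614.HE.P_UN1 Pool.Agent.Helper614.HE.P_UN2

section

variable {X : Type} [TopologicalSpace X] [ChartedSpace ℂ X] {E : HiggsBundle 3 X}

theorem mk_hm {h : E.ι → X → M3} (h1 : ∀ i, ∀ x ∈ E.U i, (h i x).PosDef)
    (h2 : ∀ i, ∀ x ∈ E.U i, (h i x).det = 1)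
    (h3 : ∀ i j, ∀ x ∈ E.U i ∩ E.U j, h j x = (E.g i j x)ᴴ * h i x * E.g i j x)
    (h4 : ∀ i, ∀ e ∈ atlas ℂ X, ∀ z ∈ e.target, e.symm z ∈ E.U i → ∀ a b,
      ContDiffAt ℝ ∞ (fun w => h i (e.symm w) a b) z)
    (h5 : ∀ i, ∀ e ∈ atlas ℂ X, ∀ z ∈ e.target, e.symm z ∈ E.U i →
      Hit (fun w => h i (e.symm w)) (E.φ i e (e.symm z)) z) :
    IsHarmonicMetric E 1 h where
  posDef := h1
  det := h2
  glue := h3
  smooth := fun i e he a b z hz => (h4 i e he z hz.1 hz.2 a b).contDiffWithinAt
  hitchin := by
    intro i e he x hx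
    have hz : e x ∈ e.target := e.map_source hx.2
    have hi : e.symm (e x) ∈ E.U i := by rw [e.left_inv hx.2]; exact hx.1
    have h6 : mdzb (fun w => (h i (e.symm w))⁻¹ * mdz (fun w => h i (e.symm w)) w) (e x) =
      E.φ i e (e.symm (e x)) * adj (h i (e.symm (e x))) (E.φ i e (e.symm (e x))) -
        adj (h i (e.symm (e x))) (E.φ i e (e.symm (e x))) * E.φ i e (e.symm (e x)) :=
      h5 i e he (e x) hz hi
    rw [e.left_inv hx.2] at h6
    rw [Complex.ofReal_one, one_smul]
    exact h6

end

theorem posDef_conj {H G : M3} (hH : H.PosDef) (hG : IsUnit G) : (Gᴴ * H * G).PosDef :=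
  hH.conjTranspose_mul_mul_same (Matrix.mulVec_injective_of_isUnit hG)

/-- commutators do not see the central part -/
theorem comm_block {H D N : M3} {α β : ℂ} (hD : adj H D = D) (hH : H.PosDef) (hN : D * N = N * D) :
    (α • (1 : M3) + β • D + N) * adj H (α • (1 : M3) + β • D + N) -
      adj H (α • (1 : M3) + β • D + N) * (α • (1 : M3) + β • D + N) =
      N * adj H N - adj H N * N := by
  have h1 : adj H (1 : M3) = 1 := by
    have uH : IsUnit H.det := (Matrix.isUnit_iff_isUnit_det _).mp hH.isUnit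
    rw [adj, Matrix.conjTranspose_one, Matrix.mul_one, Matrix.nonsing_inv_mul _ uH]
  have h2 : D * adj H N = adj H N * D := by
    have := congrArg (adj H) hN
    rw [adj_mul hH, adj_mul hH, hD] at this
    exact this.symm
  have h3 : ∀ a : ℂ, ∀ Y : M3, adj H (a • Y) = star a • adj H Y := fun a Y => by
    rw [adj, adj, Matrix.conjTranspose_smul, Matrix.mul_smul, Matrix.smul_mul]
  rw [adj_add, adj_add, h3, h3, h1, hD]
  simp only [Matrix.add_mul, Matrix.mul_add, Matrix.smul_mul, Matrix.mul_smul, Matrix.one_mul,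
    Matrix.mul_one, smul_smul, h2, hN, smul_add]
  rw [mul_comm (star α) α, mul_comm (star α) β, mul_comm (star β) α, mul_comm (star β) β]
  abel

/-- the signature matrices -/
def sgD : M3 := Matrix.diagonal ![1, 1, -1]
def sgD' : M3 := Matrix.diagonal ![1, -1, 1]

theorem sgD_sq : sgD * sgD = 1 := by
  rw [sgD, Matrix.diagonal_mul_diagonal, ← Matrix.diagonal_one]
  congr 1; funext a; fin_cases a <;> simp

theorem sgD'_sq : sgD' * sgD' = 1 := by
  rw [sgD', Matrix.diagonal_mul_diagonal, ← Matrix.diagonal_one]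
  congr 1; funext a; fin_cases a <;> simp

theorem sgD_ct : sgDᴴ = sgD := by
  rw [sgD, Matrix.diagonal_conjTranspose]
  congr 1; funext a; fin_cases a <;> simp

theorem sgD'_ct : sgD'ᴴ = sgD' := by
  rw [sgD', Matrix.diagonal_conjTranspose]
  congr 1; funext a; fin_cases a <;> simp

theorem isUnit_of_sq {D : M3} (h : D * D = 1) : IsUnit D := IsUnit.of_mul_eq_one D h

theorem det_of_sq {D : M3} (h : D * D = 1) : D.det * D.det = 1 := by
  rw [← Matrix.det_mul, h, Matrix.det_one]

theorem blk_comm (r c : ℝ) (j : Bool) (v : ℂ) : sgD * blk r c j v = blk r c j v * sgD := by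
  cases j <;> ext a b <;> fin_cases a <;> fin_cases b <;>
    simp [blk, sgD, Matrix.diagonal_mul, Matrix.mul_diagonal]

/-- the decomposition of the block matrix -/
theorem blk_dec (r c : ℝ) (j : Bool) (v : ℂ) : ∃ (α β : ℂ) (N : M3), sgD * N = N * sgD ∧
    blk r c j v = α • (1 : M3) + β • sgD + N ∧
    sgD' * (α • (1 : M3) + β • sgD + -N) = (α • (1 : M3) + β • sgD + N) * sgD' := by
  cases j
  · refine ⟨r * v / 6, -(r * v / 2), !![0, (r * v) ^ 2 - c, 0; 1, 0, 0; 0, 0, 0], ?_, ?_, ?_⟩
    · ext a b; fin_cases a <;> fin_cases b <;>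
        simp [sgD, Matrix.diagonal_mul, Matrix.mul_diagonal]
    · ext a b; fin_cases a <;> fin_cases b <;> simp [blk, sgD] <;> ring
    · ext a b; fin_cases a <;> fin_cases b <;>
        simp [sgD, sgD', Matrix.diagonal_mul, Matrix.mul_diagonal]
  · refine ⟨-(r / 6 * v ^ 9), r / 2 * v ^ 9,
      !![0, -(r ^ 2 * v ^ 8 - c * v ^ 10), 0; -(v ^ 10), 0, 0; 0, 0, 0], ?_, ?_, ?_⟩
    · ext a b; fin_cases a <;> fin_cases b <;>
        simp [sgD, Matrix.diagonal_mul, Matrix.mul_diagonal]
    · ext a b; fin_cases a <;> fin_cases b <;> simp [blk, sgD] <;> ring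
    · ext a b; fin_cases a <;> fin_cases b <;>
        simp [sgD, sgD', Matrix.diagonal_mul, Matrix.mul_diagonal]

/-- matrices which commute with the block matrices -/
theorem blk_commutant {r c : ℝ} (hr : r ≠ 0) (hc : c ≠ 0) {g : M3}
    (h : ∀ v : ℂ, g * blk r c false v = blk r c false v * g) :
    g = Matrix.diagonal ![g 0 0, g 0 0, g 2 2] := by
  have hc' : (c : ℂ) ≠ 0 := by exact_mod_cast hc
  have hr' : (r : ℂ) ≠ 0 := by exact_mod_cast hr
  have h0 := h 0
  have h1 := h (r : ℂ)⁻¹
  have hr1 : (r : ℂ) * (r : ℂ)⁻¹ = 1 := mul_inv_cancel₀ hr'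
  have a00 := congrFun (congrFun h0 0) 0
  have a01 := congrFun (congrFun h0 0) 1
  have a02 := congrFun (congrFun h0 0) 2
  have a10 := congrFun (congrFun h0 1) 0
  have a12 := congrFun (congrFun h0 1) 2
  have a20 := congrFun (congrFun h0 2) 0
  have a21 := congrFun (congrFun h0 2) 1
  have b01 := congrFun (congrFun h1 0) 1
  have b00 := congrFun (congrFun h1 0) 0
  have b11 := congrFun (congrFun h1 1) 1
  simp [blk, Matrix.mul_apply, Fin.sum_univ_three, hc'] at a00 a01 a02 a10 a12 a20 a21
  simp [blk, Matrix.mul_apply, Fin.sum_univ_three, hr1] at b00 b01 b11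
  have g10 : g 1 0 = 0 := by
    have : g 1 0 = 0 := by linear_combination b11 + a00
    exact this
  have g01 : g 0 1 = 0 := by rw [a00, g10]; simp
  ext a b
  fin_cases a <;> fin_cases b <;> simp [g10, g01, a02, a12, a20, a21, a10]

section

variable [ChartedSpace ℂ (SX 4)] {hB : SBasic 4} {hG : SGood 4}

/-- the comparison of two harmonic metrics of the direct sum -/
theorem EB_compare {r c : ℝ} (hr : r ≠ 0) (hc : c ≠ 0) {h₁ h₂ : Bool → SX 4 → M3}
    (H1 : IsHarmonicMetric (EB hB hG r c) 1 h₁) (H2 : IsHarmonicMetric (EB hB hG r c) 1 h₂) :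
    ∃ α β : ℂ, ∀ i, ∀ x ∈ UU 4 i, h₁ i x = h₂ i x * Matrix.diagonal ![α, α, β] := by
  classical
  have hX := hG.surface
  have e1 : ∀ i j, ∀ x ∈ UU 4 i ∩ UU 4 j, h₁ j x = h₁ i x := by
    intro i j x hx
    have := H1.glue i j x hx
    have e : (EB hB hG r c).g i j x = 1 := rfl
    rw [e, Matrix.conjTranspose_one, Matrix.one_mul, Matrix.mul_one] at this
    exact this
  have e2 : ∀ i j, ∀ x ∈ UU 4 i ∩ UU 4 j, h₂ j x = h₂ i x := by
    intro i j x hx
    have := H2.glue i j x hx
    have e : (EB hB hG r c).g i j x = 1 := rfl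
    rw [e, Matrix.conjTranspose_one, Matrix.one_mul, Matrix.mul_one] at this
    exact this
  let ix : SX 4 → Bool := fun x => if x ∈ UU 4 false then false else true
  have hix : ∀ x, x ∈ UU 4 (ix x) := by
    intro x
    by_cases hx : x ∈ UU 4 false
    · have : ix x = false := if_pos hx
      rw [this]; exact hx
    · have : ix x = true := if_neg hx
      rw [this]; exact (hB.cover x).resolve_left hx
  let g : SX 4 → M3 := fun x => (h₂ (ix x) x)⁻¹ * h₁ (ix x) x
  have hg : ∀ i, ∀ x ∈ UU 4 i, g x = (h₂ i x)⁻¹ * h₁ i x := by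
    intro i x hx
    show (h₂ (ix x) x)⁻¹ * h₁ (ix x) x = _
    rw [e1 i (ix x) x ⟨hx, hix x⟩, e2 i (ix x) x ⟨hx, hix x⟩]
  have hhol : ∀ a b, ∀ e ∈ atlas ℂ (SX 4), ∀ z ∈ e.target,
      DifferentiableAt ℂ (fun w => g (e.symm w) a b) z := by
    intro a b e he z hz
    have hi := hix (e.symm z)
    have key := (compare hX H1 H2 he hz hi).2 a b
    refine key.congr_of_eventuallyEq ?_
    filter_upwards [(chart_open (EB hB hG r c) (ix (e.symm z)) e).mem_nhds ⟨hz, hi⟩] with w hw
    rw [hg _ _ hw.2]
  have hconst : ∀ x y, g x = g y := by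
    intro x y
    ext a b
    exact holo_const hX (F := fun x => g x a b) (hhol a b) x y
  obtain ⟨x0, hx0, -, -⟩ := hB.surj false 0 1 (by norm_num)
  have hcomm : ∀ v : ℂ, g x0 * blk r c false v = blk r c false v * g x0 := by
    intro v
    obtain ⟨b, hb⟩ := IsAlgClosed.exists_pow_nat_eq (v ^ (4 * 4) + 1) (n := 4) (by norm_num)
    obtain ⟨x, hx, hV, -⟩ := hB.surj false v b hb
    set e := chartAt ℂ x with he
    have hea : e ∈ atlas ℂ (SX 4) := chart_mem_atlas ℂ x
    have hxe : x ∈ e.source := mem_chart_source ℂ x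
    have hz : e x ∈ e.target := e.map_source hxe
    have hsx : e.symm (e x) = x := e.left_inv hxe
    have hi : e.symm (e x) ∈ (EB hB hG r c).U false := by rw [hsx]; exact hx
    have key := (compare hX H1 H2 hea hz hi).1
    rw [hsx] at key
    have e3 : (EB hB hG r c).φ false e x = ((r : ℂ) * om 4 false e x) • blk r c false v := by
      show ((r : ℂ) * om 4 false e x) • blk r c false (VV 4 false x) = _
      rw [hV]
    rw [e3, ← hg false x hx, Matrix.mul_smul, Matrix.smul_mul, hconst x x0] at key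
    have hne : (r : ℂ) * om 4 false e x ≠ 0 :=
      mul_ne_zero (by exact_mod_cast hr) (om_three (by norm_num) hB hG hea ⟨hx, hxe⟩)
    exact smul_right_injective _ hne key
  have hd := blk_commutant hr hc hcomm
  refine ⟨g x0 0 0, g x0 2 2, fun i x hx => ?_⟩
  rw [← hd, hconst x0 x, hg i x hx, ← Matrix.mul_assoc]
  have hdet : IsUnit (h₂ i x).det := by rw [H2.det i x hx]; exact isUnit_one
  rw [Matrix.mul_nonsing_inv _ hdet, Matrix.one_mul]

/-- first symmetry -/
theorem EB_block {r c : ℝ} (hr : r ≠ 0) (hc : c ≠ 0) {h : Bool → SX 4 → M3}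
    (H : IsHarmonicMetric (EB hB hG r c) 1 h) :
    ∀ i, ∀ x ∈ UU 4 i, sgD * h i x * sgD = h i x := by
  have H' : IsHarmonicMetric (EB hB hG r c) 1 (fun i x => sgD * h i x * sgD) := by
    refine mk_hm ?_ ?_ ?_ ?_ ?_
    · intro i x hx
      have := posDef_conj (H.posDef i x hx) (isUnit_of_sq sgD_sq)
      rwa [sgD_ct] at this
    · intro i x hx
      rw [Matrix.det_mul, Matrix.det_mul, H.det i x hx, mul_one]
      exact det_of_sq sgD_sq
    · intro i j x hx
      have := H.glue i j x hx
      have e : (EB hB hG r c).g i j x = 1 := rfl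
      rw [e, Matrix.conjTranspose_one, Matrix.one_mul, Matrix.mul_one] at this ⊢
      rw [this]
    · intro i e he z hz hi a b
      have h1 := hm_cd H he hz hi a b
      have h2 : (fun w => (sgD * h i (e.symm w) * sgD) a b) = fun w =>
          (![1, 1, -1] : Fin 3 → ℂ) a * h i (e.symm w) a b * (![1, 1, -1] : Fin 3 → ℂ) b := by
        funext w
        rw [sgD, Matrix.mul_diagonal, Matrix.diagonal_mul]
      rw [h2]
      exact (contDiffAt_const.mul h1).mul contDiffAt_const
    · intro i e he z hz hi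
      have h1 := hm_hit H he hz hi
      have h2 := h1.conj (G := fun _ => sgD) (P := (EB hB hG r c).φ i e (e.symm z))
        (hm_pos H hz hi) (fun a b => hm_cd2 H he hz hi a b)
        (Filter.Eventually.of_forall fun w => ⟨fun a b => differentiableAt_const _, by
          intro h0
          have := det_of_sq sgD_sq
          rw [h0] at this
          simp at this⟩)
        (by
          show sgD * ((r * om 4 i e (e.symm z)) • blk r c i (VV 4 i (e.symm z))) =
            ((r * om 4 i e (e.symm z)) • blk r c i (VV 4 i (e.symm z))) * sgD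
          rw [Matrix.mul_smul, Matrix.smul_mul, blk_comm])
      rw [sgD_ct] at h2
      exact h2
  obtain ⟨α, β, hab⟩ := EB_compare hr hc H' H
  intro i x hx
  have h1 := hab i x hx
  have hp := H.posDef i x hx
  have h00 : h i x 0 0 ≠ 0 := (hp.diag_pos (i := 0)).ne'
  have h22 : h i x 2 2 ≠ 0 := (hp.diag_pos (i := 2)).ne'
  have a00 := congrFun (congrFun h1 0) 0
  have a22 := congrFun (congrFun h1 2) 2
  rw [sgD, Matrix.mul_diagonal, Matrix.diagonal_mul, Matrix.mul_diagonal] at a00 a22
  simp at a00 a22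
  have hα : α = 1 := by
    have h3 : h i x 0 0 * (α - 1) = 0 := by linear_combination (-1 : ℂ) * a00
    rcases mul_eq_zero.1 h3 with h | h
    · exact absurd h h00
    · exact sub_eq_zero.1 h
  have hβ : β = 1 := by
    have h3 : h i x 2 2 * (β - 1) = 0 := by linear_combination (-1 : ℂ) * a22
    rcases mul_eq_zero.1 h3 with h | h
    · exact absurd h h22
    · exact sub_eq_zero.1 h
  have e1 : Matrix.diagonal ![α, α, β] = (1 : M3) := by
    rw [hα, hβ, ← Matrix.diagonal_one]
    congr 1; funext a; fin_cases a <;> simp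
  rw [e1, Matrix.mul_one] at h1
  exact h1

/-- second symmetry -/
theorem EB_block' {r c : ℝ} (hr : r ≠ 0) (hc : c ≠ 0) {h : Bool → SX 4 → M3}
    (H : IsHarmonicMetric (EB hB hG r c) 1 h) :
    ∀ i, ∀ x ∈ UU 4 i, sgD' * h i x * sgD' = h i x := by
  have H' : IsHarmonicMetric (EB hB hG r c) 1 (fun i x => sgD' * h i x * sgD') := by
    refine mk_hm ?_ ?_ ?_ ?_ ?_
    · intro i x hx
      have := posDef_conj (H.posDef i x hx) (isUnit_of_sq sgD'_sq)
      rwa [sgD'_ct] at this
    · intro i x hx
      rw [Matrix.det_mul, Matrix.det_mul, H.det i x hx, mul_one]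
      exact det_of_sq sgD'_sq
    · intro i j x hx
      have := H.glue i j x hx
      have e : (EB hB hG r c).g i j x = 1 := rfl
      rw [e, Matrix.conjTranspose_one, Matrix.one_mul, Matrix.mul_one] at this ⊢
      rw [this]
    · intro i e he z hz hi a b
      have h1 := hm_cd H he hz hi a b
      have h2 : (fun w => (sgD' * h i (e.symm w) * sgD') a b) = fun w =>
          (![1, -1, 1] : Fin 3 → ℂ) a * h i (e.symm w) a b * (![1, -1, 1] : Fin 3 → ℂ) b := by
        funext w
        rw [sgD', Matrix.mul_diagonal, Matrix.diagonal_mul]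
      rw [h2]
      exact (contDiffAt_const.mul h1).mul contDiffAt_const
    · intro i e he z hz hi
      have h1 := hm_hit H he hz hi
      obtain ⟨α, β, N, n1, n2, n3⟩ := blk_dec r c i (VV 4 i (e.symm z))
      set t : ℂ := r * om 4 i e (e.symm z) with ht
      have hφ : (EB hB hG r c).φ i e (e.symm z) =
          (t * α) • (1 : M3) + (t * β) • sgD + t • N := by
        show t • blk r c i (VV 4 i (e.symm z)) = _
        rw [n2, smul_add, smul_add, smul_smul, smul_smul]
      have hpz := H.posDef i _ hi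
      have hDadj : adj (h i (e.symm z)) sgD = sgD := by
        have h3 := EB_block hr hc H i _ hi
        have uH : IsUnit (h i (e.symm z)).det := by rw [H.det i _ hi]; exact isUnit_one
        have h4 : sgD * h i (e.symm z) = h i (e.symm z) * sgD := by
          calc sgD * h i (e.symm z) = sgD * h i (e.symm z) * (sgD * sgD) := by
                rw [sgD_sq, Matrix.mul_one]
            _ = (sgD * h i (e.symm z) * sgD) * sgD := by simp only [Matrix.mul_assoc]
            _ = _ := by rw [h3]
        rw [adj, sgD_ct, Matrix.mul_assoc, h4, ← Matrix.mul_assoc, Matrix.nonsing_inv_mul _ uH,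
          Matrix.one_mul]
      have hN : sgD * (t • N) = (t • N) * sgD := by
        rw [Matrix.mul_smul, Matrix.smul_mul, n1]
      have hN' : sgD * (-(t • N)) = (-(t • N)) * sgD := by
        rw [Matrix.mul_neg, hN, Matrix.neg_mul]
      have k1 := comm_block (α := t * α) (β := t * β) hDadj hpz hN
      have k2 := comm_block (α := t * α) (β := t * β) hDadj hpz hN'
      have hadjn : adj (h i (e.symm z)) (-(t • N)) = -adj (h i (e.symm z)) (t • N) := by
        rw [adj, adj, Matrix.conjTranspose_neg, Matrix.mul_neg, Matrix.neg_mul]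
      rw [hadjn, neg_mul_neg, neg_mul_neg, ← k1] at k2
      -- the solution for the other Higgs field
      have h3 : Hit (fun w => h i (e.symm w)) ((t * α) • (1 : M3) + (t * β) • sgD + -(t • N)) z := by
        unfold Hit
        have h4 := h1
        unfold Hit at h4
        rw [h4, hφ]
        exact k2.symm
      have h5 := h3.conj (G := fun _ => sgD') (P := (EB hB hG r c).φ i e (e.symm z))
        (hm_pos H hz hi) (fun a b => hm_cd2 H he hz hi a b)
        (Filter.Eventually.of_forall fun w => ⟨fun a b => differentiableAt_const _, by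
          intro h0
          have := det_of_sq sgD'_sq
          rw [h0] at this
          simp at this⟩)
        (by
          rw [hφ]
          have n4 : (t * α) • (1 : M3) + (t * β) • sgD + t • N =
              t • (α • (1 : M3) + β • sgD + N) := by
            rw [smul_add, smul_add, smul_smul, smul_smul]
          have n5 : (t * α) • (1 : M3) + (t * β) • sgD + -(t • N) =
              t • (α • (1 : M3) + β • sgD + -N) := by
            rw [smul_add, smul_add, smul_smul, smul_smul, smul_neg]
          rw [n4, n5, Matrix.mul_smul, Matrix.smul_mul]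
          congr 1
          have n6 : sgD' * (sgD' * (α • (1 : M3) + β • sgD + -N)) * sgD' =
              sgD' * ((α • (1 : M3) + β • sgD + N) * sgD') * sgD' := by rw [n3]
          rw [← Matrix.mul_assoc, sgD'_sq, Matrix.one_mul, ← Matrix.mul_assoc,
            Matrix.mul_assoc (sgD' * _) sgD' sgD', sgD'_sq, Matrix.mul_one] at n6
          exact n6.symm)
      rw [sgD'_ct] at h5
      exact h5
  obtain ⟨α, β, hab⟩ := EB_compare hr hc H' H
  intro i x hx
  have h1 := hab i x hx
  have hp := H.posDef i x hx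
  have h00 : h i x 0 0 ≠ 0 := (hp.diag_pos (i := 0)).ne'
  have h22 : h i x 2 2 ≠ 0 := (hp.diag_pos (i := 2)).ne'
  have a00 := congrFun (congrFun h1 0) 0
  have a22 := congrFun (congrFun h1 2) 2
  rw [sgD', Matrix.mul_diagonal, Matrix.diagonal_mul, Matrix.mul_diagonal] at a00 a22
  simp at a00 a22
  have hα : α = 1 := by
    have h3 : h i x 0 0 * (α - 1) = 0 := by linear_combination (-1 : ℂ) * a00
    rcases mul_eq_zero.1 h3 with h | h
    · exact absurd h h00
    · exact sub_eq_zero.1 h
  have hβ : β = 1 := by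
    have h3 : h i x 2 2 * (β - 1) = 0 := by linear_combination (-1 : ℂ) * a22
    rcases mul_eq_zero.1 h3 with h | h
    · exact absurd h h22
    · exact sub_eq_zero.1 h
  have e1 : Matrix.diagonal ![α, α, β] = (1 : M3) := by
    rw [hα, hβ, ← Matrix.diagonal_one]
    congr 1; funext a; fin_cases a <;> simp
  rw [e1, Matrix.mul_one] at h1
  exact h1

/-- the harmonic metrics are diagonal -/
theorem EB_diag {r c : ℝ} (hr : r ≠ 0) (hc : c ≠ 0) {h : Bool → SX 4 → M3}
    (H : IsHarmonicMetric (EB hB hG r c) 1 h) (i : Bool) (x : SX 4) (hx : x ∈ UU 4 i) :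
    h i x = Matrix.diagonal ![h i x 0 0, h i x 1 1, h i x 2 2] := by
  have h1 := EB_block hr hc H i x hx
  have h2 := EB_block' hr hc H i x hx
  have key : ∀ a b : Fin 3, (![1, 1, -1] : Fin 3 → ℂ) a * h i x a b * (![1, 1, -1] : Fin 3 → ℂ) b =
      h i x a b := by
    intro a b
    have := congrFun (congrFun h1 a) b
    rwa [sgD, Matrix.mul_diagonal, Matrix.diagonal_mul] at this
  have key' : ∀ a b : Fin 3, (![1, -1, 1] : Fin 3 → ℂ) a * h i x a b *
      (![1, -1, 1] : Fin 3 → ℂ) b = h i x a b := by
    intro a b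
    have := congrFun (congrFun h2 a) b
    rwa [sgD', Matrix.mul_diagonal, Matrix.diagonal_mul] at this
  have z : ∀ w : ℂ, -w = w → w = 0 := fun w hw => by
    have : (2 : ℂ) * w = 0 := by linear_combination -hw
    simpa using this
  have k01 : h i x 0 1 = 0 := z _ (by simpa using key' 0 1)
  have k10 : h i x 1 0 = 0 := z _ (by simpa using key' 1 0)
  have k02 : h i x 0 2 = 0 := z _ (by simpa using key 0 2)
  have k20 : h i x 2 0 = 0 := z _ (by simpa using key 2 0)
  have k12 : h i x 1 2 = 0 := z _ (by simpa using key 1 2)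
  have k21 : h i x 2 1 = 0 := z _ (by simpa using key 2 1)
  ext a b
  fin_cases a <;> fin_cases b <;> simp [k01, k10, k02, k20, k12, k21]

end

end Pool.Agent.H794
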