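import Pool.Agent.H794.Disc

/-!
# The estimate of the projection
-/

set_option autoImplicit false

open scoped Manifold ContDiff Matrix ComplexOrder
open Matrix Topology Set Filter

namespace Pool.Agent.H794

open Pool.Agent.Helper614.HE Pool.Agent.Helper614.HE.P_UN1 Pool.Agent.Helper614.HE.P_UN2

theorem ball_open_mem {R : ℝ} {x : ℂ} (hx : ‖x‖ < R) : ∀ᶠ y in 𝓝 x, ‖y‖ < R :=
  (continuous_norm.continuousAt).eventually (gt_mem_nhds hx)

/-- Bochner's inequality for a solution on a disc -/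
theorem Sol.boch {R : ℝ} {H : ℂ → M3} {w : ℂ → ℂ} {Φ : ℂ → M3} (h : Sol R H w Φ) {S : ℂ → M3}
    (hS : ∀ x a b, DifferentiableAt ℂ (fun w => S w a b) x) {x : ℂ} (hx : ‖x‖ < R)
    (hcomm : Φ x * S x = S x * Φ x) (hS0 : S x ≠ 0) :
    ContDiffAt ℝ 2 (fun w => nrm (H w) (S w)) x ∧
    2 * nrm (H x) (adj (H x) (Φ x) * S x - S x * adj (H x) (Φ x)) / nrm (H x) (S x) ≤
      UN2_L (fun w => Real.log (nrm (H w) (S w))) x := by
  have hp : ∀ᶠ y in 𝓝 x, (H y).PosDef := (ball_open_mem hx).mono fun y hy => h.pos y hy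
  have key := bochner (P := fun y => w y • Φ y) (S := S) hp (h.cd x hx)
    (Filter.Eventually.of_forall fun y a b => hS y a b)
    (by simp only [Matrix.smul_mul, Matrix.mul_smul, hcomm]) hS0 (h.eq x hx)
  refine ⟨key.1, le_trans ?_ key.2⟩
  have hpx := h.pos x hx
  have e1 : adj (H x) (w x • Φ x) * S x - S x * adj (H x) (w x • Φ x) =
      star (w x) • (adj (H x) (Φ x) * S x - S x * adj (H x) (Φ x)) := by
    rw [adj_smul, Matrix.smul_mul, Matrix.mul_smul, smul_sub]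
  rw [e1, nrm_smul hpx, norm_star]
  have h2 := h.wl x hx
  have h3 := nrm_nonneg hpx (adj (H x) (Φ x) * S x - S x * adj (H x) (Φ x))
  have h4 := nrm_pos hpx hS0
  rw [div_le_div_iff_of_pos_right h4]
  nlinarith

/-- the bound of the Higgs field -/
theorem F_bound : ∃ C : ℝ, 1 ≤ C ∧ ∀ c : ℝ, 0 < c → c ≤ 1 → ∀ (R : ℝ) (H : ℂ → M3) (w : ℂ → ℂ),
    Sol R H w (Ph c) → ∀ x1 : ℂ, ‖x1‖ + 1 < R →
    nrm (H x1) (Ph c x1) ≤ C * (1 + ‖x1‖ ^ 2) := by
  obtain ⟨δ, hδ, hH⟩ := henrici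
  refine ⟨4 / δ + 90, ?_, ?_⟩
  · have : 0 < 4 / δ := by positivity
    linarith
  intro c hc0 hc1 R H w hsol x1 hx1
  set F : ℂ → ℝ := fun y => nrm (H y) (Ph c y) with hF
  have hball : ∀ y : ℂ, ‖y - x1‖ ≤ 1 → ‖y‖ < R := by
    intro y hy
    calc ‖y‖ = ‖(y - x1) + x1‖ := by ring_nf
      _ ≤ ‖y - x1‖ + ‖x1‖ := norm_add_le _ _
      _ < R := by linarith
  have hFc : ∀ y : ℂ, ‖y‖ < R → ContDiffAt ℝ 2 F y := fun y hy =>
    (hsol.boch (Ph_holo c) hy rfl (Ph_ne c y)).1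
  have hFpos : ∀ y : ℂ, ‖y‖ < R → 0 < F y := fun y hy => nrm_pos (hsol.pos y hy) (Ph_ne c y)
  set G : ℂ → ℝ := fun y => (1 - qq x1 y) ^ 2 * F y with hG
  have hx1m : x1 ∈ Metric.closedBall x1 (1 : ℝ) := Metric.mem_closedBall_self zero_le_one
  have hGc : ContinuousOn G (Metric.closedBall x1 1) := by
    intro y hy
    rw [Metric.mem_closedBall, dist_eq_norm] at hy
    have h1 : ContinuousAt (qq x1) y := (qq_cd x1).continuous.continuousAt
    exact (((continuousAt_const.sub h1).pow 2).mul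
      (hFc y (hball y hy)).continuousAt).continuousWithinAt
  obtain ⟨x2, hx2, hmax⟩ := (isCompact_closedBall x1 (1 : ℝ)).exists_isMaxOn ⟨x1, hx1m⟩ hGc
  have hx2' : ‖x2 - x1‖ ≤ 1 := by rwa [Metric.mem_closedBall, dist_eq_norm] at hx2
  have hG1 : G x1 = F x1 := by simp [hG, qq]
  have hG12 : F x1 ≤ G x2 := by rw [← hG1]; exact hmax hx1m
  have hF1 := hFpos x1 (hball x1 (by simp))
  have hF2 := hFpos x2 (hball x2 hx2')
  have hlt : ‖x2 - x1‖ < 1 := by
    rcases hx2'.eq_or_lt with h | h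
    · exfalso
      have : G x2 = 0 := by simp only [hG, qq_eq, h]; norm_num
      linarith
    · exact h
  have hq2 : qq x1 x2 < 1 := by
    rw [qq_eq]; nlinarith [norm_nonneg (x2 - x1)]
  have hq2' : 0 ≤ qq x1 x2 := by rw [qq_eq]; positivity
  have hn2 : ‖x2‖ ^ 2 ≤ 2 * ‖x1‖ ^ 2 + 2 := by
    have h1 : ‖x2‖ ≤ ‖x1‖ + 1 := by
      calc ‖x2‖ = ‖(x2 - x1) + x1‖ := by ring_nf
        _ ≤ ‖x2 - x1‖ + ‖x1‖ := norm_add_le _ _
        _ ≤ ‖x1‖ + 1 := by linarith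
    nlinarith [norm_nonneg x2, norm_nonneg x1, sq_nonneg (‖x1‖ - 1)]
  by_cases hbig : F x2 < 30 * (1 + ‖x2‖ ^ 2)
  · -- the value at the maximum is small
    have h1 : G x2 ≤ F x2 := by
      have : (1 - qq x1 x2) ^ 2 ≤ 1 := by nlinarith
      simp only [hG]
      nlinarith
    have h2 : 0 < 4 / δ := by positivity
    have h3 : F x1 ≤ 90 * (1 + ‖x1‖ ^ 2) := by nlinarith [sq_nonneg ‖x1‖]
    have h4 : 0 ≤ 4 / δ * (1 + ‖x1‖ ^ 2) := by positivity
    calc F x1 ≤ 90 * (1 + ‖x1‖ ^ 2) := h3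
      _ ≤ (4 / δ + 90) * (1 + ‖x1‖ ^ 2) := by nlinarith
  · push Not at hbig
    -- the logarithm has a local maximum
    have hloc : IsLocalMax (fun y => Real.log (F y) + 2 * Real.log (1 + (-1) * qq x1 y)) x2 := by
      have hnb : Metric.ball x1 1 ∈ 𝓝 x2 := Metric.isOpen_ball.mem_nhds (by
        rw [Metric.mem_ball, dist_eq_norm]; exact hlt)
      have hf : ∀ y ∈ Metric.ball x1 1, Real.log (F y) + 2 * Real.log (1 + (-1) * qq x1 y) =
          Real.log (G y) := by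
        intro y hy
        rw [Metric.mem_ball, dist_eq_norm] at hy
        have h5 : 0 < 1 - qq x1 y := by
          rw [qq_eq]; nlinarith [norm_nonneg (y - x1)]
        have h6 := hFpos y (hball y hy.le)
        simp only [hG]
        rw [Real.log_mul (by positivity) h6.ne', Real.log_pow]
        have : 1 + -1 * qq x1 y = 1 - qq x1 y := by ring
        rw [this]
        push_cast
        ring
      filter_upwards [hnb] with y hy
      rw [hf y hy, hf x2 (by rw [Metric.mem_ball, dist_eq_norm]; exact hlt)]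
      have h7 : G y ≤ G x2 := hmax (Metric.ball_subset_closedBall hy)
      rw [Metric.mem_ball, dist_eq_norm] at hy
      have h5 : 0 < 1 - qq x1 y := by
        rw [qq_eq]; nlinarith [norm_nonneg (y - x1)]
      have h6 := hFpos y (hball y hy.le)
      exact Real.log_le_log (by simp only [hG]; positivity) h7
    have hxR : ‖x2‖ < R := hball x2 hx2'
    have hb := (hsol.boch (Ph_holo c) hxR rfl (Ph_ne c x2)).2
    obtain ⟨l1, l2, -⟩ := L_logq (c := x1) (z := x2) (a := 1) (b := -1) (by linarith)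
    have hlogF : ContDiffAt ℝ 2 (fun y => Real.log (F y)) x2 := (hFc x2 hxR).log hF2.ne'
    have h8 := UN2_max (hlogF.add (contDiffAt_const.mul l1)) hloc
    have h9 := UN2_L_add hlogF l1 2
    rw [h9, l2] at h8
    -- Henrici's inequality
    have hpx := hsol.pos x2 hxR
    have hx2n : 0 ≤ ‖x2‖ ^ 2 := by positivity
    have k1 : ‖(Ph c x2 * Ph c x2).trace‖ ≤ 1 / 10 * nrm (H x2) (Ph c x2) := by
      rw [Ph_trace_sq, norm_mul, Complex.norm_ofNat]
      have : ‖(4 : ℂ) / 3 * x2 ^ 2 - (c : ℂ)‖ ≤ 4 / 3 * ‖x2‖ ^ 2 + c := by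
        refine (norm_sub_le _ _).trans ?_
        rw [norm_mul, norm_pow, Complex.norm_real, Real.norm_eq_abs, abs_of_pos hc0]
        norm_num
      have h10 : 30 * (1 + ‖x2‖ ^ 2) ≤ nrm (H x2) (Ph c x2) := hbig
      nlinarith
    have k2 : ‖(Ph c x2).det‖ ^ 2 ≤ 1 / 100 * nrm (H x2) (Ph c x2) ^ 3 := by
      rw [Ph_det]
      have h10 : 30 * (1 + ‖x2‖ ^ 2) ≤ nrm (H x2) (Ph c x2) := hbig
      have h11 : ‖(2 : ℂ) / 3 * x2 * (c - 8 / 9 * x2 ^ 2)‖ ^ 2 ≤ (1 + ‖x2‖ ^ 2) ^ 3 := by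
        have h12 : ‖(c : ℂ) - 8 / 9 * x2 ^ 2‖ ≤ 1 + ‖x2‖ ^ 2 := by
          refine (norm_sub_le _ _).trans ?_
          rw [norm_mul, norm_pow, Complex.norm_real, Real.norm_eq_abs, abs_of_pos hc0]
          norm_num
          nlinarith
        rw [norm_mul, mul_pow, norm_mul, mul_pow]
        have h13 : ‖(2 : ℂ) / 3‖ ^ 2 * ‖x2‖ ^ 2 ≤ 1 + ‖x2‖ ^ 2 := by
          norm_num
          nlinarith
        calc ‖(2 : ℂ) / 3‖ ^ 2 * ‖x2‖ ^ 2 * ‖(c : ℂ) - 8 / 9 * x2 ^ 2‖ ^ 2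
            ≤ (1 + ‖x2‖ ^ 2) * (1 + ‖x2‖ ^ 2) ^ 2 := by gcongr
          _ = (1 + ‖x2‖ ^ 2) ^ 3 := by ring
      refine h11.trans ?_
      have h14 : (30 * (1 + ‖x2‖ ^ 2)) ^ 3 ≤ nrm (H x2) (Ph c x2) ^ 3 := by gcongr
      have h15 : 0 ≤ (1 + ‖x2‖ ^ 2) ^ 3 := by positivity
      nlinarith
    have k3 := henrici_nrm hH hpx (Ph_trace c x2) k1 k2
    have k4 : 2 * (δ * F x2) ≤ UN2_L (fun w => Real.log (nrm (H w) (Ph c w))) x2 := by
      refine le_trans ?_ hb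
      rw [le_div_iff₀ hF2]
      have : 2 * (δ * F x2) * nrm (H x2) (Ph c x2) = 2 * (δ * nrm (H x2) (Ph c x2) ^ 2) := by
        simp only [hF]; ring
      rw [this]
      linarith
    have k5 : 0 < 1 - qq x1 x2 := by linarith
    have k6 : 2 * (δ * F x2) ≤ 8 / (1 - qq x1 x2) ^ 2 := by
      have e1 : 2 * (4 * 1 * -1 / (1 + -1 * qq x1 x2) ^ 2) = -(8 / (1 - qq x1 x2) ^ 2) := by
        have : 1 + -1 * qq x1 x2 = 1 - qq x1 x2 := by ring
        rw [this]; ring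
      rw [e1] at h8
      linarith
    have k7 : G x2 ≤ 4 / δ := by
      rw [le_div_iff₀ (by positivity)] at k6
      rw [le_div_iff₀ hδ]
      simp only [hG]
      linarith
    have k8 : 0 ≤ 4 / δ * ‖x1‖ ^ 2 := by positivity
    have k9 : 0 ≤ 90 * (1 + ‖x1‖ ^ 2) := by positivity
    calc F x1 ≤ 4 / δ := hG12.trans k7
      _ ≤ (4 / δ + 90) * (1 + ‖x1‖ ^ 2) := by nlinarith

/-- the weight -/
noncomputable def gw (α : ℝ) (x : ℂ) : ℝ := Real.exp (α * Real.log (1 + 1 * qq 0 x))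

theorem gw_prop {α : ℝ} (h0 : 0 < α) (h1 : α ≤ 1) (x : ℂ) :
    ContDiffAt ℝ 2 (gw α) x ∧ UN2_L (gw α) x ≤ 4 * α * gw α x / (1 + ‖x‖ ^ 2) := by
  have hq : qq 0 x = ‖x‖ ^ 2 := by rw [qq_eq]; simp
  have hq0 : 0 ≤ qq 0 x := by rw [hq]; positivity
  obtain ⟨l1, l2, l3⟩ := L_logq (c := 0) (z := x) (a := 1) (b := 1) (by linarith)
  have hc : ContDiffAt ℝ 2 (fun y => α * Real.log (1 + 1 * qq 0 y)) x := contDiffAt_const.mul l1
  refine ⟨hc.exp, ?_⟩
  have e1 : UN2_L (gw α) x = UN2_L (fun y => Real.exp (α * Real.log (1 + 1 * qq 0 y))) x := rfl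
  rw [e1, L_exp hc]
  have hd : DifferentiableAt ℝ (fun y => Real.log (1 + 1 * qq 0 y)) x := (UN2_ev l1).self_of_nhds
  have e2 : fderiv ℝ (fun y => α * Real.log (1 + 1 * qq 0 y)) x =
      α • fderiv ℝ (fun y => Real.log (1 + 1 * qq 0 y)) x :=
    (hd.hasFDerivAt.const_mul α).fderiv
  have e3 : UN2_L (fun y => α * Real.log (1 + 1 * qq 0 y)) x =
      α * UN2_L (fun y => Real.log (1 + 1 * qq 0 y)) x := by
    have h2 := UN2_L_add (g := fun _ => (0 : ℝ)) (z := x) contDiffAt_const l1 α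
    have h3 : UN2_L (fun _ => (0 : ℝ)) x = 0 := by unfold UN2_L; simp
    rw [h3, zero_add] at h2
    rw [← h2]
    congr 1
    funext y
    ring
  rw [e2, e3, l2]
  simp only [_root_.smul_apply, smul_eq_mul, mul_pow]
  rw [← mul_add, l3, hq]
  have hG : Real.exp (α * Real.log (1 + 1 * ‖x‖ ^ 2)) = gw α x := by
    rw [gw, hq]
  rw [hG]
  have hg0 : 0 < gw α x := Real.exp_pos _
  have hn : 0 ≤ ‖x‖ ^ 2 := by positivity
  rw [one_mul]
  have e4 : gw α x * (α ^ 2 * (4 * 1 ^ 2 * ‖x‖ ^ 2 / (1 + ‖x‖ ^ 2) ^ 2) +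
      α * (4 * 1 * 1 / (1 + ‖x‖ ^ 2) ^ 2)) =
      4 * α * gw α x * ((1 + α * ‖x‖ ^ 2) / (1 + ‖x‖ ^ 2)) / (1 + ‖x‖ ^ 2) := by
    field_simp
    ring
  rw [e4]
  have e5 : (1 + α * ‖x‖ ^ 2) / (1 + ‖x‖ ^ 2) ≤ 1 := by
    rw [div_le_one (by positivity)]
    nlinarith
  have e6 : 0 ≤ 4 * α * gw α x := by positivity
  rw [div_le_div_iff_of_pos_right (by positivity)]
  have e7 := mul_le_mul_of_nonneg_left e5 e6
  linarith

/-- **the projection is almost self-adjoint at the centre of a large disc** -/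
theorem pi_bound {c : ℝ} (hc0 : 0 < c) (hc1 : c ≤ 1) : ∃ R0 : ℝ, ∀ (R : ℝ) (H : ℂ → M3)
    (w : ℂ → ℂ), R0 ≤ R → Sol R H w (Ph c) → nrm (H 0) (pih c 0) ≤ 4 := by
  obtain ⟨C, hC1, hC⟩ := F_bound
  set CB : ℝ := 2 * C + 8 / 3 with hCB
  have hCB0 : 4 ≤ CB := by rw [hCB]; linarith
  set c' : ℝ := 2 * c ^ 2 / CB with hc'
  have hc'0 : 0 < c' := by positivity
  set α : ℝ := min 1 (c' / 4) with hα
  have hα0 : 0 < α := lt_min one_pos (by positivity)
  have hα1 : α ≤ 1 := min_le_left _ _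
  have hα2 : 4 * α ≤ c' := by
    have := min_le_right 1 (c' / 4)
    rw [← hα] at this
    linarith
  set K : ℝ := Real.log (CB ^ 2 / (2 * c ^ 2)) with hK
  have hK0 : 0 ≤ K := by
    apply Real.log_nonneg
    rw [le_div_iff₀ (by positivity)]
    nlinarith
  -- the limit
  have hlim : Tendsto (fun t : ℝ => (K + 2 * t) / Real.exp (α * t)) atTop (𝓝 0) := by
    have h1 : Tendsto (fun t : ℝ => t ^ 1 * Real.exp (-(α * t))) atTop (𝓝 0) := by
      have h2 := (Real.tendsto_pow_mul_exp_neg_atTop_nhds_zero 1).comp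
        (tendsto_id.const_mul_atTop hα0)
      have h3 := h2.const_mul α⁻¹
      rw [mul_zero] at h3
      refine h3.congr fun t => ?_
      simp only [Function.comp, id]
      field_simp
    have h4 : Tendsto (fun t : ℝ => Real.exp (-(α * t))) atTop (𝓝 0) := by
      refine Real.tendsto_exp_atBot.comp ?_
      exact tendsto_neg_atTop_atBot.comp (tendsto_id.const_mul_atTop hα0)
    have h5 := (h4.const_mul K).add (h1.const_mul 2)
    rw [mul_zero, mul_zero, add_zero] at h5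
    refine h5.congr fun t => ?_
    rw [Real.exp_neg]
    field_simp
  have hev : ∀ᶠ t : ℝ in atTop, (K + 2 * t) / Real.exp (α * t) < 1 :=
    hlim.eventually (gt_mem_nhds one_pos)
  obtain ⟨t0, ht0⟩ := Filter.eventually_atTop.1 hev
  -- the radius
  set t1 : ℝ := max t0 0 with ht1
  set ρ : ℝ := Real.sqrt (Real.exp t1 - 1) with hρ
  have hρ0 : 0 ≤ ρ := Real.sqrt_nonneg _
  have he1 : 1 ≤ Real.exp t1 := Real.one_le_exp (le_max_right _ _)
  have hρ2 : ρ ^ 2 = Real.exp t1 - 1 := Real.sq_sqrt (by linarith)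
  refine ⟨ρ + 2, fun R H w hR hsol => ?_⟩
  have hin : ∀ x : ℂ, ‖x‖ ≤ ρ → ‖x‖ + 1 < R := fun x hx => by linarith
  have hin' : ∀ x : ℂ, ‖x‖ ≤ ρ → ‖x‖ < R := fun x hx => by linarith
  -- bound of `B`
  have hBb : ∀ x : ℂ, ‖x‖ ≤ ρ → nrm (H x) (Bh c x) ≤ CB * (1 + ‖x‖ ^ 2) := by
    intro x hx
    have hp := hsol.pos x (hin' x hx)
    have h1 := hC c hc0 hc1 R H w hsol x (hin x hx)
    have h2 := nrm_sub_le hp (Ph c x) ((2 / 3 * x) • (1 : M3))
    rw [nrm_smul hp, nrm_one hp] at h2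
    have h3 : ‖(2 : ℂ) / 3 * x‖ ^ 2 = 4 / 9 * ‖x‖ ^ 2 := by
      rw [norm_mul, mul_pow]; norm_num
    rw [h3] at h2
    have h4 : nrm (H x) (Bh c x) = nrm (H x) (Ph c x - (2 / 3 * x) • (1 : M3)) := rfl
    rw [h4, hCB]
    nlinarith [sq_nonneg ‖x‖]
  set N : ℂ → ℝ := fun x => nrm (H x) (pih c x) with hN
  set ψ : ℂ → ℝ := fun x => Real.log (N x) with hψ
  have hcomm : ∀ x, Ph c x * pih c x = pih c x * Ph c x := by
    intro x
    obtain ⟨p1, p2, -⟩ := pih_prop hc0.ne' x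
    have e1 : Ph c x = Bh c x + (2 / 3 * x) • (1 : M3) := by rw [Bh]; abel
    rw [e1, Matrix.add_mul, Matrix.mul_add, p1, p2, Matrix.smul_mul, Matrix.mul_smul,
      Matrix.one_mul, Matrix.mul_one]
  have hblock : ∀ x : ℂ, ‖x‖ ≤ ρ → 1 ≤ N x ∧ c ^ 2 * N x * (N x - 1) ≤ nrm (H x) (Bh c x) *
      nrm (H x) (adj (H x) (Bh c x) * pih c x - pih c x * adj (H x) (Bh c x)) ∧
      c ^ 2 * N x ≤ nrm (H x) (Bh c x) ^ 2 / 2 := fun x hx =>
    block_nrm (hsol.pos x (hin' x hx)) hc0.ne' x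
  have hNc : ∀ x : ℂ, ‖x‖ ≤ ρ → ContDiffAt ℝ 2 N x := fun x hx =>
    (hsol.boch (pih_holo c) (hin' x hx) (hcomm x) (pih_ne hc0.ne' x)).1
  have hψc : ∀ x : ℂ, ‖x‖ ≤ ρ → ContDiffAt ℝ 2 ψ x := fun x hx =>
    (hNc x hx).log (by have := (hblock x hx).1; linarith)
  -- the differential inequality
  have hdiff : ∀ x : ℂ, ‖x‖ ≤ ρ → c' * ψ x / (1 + ‖x‖ ^ 2) ≤ UN2_L ψ x := by
    intro x hx
    have hp := hsol.pos x (hin' x hx)
    have hb := (hsol.boch (pih_holo c) (hin' x hx) (hcomm x) (pih_ne hc0.ne' x)).2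
    refine le_trans ?_ hb
    obtain ⟨b1, b2, b3⟩ := hblock x hx
    have e1 : adj (H x) (Ph c x) * pih c x - pih c x * adj (H x) (Ph c x) =
        adj (H x) (Bh c x) * pih c x - pih c x * adj (H x) (Bh c x) := by
      have e2 : Ph c x = Bh c x + (2 / 3 * x) • (1 : M3) := by rw [Bh]; abel
      have e3 : adj (H x) (1 : M3) = 1 := by
        have uH : IsUnit (H x).det := (Matrix.isUnit_iff_isUnit_det _).mp hp.isUnit
        rw [adj, Matrix.conjTranspose_one, Matrix.mul_one, Matrix.nonsing_inv_mul _ uH]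
      rw [e2, adj_add, adj_smul, e3, Matrix.add_mul, Matrix.mul_add, Matrix.smul_mul,
        Matrix.mul_smul, Matrix.one_mul, Matrix.mul_one]
      abel
    rw [e1]
    set T := nrm (H x) (adj (H x) (Bh c x) * pih c x - pih c x * adj (H x) (Bh c x)) with hT
    have hT0 : 0 ≤ T := nrm_nonneg hp _
    have hN0 : 0 < N x := by linarith
    have hB1 := hBb x hx
    have h5 : c ^ 2 * N x * (N x - 1) ≤ CB * (1 + ‖x‖ ^ 2) * T :=
      b2.trans (by gcongr)
    have h6 : ψ x ≤ N x - 1 := Real.log_le_sub_one_of_pos hN0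
    have h7 : c' * ψ x / (1 + ‖x‖ ^ 2) ≤ c' * (N x - 1) / (1 + ‖x‖ ^ 2) := by gcongr
    refine h7.trans ?_
    show c' * (N x - 1) / (1 + ‖x‖ ^ 2) ≤ 2 * T / N x
    rw [div_le_div_iff₀ (by positivity) hN0, hc']
    have h8 : 2 * c ^ 2 / CB * (N x - 1) * N x = 2 * (c ^ 2 * N x * (N x - 1)) / CB := by ring
    rw [h8, div_le_iff₀ (by positivity)]
    nlinarith
  -- comparison
  have hψb : ∀ x : ℂ, ‖x‖ = ρ → ψ x ≤ K + 2 * t1 := by
    intro x hx
    obtain ⟨b1, b2, b3⟩ := hblock x hx.le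
    have hB1 := hBb x hx.le
    have hp := hsol.pos x (hin' x hx.le)
    have hN0 : 0 < N x := by linarith
    have h9 : 1 + ‖x‖ ^ 2 = Real.exp t1 := by rw [hx, hρ2]; ring
    rw [h9] at hB1
    have h10 : N x ≤ CB ^ 2 / (2 * c ^ 2) * Real.exp t1 ^ 2 := by
      have h11 : nrm (H x) (Bh c x) ^ 2 ≤ (CB * Real.exp t1) ^ 2 :=
        pow_le_pow_left₀ (nrm_nonneg hp _) hB1 2
      have h12 : N x ≤ (CB * Real.exp t1) ^ 2 / 2 / c ^ 2 := by
        rw [le_div_iff₀ (by positivity)]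
        linarith
      refine h12.trans (le_of_eq ?_)
      field_simp
    have h13 := Real.log_le_log hN0 h10
    rw [Real.log_mul (by positivity) (by positivity), Real.log_pow, Real.log_exp] at h13
    push_cast at h13
    exact h13
  set A : ℝ := (K + 2 * t1) / Real.exp (α * t1) with hA
  have hA0 : 0 ≤ A := by
    have : 0 ≤ t1 := le_max_right _ _
    positivity
  have hA1 : A < 1 := ht0 t1 (le_max_left _ _)
  have hcomp := max_principle (w := fun x => ψ x + (-A) * gw α x) (x1 := 0) (r := ρ)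
    (by
      intro x hx
      rw [Metric.mem_closedBall, dist_zero_right] at hx
      exact ((hψc x hx).continuousAt.add (continuousAt_const.mul
        (gw_prop hα0 hα1 x).1.continuousAt)).continuousWithinAt)
    (by
      intro x hx
      rw [sub_zero] at hx
      have h1 := hψb x hx
      have h2 : gw α x = Real.exp (α * t1) := by
        rw [gw, qq_eq, sub_zero, hx, hρ2]
        have : 1 + 1 * (Real.exp t1 - 1) = Real.exp t1 := by ring
        rw [this, Real.log_exp]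
      simp only [h2, hA]
      have h3 : (K + 2 * t1) / Real.exp (α * t1) * Real.exp (α * t1) = K + 2 * t1 := by
        field_simp
      linarith)
    (by
      intro x hx hpos
      rw [sub_zero] at hx
      have h1 := hψc x hx.le
      obtain ⟨h2, h3⟩ := gw_prop hα0 hα1 x
      refine ⟨h1.add (contDiffAt_const.mul h2), ?_⟩
      rw [UN2_L_add h1 h2]
      have h4 := hdiff x hx.le
      have h5 : 0 < gw α x := Real.exp_pos _
      have h6 : A * UN2_L (gw α) x ≤ A * (4 * α * gw α x / (1 + ‖x‖ ^ 2)) := by gcongr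
      have h7 : A * (4 * α * gw α x / (1 + ‖x‖ ^ 2)) ≤ A * (c' * gw α x / (1 + ‖x‖ ^ 2)) := by
        gcongr
      have h8 : 0 < c' * (ψ x + -A * gw α x) / (1 + ‖x‖ ^ 2) := by positivity
      have h9 : c' * (ψ x + -A * gw α x) / (1 + ‖x‖ ^ 2) =
          c' * ψ x / (1 + ‖x‖ ^ 2) - A * (c' * gw α x / (1 + ‖x‖ ^ 2)) := by ring
      linarith)
  have h0 := hcomp 0 (by simpa using hρ0)
  have h1 : gw α 0 = 1 := by simp [gw, qq]
  simp only [h1] at h0
  have h2 : ψ 0 < 1 := by linarith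
  have hN0 : 0 < N 0 := by
    have := (hblock 0 (by simpa using hρ0)).1
    linarith
  have h3 : N 0 < Real.exp 1 := (Real.log_lt_iff_lt_exp hN0).1 h2
  have h4 := Real.exp_one_lt_d9
  have : N 0 ≤ 4 := by linarith
  exact this

end Pool.Agent.H794
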