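import Pool.Agent.H794.HTuniq

/-!
# The symmetries of the harmonic metric on the Hitchin section, and the upper bound
-/

set_option autoImplicit false

open scoped Manifold ContDiff Matrix ComplexOrder
open Matrix Topology Set Filter

namespace Pool.Agent.H794

open Pool.Agent.Helper614.HE Pool.Agent.Helper614.HE.P_UN1 Pool.Agent.Helper614.HE.P_UN2
  Pool.Agent.Helper614.HE.P_TH

/-- the entries of the inverse of a matrix of determinant one -/
theorem inv_cd {n : WithTop ℕ∞} {H : ℂ → M3} {z : ℂ} (hC : ∀ a b, ContDiffAt ℝ n (fun w => H w a b) z)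
    (hd : ∀ᶠ w in 𝓝 z, (H w).det = 1) (a b : Fin 3) :
    ContDiffAt ℝ n (fun w => (H w)⁻¹ a b) z := by
  have h1 : (fun w => (H w)⁻¹ a b) =ᶠ[𝓝 z] fun w => (H w).adjugate a b := by
    filter_upwards [hd] with w hw
    rw [Matrix.inv_def, hw, Ring.inverse_one, one_smul]
  refine ContDiffAt.congr_of_eventuallyEq ?_ h1
  have h00 := hC 0 0
  have h01 := hC 0 1
  have h02 := hC 0 2
  have h10 := hC 1 0
  have h11 := hC 1 1
  have h12 := hC 1 2
  have h20 := hC 2 0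
  have h21 := hC 2 1
  have h22 := hC 2 2
  simp only [Matrix.adjugate_fin_three]
  fin_cases a <;> fin_cases b <;> simp <;> fun_prop

/-- the symmetric pairing -/
def pr (a : ℂ) : M3 := !![0, 0, 1; 0, 1, 0; 1, 0, -a]

theorem pr_det (a : ℂ) : (pr a).det = -1 := by
  simp [pr, Matrix.det_fin_three]

theorem pr_cmp (a b : ℂ) : pr a * cmp a b = (cmp a b)ᵀ * pr a := by
  ext s t
  fin_cases s <;> fin_cases t <;> simp [pr, cmp, Matrix.mul_apply, Fin.sum_univ_three]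

theorem gt_self (i : Bool) (x : SX 4) : gt i i x = 1 := by simp [gt]

theorem gt_ne {i j : Bool} (h : i ≠ j) (x : SX 4) :
    gt i j x = Matrix.diagonal ![-(VV 4 i x ^ 10), 1, (-(VV 4 i x ^ 10))⁻¹] := by
  simp [gt, h]

theorem pr_diag (l a : ℂ) (hl : l ≠ 0) :
    pr a = (Matrix.diagonal ![l, 1, l⁻¹])ᵀ * pr (l ^ 2 * a) * Matrix.diagonal ![l, 1, l⁻¹] := by
  rw [Matrix.diagonal_transpose]
  ext s t
  rw [Matrix.mul_diagonal, Matrix.diagonal_mul]
  fin_cases s <;> fin_cases t <;> simp [pr, hl]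
  field_simp

theorem pr_glue (hB : SBasic 4) (r c : ℝ) {i j : Bool} {x : SX 4} (hx : x ∈ UU 4 i ∩ UU 4 j) :
    pr (qa r c j (VV 4 j x)) = (gt i j x)ᵀ * pr (qa r c i (VV 4 i x)) * gt i j x := by
  by_cases hij : i = j
  · subst hij
    rw [gt_self, Matrix.transpose_one, Matrix.one_mul, Matrix.mul_one]
  · have hV := VV_ne hB i j hij x hx
    have hl : -(VV 4 i x ^ 10) ≠ 0 := neg_ne_zero.2 (pow_ne_zero _ hV)
    have hA := qa_rel r c i hV
    rw [← bne hij, ← VV_inv hB i j hij x hx] at hA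
    rw [gt_ne hij, hA]
    exact pr_diag _ _ hl

/-- gluing of the dual metric -/
theorem dual_glue {G A H : M3} (hdet : G.det = 1) :
    (Gᵀ * A * G)ᴴ * ((Gᴴ * H * G)ᵀ)⁻¹ * (Gᵀ * A * G) = Gᴴ * (Aᴴ * (Hᵀ)⁻¹ * A) * G := by
  have uG : IsUnit G.det := by rw [hdet]; exact isUnit_one
  have uGT : IsUnit (Gᵀ).det := by rwa [Matrix.det_transpose]
  have uGc : IsUnit ((Gᵀ)ᴴ).det := by
    rw [Matrix.det_conjTranspose, Matrix.det_transpose, hdet, star_one]; exact isUnit_one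
  have e5 : (Gᴴ)ᵀ = (Gᵀ)ᴴ := rfl
  have e8 : (Gᴴ * H * G)ᵀ = Gᵀ * Hᵀ * (Gᵀ)ᴴ := by
    rw [Matrix.transpose_mul, Matrix.transpose_mul, e5, Matrix.mul_assoc]
  have e9 : (Gᵀ * A * G)ᴴ = Gᴴ * Aᴴ * (Gᵀ)ᴴ := by
    rw [Matrix.conjTranspose_mul, Matrix.conjTranspose_mul, Matrix.mul_assoc]
  rw [e8, e9, Matrix.mul_inv_rev, Matrix.mul_inv_rev]
  generalize (Hᵀ)⁻¹ = K
  calc Gᴴ * Aᴴ * Gᵀᴴ * ((Gᵀᴴ)⁻¹ * (K * (Gᵀ)⁻¹)) * (Gᵀ * A * G) =
        Gᴴ * (Aᴴ * (Gᵀᴴ * (Gᵀᴴ)⁻¹) * K * ((Gᵀ)⁻¹ * Gᵀ) * A) * G := by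
          simp only [Matrix.mul_assoc]
    _ = Gᴴ * (Aᴴ * K * A) * G := by
      rw [Matrix.mul_nonsing_inv _ uGc, Matrix.nonsing_inv_mul _ uGT, Matrix.mul_one,
        Matrix.mul_one]

/-- smoothness of the dual metric -/
theorem dual_smooth {n : WithTop ℕ∞} {K : ℂ → M3} {q : ℂ → ℂ} {z : ℂ}
    (h2 : ∀ a b, ContDiffAt ℝ n (fun w => K w a b) z) (h3 : ContDiffAt ℝ n q z) (a b : Fin 3) :
    ContDiffAt ℝ n (fun w => ((pr (q w))ᴴ * K w * pr (q w)) a b) z := by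
  have h3' : ContDiffAt ℝ n (fun w => star (q w)) z :=
    ((Complex.conjCLE : ℂ →L[ℝ] ℂ).contDiff.contDiffAt).comp z h3
  have hp : ∀ a b, ContDiffAt ℝ n (fun w => pr (q w) a b) z := by
    intro a b
    fin_cases a <;> fin_cases b <;> simp [pr] <;> first | exact contDiffAt_const | exact h3.neg
  have hp' : ∀ a b, ContDiffAt ℝ n (fun w => (pr (q w))ᴴ a b) z := by
    intro a b
    fin_cases a <;> fin_cases b <;> simp [pr, Matrix.conjTranspose_apply] <;>
      first | exact contDiffAt_const | exact h3'.neg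
  simp only [Matrix.mul_apply]
  refine ContDiffAt.sum fun c _ => ContDiffAt.mul ?_ (hp c b)
  exact ContDiffAt.sum fun d _ => (hp' a d).mul (h2 d c)

theorem pr_holo {q : ℂ → ℂ} {z : ℂ} (h3 : DifferentiableAt ℂ q z) (a b : Fin 3) :
    DifferentiableAt ℂ (fun w => pr (q w) a b) z := by
  fin_cases a <;> fin_cases b <;> simp [pr] <;> exact h3

/-- the signature matrix of the involution -/
def sgT : M3 := Matrix.diagonal ![-1, 1, -1]

theorem sgT_sq : sgT * sgT = 1 := by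
  rw [sgT, Matrix.diagonal_mul_diagonal, ← Matrix.diagonal_one]
  congr 1; funext a; fin_cases a <;> simp

theorem sgT_ct : sgTᴴ = sgT := by
  rw [sgT, Matrix.diagonal_conjTranspose]
  congr 1; funext a; fin_cases a <;> simp

theorem sgT_cmp (a b : ℂ) : sgT * cmp a b = (-cmp a (-b)) * sgT := by
  ext s t
  fin_cases s <;> fin_cases t <;> simp [sgT, cmp, Matrix.diagonal_mul, Matrix.mul_diagonal]

theorem qa_neg (r c : ℝ) (j : Bool) (v : ℂ) : qa r c j (-v) = qa r c j v := by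
  cases j <;> simp [qa] <;> ring

theorem qb_neg (r c : ℝ) (j : Bool) (v : ℂ) : qb r c j (-v) = -qb r c j v := by
  cases j <;> simp [qb] <;> ring

/-- the involution on the affine curve -/
def tau0 (p : Crv 4) : Crv 4 := ⟨(-p.1.1, p.1.2), by
  have h : (p : ℂ × ℂ).2 ^ 4 = (p : ℂ × ℂ).1 ^ (4 * 4) + 1 := p.2
  show (p : ℂ × ℂ).2 ^ 4 = (-(p : ℂ × ℂ).1) ^ (4 * 4) + 1
  rw [h]; ring⟩

/-- the involution -/
def tau : SX 4 → SX 4 := Quotient.map (fun p : Crv 4 × Bool => (tau0 p.1, p.2)) (by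
  rintro p q (h | ⟨h1, h2, h3⟩)
  · exact Or.inl (by rw [h])
  · refine Or.inr ⟨h1, ?_, ?_⟩
    · show (-(p.1 : ℂ × ℂ).1) * (-(q.1 : ℂ × ℂ).1) = 1
      rw [neg_mul_neg]; exact h2
    · show (p.1 : ℂ × ℂ).2 = (q.1 : ℂ × ℂ).2 * (-(p.1 : ℂ × ℂ).1) ^ 4
      rw [h3]; ring)

theorem tau_inc (j : Bool) (p : Crv 4) : tau (inc 4 j p) = inc 4 j (tau0 p) := rfl

theorem tau0_cont : Continuous tau0 := by
  unfold tau0
  refine Continuous.subtype_mk ?_ _
  fun_prop

theorem tau_cont : Continuous tau := by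
  unfold tau
  refine Continuous.quotient_map' (s := relSetoid 4) (t := relSetoid 4)
    (f := fun p : Crv 4 × Bool => (tau0 p.1, p.2)) ?_ _
  exact (tau0_cont.comp continuous_fst).prodMk continuous_snd

theorem tau_mem {j : Bool} {x : SX 4} (hx : x ∈ UU 4 j) : tau x ∈ UU 4 j := by
  obtain ⟨p, rfl⟩ := hx
  exact ⟨tau0 p, rfl⟩

theorem tau_mem_iff {j : Bool} {x : SX 4} : tau x ∈ UU 4 j ↔ x ∈ UU 4 j := by
  refine ⟨fun h => ?_, tau_mem⟩
  have h1 := tau_mem h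
  have h2 : tau (tau x) = x := by
    induction x using Quotient.inductionOn with
    | _ p =>
      obtain ⟨p, j⟩ := p
      show tau (tau (inc 4 j p)) = inc 4 j p
      rw [tau_inc, tau_inc]
      congr 1
      apply Subtype.ext
      simp [tau0]
  rwa [h2] at h1

section

variable [ChartedSpace ℂ (SX 4)] {hB : SBasic 4} {hG : SGood 4}

omit [ChartedSpace ℂ (SX 4)] in
theorem tau_V (hB : SBasic 4) {j : Bool} {x : SX 4} (hx : x ∈ UU 4 j) :
    VV 4 j (tau x) = -VV 4 j x := by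
  obtain ⟨p, rfl⟩ := hx
  rw [tau_inc, hB.VV_inc, hB.VV_inc]
  rfl

omit [ChartedSpace ℂ (SX 4)] in
theorem tau_Y (hB : SBasic 4) {j : Bool} {x : SX 4} (hx : x ∈ UU 4 j) :
    YY 4 j (tau x) = YY 4 j x := by
  obtain ⟨p, rfl⟩ := hx
  rw [tau_inc, hB.YY_inc, hB.YY_inc]
  rfl

/-- **the dual metric** -/
theorem HT_dual {r c : ℝ} {h : Bool → SX 4 → M3}
    (H : IsHarmonicMetric (HT hB hG r c) 1 h) :
    IsHarmonicMetric (HT hB hG r c) 1 (fun i x =>
      (pr (qa r c i (VV 4 i x)))ᴴ * ((h i x)ᵀ)⁻¹ * pr (qa r c i (VV 4 i x))) := by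
  have hpd : ∀ a : ℂ, IsUnit (pr a) := fun a => by
    rw [Matrix.isUnit_iff_isUnit_det, pr_det]
    exact isUnit_one.neg
  have hqd : ∀ i, ∀ e ∈ atlas ℂ (SX 4), ∀ z ∈ e.target, e.symm z ∈ UU 4 i →
      DifferentiableAt ℂ (fun w => qa r c i (VV 4 i (e.symm w))) z := fun i e he z hz hi =>
    DifferentiableAt.comp z (qa_diff r c i _) (TH_diffV hB hG he ⟨hz, hi⟩)
  have hqe : ∀ i, ∀ e ∈ atlas ℂ (SX 4), ∀ z ∈ e.target, e.symm z ∈ UU 4 i →
      ∀ᶠ w in 𝓝 z, DifferentiableAt ℂ (fun w => qa r c i (VV 4 i (e.symm w))) w := by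
    intro i e he z hz hi
    filter_upwards [(TH_open hB e i).mem_nhds ⟨hz, hi⟩] with w hw
    exact hqd i e he w hw.1 hw.2
  refine mk_hm ?_ ?_ ?_ ?_ ?_
  · intro i x hx
    exact posDef_conj (H.posDef i x hx).transpose.inv (hpd _)
  · intro i x hx
    rw [Matrix.det_mul, Matrix.det_mul, Matrix.det_conjTranspose, pr_det, Matrix.det_nonsing_inv,
      Matrix.det_transpose, H.det i x hx]
    simp
  · intro i j x hx
    have e1 : h j x = (gt i j x)ᴴ * h i x * gt i j x := H.glue i j x hx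
    have hdet : (gt i j x).det = 1 := (HT hB hG r c).det_g i j x hx
    show (pr (qa r c j (VV 4 j x)))ᴴ * ((h j x)ᵀ)⁻¹ * pr (qa r c j (VV 4 j x)) =
      (gt i j x)ᴴ * ((pr (qa r c i (VV 4 i x)))ᴴ * ((h i x)ᵀ)⁻¹ * pr (qa r c i (VV 4 i x))) *
        gt i j x
    rw [pr_glue hB r c hx, e1]
    exact dual_glue hdet
  · intro i e he z hz hi a b
    refine dual_smooth (K := fun w => ((h i (e.symm w))ᵀ)⁻¹)
      (q := fun w => qa r c i (VV 4 i (e.symm w))) ?_ ?_ a b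
    · intro a b
      refine inv_cd (H := fun w => (h i (e.symm w))ᵀ) (fun a b => hm_cd H he hz hi b a) ?_ a b
      filter_upwards [(chart_open (HT hB hG r c) i e).mem_nhds ⟨hz, hi⟩] with w hw
      rw [Matrix.det_transpose]
      exact H.det i _ hw.2
    · have := Complex.analyticAt_iff_eventually_differentiableAt.2 (hqe i e he z hz hi)
      exact (this.contDiffAt (n := ∞)).restrict_scalars ℝ
  · intro i e he z hz hi
    have h1 := (hm_hit H he hz hi).dual (hm_pos H hz hi) (fun a b => hm_cd2 H he hz hi a b)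
    refine h1.conj (G := fun w => pr (qa r c i (VV 4 i (e.symm w)))) ?_ ?_ ?_ ?_
    · filter_upwards [hm_pos H hz hi] with w hw
      exact hw.transpose.inv
    · intro a b
      refine inv_cd (H := fun w => (h i (e.symm w))ᵀ) (fun a b => hm_cd2 H he hz hi b a) ?_ a b
      filter_upwards [(chart_open (HT hB hG r c) i e).mem_nhds ⟨hz, hi⟩] with w hw
      rw [Matrix.det_transpose]
      exact H.det i _ hw.2
    · filter_upwards [hqe i e he z hz hi] with w hw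
      exact ⟨pr_holo hw, by rw [pr_det]; norm_num⟩
    · show pr _ * (((r : ℂ) * om 4 i e (e.symm z)) • cmp _ _) =
        (((r : ℂ) * om 4 i e (e.symm z)) • cmp _ _)ᵀ * pr _
      rw [Matrix.transpose_smul, Matrix.mul_smul, Matrix.smul_mul, pr_cmp]

end

end Pool.Agent.H794
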