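import Pool.Graph.R_pool_sql_team_seeded_620a6dc7.Helper614.HE.Defs

/-!
# Polystable Higgs bundles, the Hitchin section, Hitchin fibres and isomorphisms: definitions
-/

set_option autoImplicit false

open scoped Manifold ContDiff Matrix ComplexOrder
open Matrix Topology

namespace Pool.Agent.H794

open Pool.Agent.Helper614.HE

section

variable {n : ℕ} {X : Type} [TopologicalSpace X] [ChartedSpace ℂ X]

/-- The Higgs bundle `(E, φ)` (of degree zero) is polystable: every `φ`-invariant holomorphic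
subbundle `F` of rank `0 < r < n` either has negative degree, or has degree zero and has a
`φ`-invariant holomorphic complement `F'`. (Equivalently, `(E, φ)` is a direct sum of stable
Higgs bundles of degree zero.) -/
def IsPolystable (E : HiggsBundle n X) : Prop :=
  ∀ r : ℕ, 0 < r → r < n → ∀ F, IsHiggsSubbundle E r F →
    (∃ d : ℤ, d < 0 ∧ HasDegree E r F d) ∨
    (HasDegree E r F 0 ∧ ∃ F', IsHiggsSubbundle E (n - r) F' ∧
      ∀ i, ∀ x ∈ E.U i, IsCompl (F i x) (F' i x))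

/-- Holomorphic differentials of order `k` (sections of `K ^ k`): in the coordinate `e` (a chart
of the atlas) the differential is `q e x dz ^ k` at the point `x`. -/
structure IsHolDifferential (X : Type) [TopologicalSpace X] [ChartedSpace ℂ X] (k : ℕ)
    (q : OpenPartialHomeomorph X ℂ → X → ℂ) : Prop where
  holo : ∀ e ∈ atlas ℂ X, DifferentiableOn ℂ (fun z => q e (e.symm z)) e.target
  change : ∀ e ∈ atlas ℂ X, ∀ e' ∈ atlas ℂ X, ∀ x ∈ e.source ∩ e'.source,
    q e x = deriv (e' ∘ e.symm) (e x) ^ k * q e' x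

/-- The `SL(3, ℂ)`-Higgs bundle `(E, φ)` is the point of the Hitchin section given by the
differentials `q₂` and `q₃` of order two and three: `E = K ⊕ O ⊕ K⁻¹` and
`φ = !![0, q₂, q₃; 1, 0, 0; 0, 1, 0]`. Here `w i` is a nowhere vanishing holomorphic 1-form
on `U i` (it is `w i e x dz` at `x` in the coordinate `e`), and `E` and `φ` are written in the
frame `(w i, 1, (w i)⁻¹)` of `K ⊕ O ⊕ K⁻¹` on `U i`. -/
structure IsHitchinSection (E : HiggsBundle 3 X) (q₂ q₃ : OpenPartialHomeomorph X ℂ → X → ℂ)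
    (w : E.ι → OpenPartialHomeomorph X ℂ → X → ℂ) : Prop where
  quadratic : IsHolDifferential X 2 q₂
  cubic : IsHolDifferential X 3 q₃
  holo_w : ∀ i, ∀ e ∈ atlas ℂ X, DifferentiableOn ℂ (fun z => w i e (e.symm z))
    (e.target ∩ e.symm ⁻¹' E.U i)
  change_w : ∀ i, ∀ e ∈ atlas ℂ X, ∀ e' ∈ atlas ℂ X, ∀ x ∈ E.U i ∩ (e.source ∩ e'.source),
    w i e x = deriv (e' ∘ e.symm) (e x) * w i e' x
  ne_zero : ∀ i, ∀ e ∈ atlas ℂ X, ∀ x ∈ E.U i ∩ e.source, w i e x ≠ 0
  bundle : ∀ i j, ∀ e ∈ atlas ℂ X, ∀ x ∈ (E.U i ∩ E.U j) ∩ e.source,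
    E.g i j x = Matrix.diagonal ![w j e x / w i e x, 1, w i e x / w j e x]
  field : ∀ i, ∀ e ∈ atlas ℂ X, ∀ x ∈ E.U i ∩ e.source,
    E.φ i e x = !![0, q₂ e x / w i e x, q₃ e x / w i e x ^ 2; w i e x, 0, 0; 0, w i e x, 0]

/-- `(E, φ)` lies in the Hitchin component (the image of the Hitchin section). -/
def InHitchinComponent (E : HiggsBundle 3 X) : Prop :=
  ∃ q₂ q₃ w, IsHitchinSection E q₂ q₃ w

/-- The Higgs bundles lie in the same Hitchin fibre: their Higgs fields have the same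
characteristic polynomial at every point. -/
def SameHitchinFibre (E E' : HiggsBundle n X) : Prop :=
  ∀ i i', ∀ e ∈ atlas ℂ X, ∀ x ∈ (E.U i ∩ E'.U i') ∩ e.source,
    (E.φ i e x).charpoly = (E'.φ i' e x).charpoly

/-- The Higgs bundles are isomorphic: there is a holomorphic isomorphism `f` of `E` onto `E'`,
with matrix `f i j` in the frames `j` of `E` and `i` of `E'`, which intertwines the Higgs
fields. -/
def Isomorphic (E E' : HiggsBundle n X) : Prop :=
  ∃ f : E'.ι → E.ι → X → Matrix (Fin n) (Fin n) ℂ,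
    (∀ i j, ∀ e ∈ atlas ℂ X, ∀ r c, DifferentiableOn ℂ (fun z => f i j (e.symm z) r c)
      (e.target ∩ e.symm ⁻¹' (E'.U i ∩ E.U j))) ∧
    (∀ i j, ∀ x ∈ E'.U i ∩ E.U j, IsUnit (f i j x).det) ∧
    (∀ i i' j j', ∀ x ∈ (E'.U i ∩ E'.U i') ∩ (E.U j ∩ E.U j'),
      f i j x * E.g j j' x = E'.g i i' x * f i' j' x) ∧
    (∀ i j, ∀ e ∈ atlas ℂ X, ∀ x ∈ (E'.U i ∩ E.U j) ∩ e.source,
      f i j x * E.φ j e x = E'.φ i e x * f i j x)

end

end Pool.Agent.H794
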