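import Pool.Agent.H794.HDefs
import Pool.Agent.H794.HTup

/-!
# The bundle `HT` lies on the Hitchin section; the Hitchin fibre; the bundles are not isomorphic
-/

set_option autoImplicit false

open scoped Manifold ContDiff Matrix ComplexOrder
open Matrix Topology Set Filter

namespace Pool.Agent.H794

open Pool.Agent.Helper614.HE Pool.Agent.Helper614.HE.P_TH

section

variable [ChartedSpace ℂ (SX 4)]

open Classical in
/-- the quadratic differential -/
noncomputable def dq2 (r c : ℝ) (e : OpenPartialHomeomorph (SX 4) ℂ) (x : SX 4) : ℂ :=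
  if x ∈ UU 4 false then qa r c false (VV 4 false x) * (r * om 4 false e x) ^ 2
  else qa r c true (VV 4 true x) * (r * om 4 true e x) ^ 2

open Classical in
/-- the cubic differential -/
noncomputable def dq3 (r c : ℝ) (e : OpenPartialHomeomorph (SX 4) ℂ) (x : SX 4) : ℂ :=
  if x ∈ UU 4 false then qb r c false (VV 4 false x) * (r * om 4 false e x) ^ 3
  else qb r c true (VV 4 true x) * (r * om 4 true e x) ^ 3

variable (hB : SBasic 4) (hG : SGood 4)

include hB hG in
theorem dq2_eq (r c : ℝ) {e : OpenPartialHomeomorph (SX 4) ℂ} (he : e ∈ atlas ℂ (SX 4))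
    (i : Bool) {x : SX 4} (hx : x ∈ UU 4 i) (hxe : x ∈ e.source) :
    dq2 r c e x = qa r c i (VV 4 i x) * (r * om 4 i e x) ^ 2 := by
  unfold dq2
  split_ifs with hf
  · cases i
    · rfl
    · have hx2 : x ∈ (UU 4 false ∩ UU 4 true) ∩ e.source := ⟨⟨hf, hx⟩, hxe⟩
      have h1 := VV_ne hB false true (by decide) x hx2.1
      have h2 := VV_inv hB false true (by decide) x hx2.1
      have h3 := om_rel hB hG (by decide : false ≠ true) he hx2
      have h4 := qa_rel r c false h1
      rw [Bool.not_false] at h4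
      rw [h4, h3, h2]
      ring
  · cases i
    · exact absurd hx hf
    · rfl

include hB hG in
theorem dq3_eq (r c : ℝ) {e : OpenPartialHomeomorph (SX 4) ℂ} (he : e ∈ atlas ℂ (SX 4))
    (i : Bool) {x : SX 4} (hx : x ∈ UU 4 i) (hxe : x ∈ e.source) :
    dq3 r c e x = qb r c i (VV 4 i x) * (r * om 4 i e x) ^ 3 := by
  unfold dq3
  split_ifs with hf
  · cases i
    · rfl
    · have hx2 : x ∈ (UU 4 false ∩ UU 4 true) ∩ e.source := ⟨⟨hf, hx⟩, hxe⟩
      have h1 := VV_ne hB false true (by decide) x hx2.1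
      have h2 := VV_inv hB false true (by decide) x hx2.1
      have h3 := om_rel hB hG (by decide : false ≠ true) he hx2
      have h4 := qb_rel r c false h1
      rw [Bool.not_false] at h4
      rw [h4, h3, h2]
      ring
  · cases i
    · exact absurd hx hf
    · rfl

include hB hG in
/-- a differential given by functions of `v` in the two copies -/
theorem diff_aux (k : ℕ) (r : ℝ) (q : OpenPartialHomeomorph (SX 4) ℂ → SX 4 → ℂ)
    (f : Bool → ℂ → ℂ) (hf : ∀ i, Differentiable ℂ (f i))
    (hq : ∀ e ∈ atlas ℂ (SX 4), ∀ i, ∀ x ∈ UU 4 i, x ∈ e.source →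
      q e x = f i (VV 4 i x) * (r * om 4 i e x) ^ k) : IsHolDifferential (SX 4) k q := by
  constructor
  · intro e he z hz
    apply DifferentiableAt.differentiableWithinAt
    have hxs : e.symm z ∈ e.source := e.map_target hz
    obtain ⟨i, hi⟩ : ∃ i, e.symm z ∈ UU 4 i :=
      (hB.cover (e.symm z)).elim (fun h => ⟨false, h⟩) (fun h => ⟨true, h⟩)
    have hO : e.target ∩ e.symm ⁻¹' UU 4 i ∈ 𝓝 z := (TH_open hB e i).mem_nhds ⟨hz, hi⟩
    have hev : (fun z => q e (e.symm z)) =ᶠ[𝓝 z] fun z =>
        f i (VV 4 i (e.symm z)) * (r * om 4 i e (e.symm z)) ^ k := by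
      filter_upwards [hO] with w hw
      exact hq e he i _ hw.2 (e.map_target hw.1)
    refine DifferentiableAt.congr_of_eventuallyEq ?_ hev
    have h1 : DifferentiableOn ℂ (fun z => (r : ℂ) * om 4 i e (e.symm z))
        (e.target ∩ e.symm ⁻¹' UU 4 i) := (om_one (by norm_num) hB hG he i).const_mul _
    have h2 : DifferentiableOn ℂ (fun z => f i (VV 4 i (e.symm z)))
        (e.target ∩ e.symm ⁻¹' UU 4 i) := (hf i).comp_differentiableOn (hG.holoV e he i)
    exact (h2.fun_mul (h1.fun_pow k)).differentiableAt hO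
  · intro e he e' he' x hx
    obtain ⟨i, hi⟩ : ∃ i, x ∈ UU 4 i :=
      (hB.cover x).elim (fun h => ⟨false, h⟩) (fun h => ⟨true, h⟩)
    rw [hq e he i x hi hx.1, hq e' he' i x hi hx.2, om_two hB hG he he' ⟨hi, hx⟩]
    ring


include hB hG in
theorem gt_om {r : ℝ} (hr : r ≠ 0) (i j : Bool) {e : OpenPartialHomeomorph (SX 4) ℂ}
    (he : e ∈ atlas ℂ (SX 4)) {x : SX 4} (hx : x ∈ (UU 4 i ∩ UU 4 j) ∩ e.source) :
    gt i j x = Matrix.diagonal ![(r * om 4 j e x) / (r * om 4 i e x), 1,
      (r * om 4 i e x) / (r * om 4 j e x)] := by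
  have hr' : (r : ℂ) ≠ 0 := by exact_mod_cast hr
  have hi : om 4 i e x ≠ 0 := om_three (by norm_num) hB hG he ⟨hx.1.1, hx.2⟩
  have hj : om 4 j e x ≠ 0 := om_three (by norm_num) hB hG he ⟨hx.1.2, hx.2⟩
  by_cases hij : i = j
  · subst hij
    simp only [gt, if_true]
    rw [← Matrix.diagonal_one]
    congr 1
    funext a
    fin_cases a <;> simp [hi, hr']
  · rw [gt, if_neg hij]
    have h3 := om_rel hB hG hij he hx
    have h1 := VV_ne hB i j hij x hx.1
    congr 1
    funext a
    fin_cases a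
    · simp only [Fin.zero_eta, Matrix.cons_val_zero]
      rw [h3]; field_simp
    · simp
    · simp only [Fin.reduceFinMk, Matrix.cons_val]
      rw [h3]; field_simp

/-- `HT` lies on the Hitchin section -/
theorem HT_section {r : ℝ} (hr : r ≠ 0) (c : ℝ) : InHitchinComponent (HT hB hG r c) := by
  have hr' : (r : ℂ) ≠ 0 := by exact_mod_cast hr
  refine ⟨dq2 r c, dq3 r c, fun i e x => r * om 4 i e x, ?_, ?_, ?_, ?_, ?_, ?_, ?_⟩
  · exact diff_aux hB hG 2 r _ (qa r c) (qa_diff r c)
      (fun e he i x hx hxe => dq2_eq hB hG r c he i hx hxe)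
  · exact diff_aux hB hG 3 r _ (qb r c) (qb_diff r c)
      (fun e he i x hx hxe => dq3_eq hB hG r c he i hx hxe)
  · intro i e he
    exact (om_one (by norm_num) hB hG he i).const_mul _
  · intro i e he e' he' x hx
    show (r : ℂ) * om 4 i e x = _
    rw [om_two hB hG he he' hx]
    ring
  · intro i e he x hx
    exact mul_ne_zero hr' (om_three (by norm_num) hB hG he hx)
  · intro i j e he x hx
    exact gt_om hB hG hr i j he hx
  · intro i e he x hx
    have hi : om 4 i e x ≠ 0 := om_three (by norm_num) hB hG he hx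
    show ((r : ℂ) * om 4 i e x) • cmp (qa r c i (VV 4 i x)) (qb r c i (VV 4 i x)) = _
    rw [dq2_eq hB hG r c he i hx.1 hx.2, dq3_eq hB hG r c he i hx.1 hx.2]
    generalize qa r c i (VV 4 i x) = a
    generalize qb r c i (VV 4 i x) = b
    generalize om 4 i e x = t at *
    ext s u
    fin_cases s <;> fin_cases u <;> simp [cmp] <;> field_simp

omit [ChartedSpace ℂ (SX 4)] in
theorem blk_charpoly (r c : ℝ) (i : Bool) (v t : ℂ) :
    (t • blk r c i v).charpoly = (t • cmp (qa r c i v) (qb r c i v)).charpoly := by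
  apply Polynomial.funext
  intro l
  rw [Matrix.eval_charpoly, Matrix.eval_charpoly, Matrix.det_fin_three, Matrix.det_fin_three]
  cases i
  · simp [blk, cmp, qa, qb, Matrix.scalar_apply]
    ring
  · simp [blk, cmp, qa, qb, Matrix.scalar_apply]
    ring

/-- the two bundles lie in the same Hitchin fibre -/
theorem same_fibre (r c : ℝ) : SameHitchinFibre (EB hB hG r c) (HT hB hG r c) := by
  have key : ∀ (i i' : Bool), ∀ e ∈ atlas ℂ (SX 4), ∀ x ∈ (UU 4 i ∩ UU 4 i') ∩ e.source,
      (((r : ℂ) * om 4 i e x) • blk r c i (VV 4 i x)).charpoly =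
      (((r : ℂ) * om 4 i' e x) • cmp (qa r c i' (VV 4 i' x)) (qb r c i' (VV 4 i' x))).charpoly := by
    intro i i' e he x hx
    by_cases hij : i = i'
    · subst hij
      exact blk_charpoly r c i _ _
    · have h1 := VV_ne hB i i' hij x hx.1
      have h2 := VV_inv hB i i' hij x hx.1
      have h3 := om_rel hB hG hij he hx
      have h4 := blk_rel r c i h1
      rw [← bne hij, ← h2] at h4
      rw [h4, h3, smul_smul, ← blk_charpoly]
      congr 2
      ring
  exact key

/-- the two bundles are not isomorphic -/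
theorem not_iso {r : ℝ} (hr : r ≠ 0) (c : ℝ) : ¬ Isomorphic (EB hB hG r c) (HT hB hG r c) := by
  have hr' : (r : ℂ) ≠ 0 := by exact_mod_cast hr
  rintro ⟨f, -, h2, -, h4⟩
  obtain ⟨x, hx, hV, hY⟩ := hB.surj true 0 1 (by norm_num)
  have he := chart_mem_atlas ℂ x
  have hxe := mem_chart_source ℂ x
  have h5 := h4 true true (chartAt ℂ x) he x ⟨⟨hx, hx⟩, hxe⟩
  have h6 := h2 true true x ⟨hx, hx⟩
  have h7 : (EB hB hG r c).φ true (chartAt ℂ x) x = 0 := by
    show ((r : ℂ) * om 4 true (chartAt ℂ x) x) • blk r c true (VV 4 true x) = 0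
    rw [hV]
    have : blk r c true 0 = 0 := by
      ext s u
      fin_cases s <;> fin_cases u <;> simp [blk]
    rw [this, smul_zero]
  rw [h7, Matrix.mul_zero] at h5
  have h8 : (HT hB hG r c).φ true (chartAt ℂ x) x = 0 := by
    have h9 : (HT hB hG r c).φ true (chartAt ℂ x) x * f true true x * (f true true x)⁻¹ = 0 := by
      rw [← h5, Matrix.zero_mul]
    rwa [Matrix.mul_assoc, Matrix.mul_nonsing_inv _ h6, Matrix.mul_one] at h9
  have h9 : ((r : ℂ) * om 4 true (chartAt ℂ x) x) • cmp (qa r c true (VV 4 true x))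
      (qb r c true (VV 4 true x)) = 0 := h8
  have h10 := congrFun (congrFun h9 1) 0
  have hom : om 4 true (chartAt ℂ x) x ≠ 0 := om_three (by norm_num) hB hG he ⟨hx, hxe⟩
  simp [cmp, hr', hom] at h10

end

end Pool.Agent.H794
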