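import Pool.Agent.H794.EBlow

/-!
# Uniqueness of the harmonic metric on the Hitchin section
-/

set_option autoImplicit false

open scoped Manifold ContDiff Matrix ComplexOrder
open Matrix Topology Set Filter

namespace Pool.Agent.H794

open Pool.Agent.Helper614.HE Pool.Agent.Helper614.HE.P_UN1 Pool.Agent.Helper614.HE.P_UN2
  Pool.Agent.Helper614.HE.P_TH

section

variable [ChartedSpace ℂ (SX 4)] (hB : SBasic 4) (hG : SGood 4)

include hB hG in
/-- sections which vanish at infinity are zero -/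
theorem ext_zero {k : ℕ} (hk : k ≠ 0) (s : ℂ) {f0 f1 : SX 4 → ℂ}
    (h0 : ∀ e ∈ atlas ℂ (SX 4), ∀ z ∈ e.target, e.symm z ∈ UU 4 false →
      DifferentiableAt ℂ (fun w => f0 (e.symm w)) z)
    (h1 : ∀ e ∈ atlas ℂ (SX 4), ∀ z ∈ e.target, e.symm z ∈ UU 4 true →
      DifferentiableAt ℂ (fun w => f1 (e.symm w)) z)
    (hrel : ∀ x ∈ UU 4 false, x ∈ UU 4 true → f0 x = s * VV 4 true x ^ k * f1 x) :
    ∀ x ∈ UU 4 false, f0 x = 0 := by
  classical
  let F : SX 4 → ℂ := fun x => if x ∈ UU 4 false then f0 x else 0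
  have hF0 : ∀ x ∈ UU 4 false, F x = f0 x := fun x hx => if_pos hx
  have hF1 : ∀ x ∈ UU 4 true, F x = s * VV 4 true x ^ k * f1 x := by
    intro x hx
    by_cases hx0 : x ∈ UU 4 false
    · rw [hF0 x hx0]; exact hrel x hx0 hx
    · have h2 : F x = 0 := if_neg hx0
      have h3 : VV 4 true x = 0 := by
        by_contra hne
        exact hx0 ((hB.mem_other true x hx).2 hne)
      rw [h2, h3, zero_pow hk, mul_zero, zero_mul]
  have hFd : ∀ e ∈ atlas ℂ (SX 4), ∀ z ∈ e.target,
      DifferentiableAt ℂ (fun w => F (e.symm w)) z := by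
    intro e he z hz
    rcases hB.cover (e.symm z) with hx | hx
    · refine (h0 e he z hz hx).congr_of_eventuallyEq ?_
      filter_upwards [(TH_open hB e false).mem_nhds ⟨hz, hx⟩] with w hw
      exact hF0 _ hw.2
    · have h2 : DifferentiableAt ℂ (fun w => s * VV 4 true (e.symm w) ^ k * f1 (e.symm w)) z :=
        (((TH_diffV hB hG he ⟨hz, hx⟩).fun_pow k).const_mul s).fun_mul (h1 e he z hz hx)
      refine h2.congr_of_eventuallyEq ?_
      filter_upwards [(TH_open hB e true).mem_nhds ⟨hz, hx⟩] with w hw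
      exact hF1 _ hw.2
  obtain ⟨x0, hx0, hV0, -⟩ := hB.surj true 0 1 (by norm_num)
  intro x hx
  rw [← hF0 x hx, holo_const hG.surface hFd x x0, hF1 x0 hx0, hV0, zero_pow hk, mul_zero, zero_mul]

variable {hB hG}

/-- **uniqueness** -/
theorem HT_unique {r c : ℝ} (hr : r ≠ 0) {h₁ h₂ : Bool → SX 4 → M3}
    (H1 : IsHarmonicMetric (HT hB hG r c) 1 h₁) (H2 : IsHarmonicMetric (HT hB hG r c) 1 h₂) :
    ∀ x ∈ UU 4 false, h₁ false x = h₂ false x := by
  have hX := hG.surface
  set g : Bool → SX 4 → M3 := fun i x => (h₂ i x)⁻¹ * h₁ i x with hg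
  have hgd : ∀ i, ∀ e ∈ atlas ℂ (SX 4), ∀ z ∈ e.target, e.symm z ∈ UU 4 i → ∀ a b,
      DifferentiableAt ℂ (fun w => g i (e.symm w) a b) z := fun i e he z hz hi a b =>
    (compare hX H1 H2 he hz hi).2 a b
  have hrel : ∀ x ∈ UU 4 false, x ∈ UU 4 true → ∀ a b, g false x a b =
      (![-(VV 4 true x ^ 10), 1, (-(VV 4 true x ^ 10))⁻¹] : Fin 3 → ℂ) b * g true x a b *
      ((![-(VV 4 true x ^ 10), 1, (-(VV 4 true x ^ 10))⁻¹] : Fin 3 → ℂ) a)⁻¹ := by
    intro x hx hx' a b
    have e1 := H1.glue true false x ⟨hx', hx⟩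
    have e2 := H2.glue true false x ⟨hx', hx⟩
    have e0 : (HT hB hG r c).g true false x =
        Matrix.diagonal ![-(VV 4 true x ^ 10), 1, (-(VV 4 true x ^ 10))⁻¹] := by
      show gt true false x = _
      simp [gt]
    have hV : VV 4 true x ≠ 0 := (hB.mem_other true x hx').1 hx
    have hl : -(VV 4 true x ^ 10) ≠ 0 := neg_ne_zero.2 (pow_ne_zero _ hV)
    set G : M3 := (HT hB hG r c).g true false x with hGdef
    have hdet : G.det = 1 := (HT hB hG r c).det_g true false x ⟨hx', hx⟩
    have uG : IsUnit G.det := by rw [hdet]; exact isUnit_one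
    have uG' : IsUnit (Gᴴ).det := by rw [Matrix.det_conjTranspose, hdet, star_one]; exact isUnit_one
    have e3 : g false x = G⁻¹ * g true x * G := by
      show (h₂ false x)⁻¹ * h₁ false x = G⁻¹ * ((h₂ true x)⁻¹ * h₁ true x) * G
      rw [e1, e2, Matrix.mul_inv_rev, Matrix.mul_inv_rev]
      calc G⁻¹ * ((h₂ true x)⁻¹ * (Gᴴ)⁻¹) * (Gᴴ * h₁ true x * G)
          = G⁻¹ * (h₂ true x)⁻¹ * ((Gᴴ)⁻¹ * Gᴴ) * h₁ true x * G := by simp only [Matrix.mul_assoc]
        _ = _ := by rw [Matrix.nonsing_inv_mul _ uG', Matrix.mul_one]; simp only [Matrix.mul_assoc]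
    have hinv : G⁻¹ = Matrix.diagonal (fun i =>
        ((![-(VV 4 true x ^ 10), 1, (-(VV 4 true x ^ 10))⁻¹] : Fin 3 → ℂ) i)⁻¹) := by
      apply Matrix.inv_eq_left_inv
      rw [e0, Matrix.diagonal_mul_diagonal, ← Matrix.diagonal_one]
      congr 1
      funext i
      fin_cases i
      · exact inv_mul_cancel₀ hl
      · exact inv_mul_cancel₀ one_ne_zero
      · exact inv_mul_cancel₀ (inv_ne_zero hl)
    rw [e3, hinv, e0, Matrix.mul_diagonal, Matrix.diagonal_mul]
    ring
  have h20 : ∀ x ∈ UU 4 false, g false x 2 0 = 0 := by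
    refine ext_zero hB hG (k := 20) (by norm_num) 1 (fun e he z hz hi => hgd false e he z hz hi 2 0)
      (f1 := fun x => g true x 2 0) (fun e he z hz hi => hgd true e he z hz hi 2 0) ?_
    intro x hx hx'
    have := hrel x hx hx' 2 0
    rw [this]
    simp
    ring
  have h10 : ∀ x ∈ UU 4 false, g false x 1 0 = 0 := by
    refine ext_zero hB hG (k := 10) (by norm_num) (-1)
      (fun e he z hz hi => hgd false e he z hz hi 1 0)
      (f1 := fun x => g true x 1 0) (fun e he z hz hi => hgd true e he z hz hi 1 0) ?_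
    intro x hx hx'
    have := hrel x hx hx' 1 0
    rw [this]
    simp
  intro x hx
  -- commutation with the Higgs field
  set e := chartAt ℂ x with he
  have hea : e ∈ atlas ℂ (SX 4) := chart_mem_atlas ℂ x
  have hxe : x ∈ e.source := mem_chart_source ℂ x
  have hz : e x ∈ e.target := e.map_source hxe
  have hsx : e.symm (e x) = x := e.left_inv hxe
  have hi : e.symm (e x) ∈ (HT hB hG r c).U false := by rw [hsx]; exact hx
  have key := (compare hX H1 H2 hea hz hi).1
  rw [hsx] at key
  set a := qa r c false (VV 4 false x) with ha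
  set b := qb r c false (VV 4 false x) with hb
  have e3 : (HT hB hG r c).φ false e x = ((r : ℂ) * om 4 false e x) • cmp a b := rfl
  have hgx : (h₂ false x)⁻¹ * h₁ false x = g false x := rfl
  rw [e3, hgx, Matrix.mul_smul, Matrix.smul_mul] at key
  have hne : (r : ℂ) * om 4 false e x ≠ 0 :=
    mul_ne_zero (by exact_mod_cast hr) (om_three (by norm_num) hB hG hea ⟨hx, hxe⟩)
  have hcomm : g false x * cmp a b = cmp a b * g false x := smul_right_injective _ hne key
  have c1 := h10 x hx
  have c2 := h20 x hx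
  have k00 := congrFun (congrFun hcomm 0) 0
  have k10 := congrFun (congrFun hcomm 1) 0
  have k20 := congrFun (congrFun hcomm 2) 0
  have k01 := congrFun (congrFun hcomm 0) 1
  have k11 := congrFun (congrFun hcomm 1) 1
  have k21 := congrFun (congrFun hcomm 2) 1
  simp [cmp, Matrix.mul_apply, Fin.sum_univ_three, c1, c2] at k00 k10 k20
  simp [cmp, Matrix.mul_apply, Fin.sum_univ_three, c1, c2, k00, k10, k20] at k01 k11 k21
  have hscal : g false x = (g false x 0 0) • (1 : M3) := by
    ext s t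
    fin_cases s <;> fin_cases t <;> simp [c1, c2, k00, k10, k20, k01, k11, k21]
    · linear_combination k01
  have u2 : IsUnit (h₂ false x).det := by rw [H2.det false x hx]; exact isUnit_one
  have h12 : h₁ false x = (g false x 0 0) • h₂ false x := by
    have : h₂ false x * g false x = h₁ false x := by
      show h₂ false x * ((h₂ false x)⁻¹ * h₁ false x) = _
      rw [← Matrix.mul_assoc, Matrix.mul_nonsing_inv _ u2, Matrix.one_mul]
    rw [← this, hscal, Matrix.mul_smul, Matrix.mul_one]
    simp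
  have hdet3 : (g false x 0 0) ^ 3 = 1 := by
    have := congrArg Matrix.det h12
    rw [Matrix.det_smul, H1.det false x hx, H2.det false x hx, mul_one, Fintype.card_fin] at this
    exact this.symm
  -- positivity
  have p1 := (H1.posDef false x hx).diag_pos (i := 0)
  have p2 := (H2.posDef false x hx).diag_pos (i := 0)
  have h00 : h₁ false x 0 0 = g false x 0 0 * h₂ false x 0 0 := by
    conv_lhs => rw [h12]
    rfl
  obtain ⟨p1r, p1i⟩ := Complex.lt_def.mp p1
  obtain ⟨p2r, p2i⟩ := Complex.lt_def.mp p2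
  simp only [Complex.zero_re, Complex.zero_im] at p1r p1i p2r p2i
  set t := g false x 0 0 with ht
  have ti : t.im = 0 := by
    have := congrArg Complex.im h00
    rw [Complex.mul_im, ← p1i, ← p2i, mul_zero, zero_add] at this
    rcases mul_eq_zero.1 this.symm with h | h
    · exact h
    · exact absurd h p2r.ne'
  have tr : 0 < t.re := by
    have := congrArg Complex.re h00
    rw [Complex.mul_re, ← p2i, mul_zero, sub_zero] at this
    rw [this] at p1r
    exact pos_of_mul_pos_left p1r p2r.le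
  have t1 : t = (t.re : ℂ) := Complex.ext rfl (by simp [ti])
  have t3 : t.re ^ 3 = 1 := by
    rw [t1] at hdet3
    exact_mod_cast hdet3
  have t4 : t.re = 1 := by
    have := (pow_eq_one_iff_of_nonneg tr.le (by norm_num : (3 : ℕ) ≠ 0)).1 t3
    exact this
  rw [h12, t1, t4, Complex.ofReal_one, one_smul]

end

end Pool.Agent.H794
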