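import Pool.Graph.R_seed8.Helper608.Brouwer

/-!
# The fixed point theorems of Schauder and Leray-Schauder
-/

set_option autoImplicit false

open Topology Set Filter Metric

namespace Pool.Agent.H794

/-- **Schauder's theorem** for continuous maps with values in a compact set -/
theorem schauder {B : Type*} [NormedAddCommGroup B] [NormedSpace ℝ B] (S : B → B)
    (hS : Continuous S) (K : Set B) (hK : IsCompact K) (hm : ∀ x, S x ∈ K) : ∃ x, S x = x := by
  have happ : ∀ ε : ℝ, 0 < ε → ∃ x, ‖S x - x‖ < ε := by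
    intro ε hε
    obtain ⟨t, htK, htf, hcov⟩ := hK.finite_cover_balls hε
    obtain ⟨s, rfl⟩ := htf.exists_finset_coe
    let lam : s → B → ℝ := fun i y => max 0 (ε - ‖y - i‖)
    have hlam0 : ∀ i y, 0 ≤ lam i y := fun i y => le_max_left _ _
    have hlamc : ∀ i, Continuous (lam i) := fun i =>
      continuous_const.max (continuous_const.sub ((continuous_id.sub continuous_const).norm))
    have hsum : ∀ y ∈ K, 0 < ∑ i, lam i y := by
      intro y hy
      obtain ⟨i, hi, hyi⟩ : ∃ i ∈ (s : Set B), y ∈ Metric.ball i ε := by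
        simpa using hcov hy
      refine Finset.sum_pos' (fun i _ => hlam0 i y) ⟨⟨i, hi⟩, Finset.mem_univ _, ?_⟩
      rw [Metric.mem_ball, dist_eq_norm] at hyi
      exact lt_max_of_lt_right (by simpa using hyi)
    let sf : (s → ℝ) → B := fun w => ∑ i, w i • (i : B)
    have hsc : Continuous sf := continuous_finsetSum _ fun i _ =>
      (continuous_apply i).smul continuous_const
    let G : (s → ℝ) → (s → ℝ) := fun w i => lam i (S (sf w)) / ∑ j, lam j (S (sf w))
    have hGc : Continuous G := by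
      refine continuous_pi fun i => ?_
      exact ((hlamc i).comp (hS.comp hsc)).div
        (continuous_finsetSum _ fun j _ => (hlamc j).comp (hS.comp hsc))
        (fun w => (hsum _ (hm _)).ne')
    have hG1 : ∀ w, ‖G w‖ ≤ 1 := by
      intro w
      rw [pi_norm_le_iff_of_nonneg zero_le_one]
      intro i
      have h1 := hsum _ (hm (sf w))
      rw [Real.norm_eq_abs, abs_of_nonneg (div_nonneg (hlam0 _ _) h1.le), div_le_one h1]
      exact Finset.single_le_sum (f := fun j => lam j (S (sf w))) (fun j _ => hlam0 j _)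
        (Finset.mem_univ i)
    obtain ⟨w, hw⟩ := Pool.Agent.Helper608.Brouwer.brouwer G hGc 1 hG1
    refine ⟨sf w, ?_⟩
    set y := S (sf w) with hy
    have hL := hsum y (hm _)
    have e1 : sf w = ∑ i, (lam i y / ∑ j, lam j y) • (i : B) := by
      conv_lhs => rw [← hw]
    have e2 : y = ∑ i, (lam i y / ∑ j, lam j y) • y := by
      rw [← Finset.sum_smul, ← Finset.sum_div, div_self hL.ne', one_smul]
    have e3 : y - sf w = ∑ i, (lam i y / ∑ j, lam j y) • (y - i) := by
      conv_lhs => rw [e1]; lhs; rw [e2]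
      rw [← Finset.sum_sub_distrib]
      exact Finset.sum_congr rfl fun i _ => by rw [smul_sub]
    rw [e3]
    have hterm : ∀ i : s, ‖(lam i y / ∑ j, lam j y) • (y - i)‖ ≤ (lam i y / ∑ j, lam j y) * ε := by
      intro i
      rw [norm_smul, Real.norm_eq_abs, abs_of_nonneg (div_nonneg (hlam0 _ _) hL.le)]
      by_cases h : ‖y - i‖ ≤ ε
      · exact mul_le_mul_of_nonneg_left h (div_nonneg (hlam0 _ _) hL.le)
      · have : lam i y = 0 := max_eq_left (by linarith [not_le.1 h])
        rw [this]; simp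
    obtain ⟨i0, hi0⟩ : ∃ i, 0 < lam i y := by
      by_contra hcon
      push Not at hcon
      exact absurd (Finset.sum_nonpos fun i _ => hcon i) (not_le.2 hL)
    calc ‖∑ i, (lam i y / ∑ j, lam j y) • (y - (i : B))‖
        ≤ ∑ i, ‖(lam i y / ∑ j, lam j y) • (y - (i : B))‖ := norm_sum_le _ _
      _ < ∑ i, (lam i y / ∑ j, lam j y) * ε := by
          refine Finset.sum_lt_sum (fun i _ => hterm i) ⟨i0, Finset.mem_univ _, ?_⟩
          rw [norm_smul, Real.norm_eq_abs, abs_of_nonneg (div_nonneg (hlam0 _ _) hL.le)]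
          apply mul_lt_mul_of_pos_left _ (div_pos hi0 hL)
          by_contra hcon
          have : lam i0 y = 0 := max_eq_left (by linarith [not_lt.1 hcon])
          exact absurd this hi0.ne'
      _ = ε := by
          rw [← Finset.sum_mul, ← Finset.sum_div, div_self hL.ne', one_mul]
  choose x hx using fun n : ℕ => happ (1 / (n + 1)) (by positivity)
  obtain ⟨y, hyK, φ, hφ, hlim⟩ := hK.tendsto_subseq fun n => hm (x n)
  have hsub : Tendsto (fun n => S (x (φ n)) - x (φ n)) atTop (𝓝 0) := by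
    rw [tendsto_zero_iff_norm_tendsto_zero]
    refine squeeze_zero (fun n => norm_nonneg _) (fun n => (hx (φ n)).le) ?_
    exact tendsto_one_div_add_atTop_nhds_zero_nat.comp hφ.tendsto_atTop
  have hx' : Tendsto (fun n => x (φ n)) atTop (𝓝 y) := by
    have := hlim.sub hsub
    simpa using this
  refine ⟨y, ?_⟩
  exact tendsto_nhds_unique ((hS.tendsto y).comp hx') hlim

/-- **The Leray-Schauder theorem** -/
theorem leray_schauder {B : Type*} [NormedAddCommGroup B] [NormedSpace ℝ B] (T : ℝ → B → B)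
    (R : ℝ) (hR : 0 < R)
    (hc : ContinuousOn (fun p : ℝ × B => T p.1 p.2) (Icc (0 : ℝ) 1 ×ˢ univ))
    (hK : ∃ K : Set B, IsCompact K ∧ ∀ t ∈ Icc (0 : ℝ) 1, ∀ x, ‖x‖ ≤ R → T t x ∈ K)
    (h0 : ∀ x, T 0 x = 0) (hfix : ∀ t ∈ Icc (0 : ℝ) 1, ∀ x, ‖x‖ ≤ R → T t x = x → ‖x‖ < R) :
    ∃ x, T 1 x = x := by
  obtain ⟨K, hK, hTK⟩ := hK
  -- the set of the fixed points
  set F : Set B := {x | ‖x‖ ≤ R ∧ ∃ t ∈ Icc (0 : ℝ) 1, T t x = x} with hF
  have hFc : IsClosed F := by
    apply isClosed_of_closure_subset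
    intro x hx
    obtain ⟨u, hu, hux⟩ := mem_closure_iff_seq_limit.1 hx
    have hxR : ‖x‖ ≤ R := le_of_tendsto hux.norm (Eventually.of_forall fun n => (hu n).1)
    choose t ht hft using fun n => (hu n).2
    obtain ⟨s, hs, φ, hφ, hlim⟩ := isCompact_Icc.tendsto_subseq ht
    refine ⟨hxR, s, hs, ?_⟩
    have h1 : Tendsto (fun n => (t (φ n), u (φ n))) atTop (𝓝 (s, x)) :=
      hlim.prodMk_nhds (hux.comp hφ.tendsto_atTop)
    have h2 : Tendsto (fun n => (t (φ n), u (φ n))) atTop
        (𝓝[Icc (0 : ℝ) 1 ×ˢ univ] (s, x)) :=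
      tendsto_nhdsWithin_iff.2 ⟨h1, Eventually.of_forall fun n => ⟨ht _, trivial⟩⟩
    have h3 := (hc (s, x) ⟨hs, trivial⟩).tendsto.comp h2
    have h4 : Tendsto (fun n => u (φ n)) atTop (𝓝 (T s x)) := by
      refine h3.congr fun n => ?_
      exact hft (φ n)
    exact tendsto_nhds_unique h4 (hux.comp hφ.tendsto_atTop)
  set A : Set B := {x | R ≤ ‖x‖} with hA
  have hAc : IsClosed A := isClosed_le continuous_const continuous_norm
  have hdisj : Disjoint A F := by
    rw [Set.disjoint_left]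
    rintro x hx ⟨hx1, t, ht, hfx⟩
    exact absurd (hfix t ht x hx1 hfx) (not_lt.2 hx)
  obtain ⟨α, hα0, hα1, hα01⟩ := exists_continuous_zero_one_of_isClosed hAc hFc hdisj
  let S : B → B := fun x => T (α x) x
  have hSc : Continuous S := by
    have h1 : Continuous fun x => ((α x, x) : ℝ × B) := α.continuous.prodMk continuous_id
    exact hc.comp_continuous h1 fun x => ⟨hα01 x, trivial⟩
  have hSK : ∀ x, S x ∈ insert (0 : B) K := by
    intro x
    rcases le_or_gt ‖x‖ R with h | h
    · exact Or.inr (hTK _ (hα01 x) x h)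
    · left
      show T (α x) x = 0
      have : α x = 0 := hα0 (show R ≤ ‖x‖ from h.le)
      rw [this, h0]
  obtain ⟨x, hx⟩ := schauder S hSc _ (hK.insert 0) hSK
  have hxR : ‖x‖ ≤ R := by
    by_contra hcon
    push Not at hcon
    have h1 : α x = 0 := hα0 (show R ≤ ‖x‖ from hcon.le)
    have h2 : x = 0 := by
      rw [← hx]
      show T (α x) x = 0
      rw [h1, h0]
    rw [h2, norm_zero] at hcon
    linarith
  have hxF : x ∈ F := ⟨hxR, α x, hα01 x, hx⟩
  refine ⟨x, ?_⟩
  have h1 : α x = 1 := hα1 hxF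
  have h2 : T (α x) x = x := hx
  rwa [h1] at h2

end Pool.Agent.H794
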