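import Pool.Agent.H794.HTsec
import Pool.Agent.H794.EBpol
import Pool.Agent.H794.EX.Exist

/-!
# The energy density of the Hitchin section is not maximal
-/

set_option autoImplicit false

open scoped Manifold ContDiff Matrix ComplexOrder
open Matrix Topology Set Filter

namespace Pool.Agent.H794

open Pool.Agent.Helper614.HE Pool.Agent.Helper614.HE.P_TH

theorem energy_smul (H M : M3) (t : ℂ) :
    ((((1 : ℝ) : ℂ) • (t • M)) * adj H (((1 : ℝ) : ℂ) • (t • M))).trace.re =
      ‖t‖ ^ 2 * nrm H M := by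
  have h1 : adj H (t • M) = (starRingEnd ℂ t) • adj H M := by
    simp only [adj, Matrix.conjTranspose_smul, Matrix.mul_smul, Matrix.smul_mul, starRingEnd_apply]
  rw [Complex.ofReal_one, one_smul, h1, Matrix.smul_mul, Matrix.mul_smul, smul_smul,
    Matrix.trace_smul, Complex.mul_conj, nrm, smul_eq_mul, Complex.re_ofReal_mul,
    Complex.normSq_eq_norm_sq]

section

variable [ChartedSpace ℂ (SX 4)] {hB : SBasic 4} {hG : SGood 4}

theorem energy_lt (C : ℝ) : ∃ r c : ℝ, 0 < r ∧ 0 < c ∧ 16 * c < r ^ 2 ∧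
    ∀ h h' : Bool → SX 4 → M3,
    IsHarmonicMetric (EB hB hG r c) 1 h → IsHarmonicMetric (HT hB hG r c) 1 h' →
    ∀ ρ : OpenPartialHomeomorph (SX 4) ℂ → SX 4 → ℝ, IsConformalMetric (SX 4) ρ →
    ∀ i i' : Bool, sg r 0 ∈ UU 4 i ∩ UU 4 i' → ∀ e ∈ atlas ℂ (SX 4), sg r 0 ∈ e.source →
      C * energyDensity (HT hB hG r c) ρ 1 h' i' e (sg r 0) <
        energyDensity (EB hB hG r c) ρ 1 h i e (sg r 0) := by
  set D : ℝ := max C 1 with hD
  have hD1 : 1 ≤ D := le_max_right _ _
  set c : ℝ := 1 / (100 * D) with hc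
  have hc0 : 0 < c := by positivity
  have hcD : D * c = 1 / 100 := by
    rw [hc]; field_simp
  have hc1 : c ≤ 1 / 100 := by
    rw [← hcD]; nlinarith
  obtain ⟨r0, hr0⟩ := HT_up (hB := hB) (hG := hG) hc0 (by linarith)
  refine ⟨max 7 r0, c, lt_of_lt_of_le (by norm_num) (le_max_left _ _), hc0, ?_, ?_⟩
  · have h7 : (7 : ℝ) ≤ max 7 r0 := le_max_left _ _
    nlinarith
  set r : ℝ := max 7 r0 with hr
  intro h h' H H' ρ hρ i i' hx e he hxe
  have h1 := EB_low (r := r) (lt_of_lt_of_le (by norm_num) (le_max_left _ _)) hc0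
    (by linarith) H
  have h2 := hr0 r (le_max_right _ _) h' H'
  have hV : VV 4 false (sg r 0) = 0 := by
    rw [sg_V hB, zero_div]
  have hnt : sg r 0 ∉ UU 4 true := by
    intro hmem
    exact (hB.mem_other false _ (sg_mem r 0)).1 hmem hV
  have hi : i = false := by
    cases i
    · rfl
    · exact absurd hx.1 hnt
  have hi' : i' = false := by
    cases i'
    · rfl
    · exact absurd hx.2 hnt
  subst hi
  subst hi'
  set t : ℂ := (r : ℂ) * om 4 false e (sg r 0) with ht
  have ht0 : t ≠ 0 := by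
    have hr1 : (0 : ℝ) < r := lt_of_lt_of_le (by norm_num) (le_max_left _ _)
    exact mul_ne_zero (by exact_mod_cast hr1.ne') (om_three (by norm_num) hB hG he ⟨sg_mem r 0, hxe⟩)
  have e1 : energyDensity (EB hB hG r c) ρ 1 h false e (sg r 0) =
      8 * (‖t‖ ^ 2 * nrm (h false (sg r 0)) (blx c 0)) / ρ e (sg r 0) := by
    rw [← energy_smul]
    unfold energyDensity
    have : (EB hB hG r c).φ false e (sg r 0) = t • blx c 0 := by
      show ((r : ℂ) * om 4 false e (sg r 0)) • blk r c false (VV 4 false (sg r 0)) = _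
      rw [blx_eq, hV, mul_zero]
    rw [this]
  have e2 : energyDensity (HT hB hG r c) ρ 1 h' false e (sg r 0) =
      8 * (‖t‖ ^ 2 * nrm (h' false (sg r 0)) (Ph c 0)) / ρ e (sg r 0) := by
    rw [← energy_smul]
    unfold energyDensity
    have : (HT hB hG r c).φ false e (sg r 0) = t • Ph c 0 := by
      show ((r : ℂ) * om 4 false e (sg r 0)) • cmp (qa r c false (VV 4 false (sg r 0)))
        (qb r c false (VV 4 false (sg r 0))) = _
      rw [Ph_cmp, hV, mul_zero]
    rw [this]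
  rw [e1, e2]
  have hρp : 0 < ρ e (sg r 0) := hρ.pos e he _ hxe
  have ht2 : 0 < ‖t‖ ^ 2 := by positivity
  have h3 : C * nrm (h' false (sg r 0)) (Ph c 0) < nrm (h false (sg r 0)) (blx c 0) := by
    rcases le_or_gt 0 (nrm (h' false (sg r 0)) (Ph c 0)) with h0 | h0
    · calc C * nrm (h' false (sg r 0)) (Ph c 0) ≤ D * nrm (h' false (sg r 0)) (Ph c 0) :=
          mul_le_mul_of_nonneg_right (le_max_left _ _) h0
        _ ≤ D * (4 * c) := mul_le_mul_of_nonneg_left h2 (by linarith)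
        _ = 4 / 100 := by rw [show D * (4 * c) = 4 * (D * c) by ring, hcD]; norm_num
        _ < 7 / 64 := by norm_num
        _ ≤ _ := h1
    · exfalso
      have hpd := H'.posDef false (sg r 0) (sg_mem r 0)
      exact absurd (nrm_nonneg hpd _) (not_le.2 h0)
  rw [← mul_div_assoc]
  apply div_lt_div_of_pos_right _ hρp
  have h4 := mul_lt_mul_of_pos_left h3 ht2
  calc C * (8 * (‖t‖ ^ 2 * nrm (h' false (sg r 0)) (Ph c 0))) =
      8 * (‖t‖ ^ 2 * (C * nrm (h' false (sg r 0)) (Ph c 0))) := by ring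
    _ < _ := by linarith

end

/-- the final statement -/
theorem final : ∃ (X : Type) (_ : TopologicalSpace X) (_ : ChartedSpace ℂ X),
      IsClosedRiemannSurface X ∧ GenusAtLeastTwo X ∧ ∀ C : ℝ,
      ∃ E E' : HiggsBundle 3 X, IsPolystable E ∧ InHitchinComponent E' ∧ SameHitchinFibre E E' ∧
        ¬ Isomorphic E E' ∧ (∃ h, IsHarmonicMetric E 1 h) ∧ (∃ h', IsHarmonicMetric E' 1 h') ∧
        ∃ p : X, ∀ h h', IsHarmonicMetric E 1 h → IsHarmonicMetric E' 1 h' →
        ∀ ρ : OpenPartialHomeomorph X ℂ → X → ℝ, IsConformalMetric X ρ →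
        ∀ i i', p ∈ E.U i ∩ E'.U i' → ∀ e ∈ atlas ℂ X, p ∈ e.source →
          C * energyDensity E' ρ 1 h' i' e p < energyDensity E ρ 1 h i e p := by
  have hB : SBasic (4 * 1) := All.hSB (4 * 1) (by norm_num)
  obtain ⟨inst, hG⟩ := All.hSG (4 * 1) (by norm_num)
  have hgen := All.hGEN 1 le_rfl inst hB hG
  refine ⟨SX (4 * 1), inferInstance, inst, hG.surface, hgen, fun C => ?_⟩
  obtain ⟨r, c, hr, hc, hrc, hE⟩ := energy_lt (hB := hB) (hG := hG) C
  exact ⟨EB hB hG r c, HT hB hG r c, EB_polystable hB hG hr hc, HT_section hB hG hr.ne' c,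
    same_fibre hB hG r c, not_iso hB hG hr.ne' c, EX.exists_EB inst hB hG hr hc hrc,
    EX.exists_HT inst hB hG c hr, sg r 0, hE⟩

end Pool.Agent.H794
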