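import Pool.Agent.H794.Trans

/-!
# The holomorphic form `dv / y³` on the curve `y⁴ = v^{4m} + 1`
-/

set_option autoImplicit false

open scoped Manifold ContDiff Matrix ComplexOrder
open Matrix Topology Set Filter

namespace Pool.Agent.H794

open Pool.Agent.Helper614.HE Pool.Agent.Helper614.HE.P_TH

/-- The coefficient at `x`, in the coordinate `e`, of the holomorphic 1-form `dv/y³` of the copy
`j` of the affine curve. (Since `y⁴ = v^{4m} + 1`, it is equal to `dy / (m v^{4m-1})`.) -/
noncomputable def om (m : ℕ) (j : Bool) (e : OpenPartialHomeomorph (SX m) ℂ) (x : SX m) : ℂ :=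
  if YY m j x ≠ 0 then deriv (fun z => VV m j (e.symm z)) (e x) / YY m j x ^ 3
  else deriv (fun z => YY m j (e.symm z)) (e x) / ((m : ℂ) * VV m j x ^ (4 * m - 1))

section

variable {m : ℕ} [ChartedSpace ℂ (SX m)]

theorem om_four (hm : 3 ≤ m) (hB : SBasic m) (hG : SGood m) {e : OpenPartialHomeomorph (SX m) ℂ}
    (he : e ∈ atlas ℂ (SX m)) {j : Bool} {x : SX m} (hx : x ∈ UU m j ∩ e.source) :
    deriv (fun z => VV m j (e.symm z)) (e x) = om m j e x * YY m j x ^ 3 := by
  by_cases hY : YY m j x = 0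
  · have := TH_four hm hB hG he hx
    rw [this, hY]
    simp
  · unfold om
    rw [if_pos hY, div_mul_cancel₀ _ (pow_ne_zero _ hY)]

omit [ChartedSpace ℂ (SX m)] in
theorem om_val1 {e : OpenPartialHomeomorph (SX m) ℂ} {j : Bool} {z : ℂ} (hz : z ∈ e.target)
    (hY : YY m j (e.symm z) ≠ 0) :
    om m j e (e.symm z) = deriv (fun z => VV m j (e.symm z)) z / YY m j (e.symm z) ^ 3 := by
  unfold om
  rw [if_pos hY, e.right_inv hz]

theorem om_val2 (hm : 3 ≤ m) (hB : SBasic m) (hG : SGood m) {e : OpenPartialHomeomorph (SX m) ℂ}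
    (he : e ∈ atlas ℂ (SX m)) {j : Bool} {z : ℂ} (hz : z ∈ e.target ∩ e.symm ⁻¹' UU m j)
    (hV : VV m j (e.symm z) ≠ 0) :
    om m j e (e.symm z) = deriv (fun z => YY m j (e.symm z)) z /
      ((m : ℂ) * VV m j (e.symm z) ^ (4 * m - 1)) := by
  by_cases hY : YY m j (e.symm z) = 0
  · unfold om
    rw [if_neg (not_not.2 hY), e.right_inv hz.1]
  · rw [om_val1 hz.1 hY]
    have hd := TH_deq hB hG he hz
    have hm0 : (m : ℂ) ≠ 0 := by
      have : m ≠ 0 := by omega
      exact_mod_cast this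
    have h1 : (m : ℂ) * VV m j (e.symm z) ^ (4 * m - 1) ≠ 0 := mul_ne_zero hm0 (pow_ne_zero _ hV)
    rw [div_eq_div_iff (pow_ne_zero _ hY) h1]
    linear_combination -hd

/-- the form is holomorphic -/
theorem om_one (hm : 3 ≤ m) (hB : SBasic m) (hG : SGood m) {e : OpenPartialHomeomorph (SX m) ℂ}
    (he : e ∈ atlas ℂ (SX m)) (j : Bool) :
    DifferentiableOn ℂ (fun z => om m j e (e.symm z)) (e.target ∩ e.symm ⁻¹' UU m j) := by
  intro z hz
  apply DifferentiableAt.differentiableWithinAt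
  have hO := (TH_open hB e j).mem_nhds hz
  have hdV := TH_diffV hB hG he hz
  have hdY := TH_diffY hB hG he hz
  by_cases hY : YY m j (e.symm z) = 0
  · have hV : VV m j (e.symm z) ≠ 0 := TH_V_ne hm (hB.eqn j _ hz.2) hY
    have hev : (fun z => om m j e (e.symm z)) =ᶠ[𝓝 z] fun z =>
        deriv (fun z => YY m j (e.symm z)) z / ((m : ℂ) * VV m j (e.symm z) ^ (4 * m - 1)) := by
      filter_upwards [hO, hdV.continuousAt.eventually_ne hV] with w hw hw'
      exact om_val2 hm hB hG he hw hw'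
    refine DifferentiableAt.congr_of_eventuallyEq ?_ hev
    have hdY' : DifferentiableAt ℂ (deriv (fun z => YY m j (e.symm z))) z :=
      ((hG.holoY e he j).deriv (TH_open hB e j)).differentiableAt hO
    have hm0 : (m : ℂ) ≠ 0 := by
      have : m ≠ 0 := by omega
      exact_mod_cast this
    exact hdY'.fun_div ((differentiableAt_const _).fun_mul (hdV.fun_pow _))
      (mul_ne_zero hm0 (pow_ne_zero _ hV))
  · have hev : (fun z => om m j e (e.symm z)) =ᶠ[𝓝 z] fun z =>
        deriv (fun z => VV m j (e.symm z)) z / YY m j (e.symm z) ^ 3 := by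
      filter_upwards [hO, hdY.continuousAt.eventually_ne hY] with w hw hw'
      exact om_val1 hw.1 hw'
    refine DifferentiableAt.congr_of_eventuallyEq ?_ hev
    have hdV' : DifferentiableAt ℂ (deriv (fun z => VV m j (e.symm z))) z :=
      ((hG.holoV e he j).deriv (TH_open hB e j)).differentiableAt hO
    exact hdV'.fun_div (hdY.fun_pow 3) (pow_ne_zero _ hY)

/-- change of charts -/
theorem om_two (hB : SBasic m) (hG : SGood m) {e e' : OpenPartialHomeomorph (SX m) ℂ}
    (he : e ∈ atlas ℂ (SX m)) (he' : e' ∈ atlas ℂ (SX m)) {j : Bool} {x : SX m}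
    (hx : x ∈ UU m j ∩ (e.source ∩ e'.source)) :
    om m j e x = deriv (e' ∘ e.symm) (e x) * om m j e' x := by
  have hz' : e' x ∈ e'.target ∩ e'.symm ⁻¹' UU m j := TH_mem ⟨hx.1, hx.2.2⟩
  have hV := TH_chain hB hG he he' hx.2 (VV m j) (TH_diffV hB hG he' hz')
  have hY := TH_chain hB hG he he' hx.2 (YY m j) (TH_diffY hB hG he' hz')
  unfold om
  by_cases hY0 : YY m j x = 0
  · rw [if_neg (not_not.2 hY0), if_neg (not_not.2 hY0), hY]
    ring
  · rw [if_pos hY0, if_pos hY0, hV]
    ring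

/-- relation of the two copies -/
theorem om_five (hm : 3 ≤ m) (hB : SBasic m) (hG : SGood m) {e : OpenPartialHomeomorph (SX m) ℂ}
    (he : e ∈ atlas ℂ (SX m)) {j : Bool} {x : SX m}
    (hx : x ∈ (UU m j ∩ UU m (!j)) ∩ e.source) :
    om m (!j) e x = -(VV m j x ^ (3 * m - 2)) * om m j e x := by
  have hx1 : x ∈ UU m j ∩ e.source := ⟨hx.1.1, hx.2⟩
  have hx2 : x ∈ UU m (!j) ∩ e.source := ⟨hx.1.2, hx.2⟩
  have hV0 : VV m j x ≠ 0 := (hB.mem_other j x hx.1.1).1 hx.1.2
  have hYo := hB.YY_other j x hx.1.1 hx.1.2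
  have hVo := hB.VV_other j x hx.1.1 hx.1.2
  by_cases hY : YY m j x = 0
  · have hY' : YY m (!j) x = 0 := by rw [hYo, hY, zero_div]
    have hz := TH_mem hx1
    obtain ⟨-, -, hev⟩ := TH_over hB hz (TH_mem hx2)
    have hdV := (TH_diffV hB hG he hz).hasDerivAt
    have hdY := (TH_diffY hB hG he hz).hasDerivAt
    have hd : deriv (fun z => YY m (!j) (e.symm z)) (e x) =
        deriv (fun z => YY m j (e.symm z)) (e x) / VV m j x ^ m := by
      rw [hev.deriv_eq]
      have h1 := hdY.fun_div (hdV.fun_pow m) (by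
        rw [e.left_inv hx.2]; exact pow_ne_zero _ hV0)
      rw [h1.deriv, e.left_inv hx.2, hY]
      have : VV m j x ^ m ≠ 0 := pow_ne_zero _ hV0
      field_simp
      ring
    unfold om
    rw [if_neg (not_not.2 hY), if_neg (not_not.2 hY'), hd, hVo]
    obtain ⟨n, rfl⟩ : ∃ n, m = n + 3 := ⟨m - 3, by omega⟩
    have hm0 : ((n + 3 : ℕ) : ℂ) ≠ 0 := by
      have : n + 3 ≠ 0 := by omega
      exact_mod_cast this
    have e1 : VV (n + 3) j x ^ (4 * (n + 3)) = -1 := by
      have := hB.eqn j x hx.1.1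
      rw [hY] at this
      have h4 : (0 : ℂ) ^ 4 = 0 := by norm_num
      rw [h4] at this
      linear_combination -this
    have e2 : 4 * (n + 3) - 1 = 4 * n + 11 := by omega
    have e3 : 3 * (n + 3) - 2 = 3 * n + 7 := by omega
    rw [e2, e3]
    set V := VV (n + 3) j x
    have e4 : V ^ (4 * n + 11) * V = -1 := by
      rw [← e1, ← pow_succ]
      congr 1
    have e5 : V ^ (4 * n + 11) = -V⁻¹ := by
      field_simp
      linear_combination e4
    rw [inv_pow, e5]
    have e6 : V ^ (3 * n + 7) * V ^ (n + 3) * V = V ^ (4 * n + 11) := by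
      rw [← pow_add, ← pow_succ]
      congr 1
      omega
    have e7 : V ^ (3 * n + 7) * V ^ (n + 3) * V = -V⁻¹ := by rw [e6, e5]
    have hVn : V ^ (n + 3) ≠ 0 := pow_ne_zero _ hV0
    generalize hD : deriv (fun z => YY (n + 3) j (e.symm z)) (e x) = D
    have e8 : V ^ (3 * n + 7) = -(V⁻¹ * V⁻¹) / V ^ (n + 3) := by
      field_simp
      have : V ^ (3 * n + 7) * V ^ (n + 3) * V * V = -1 := by
        rw [e7]; field_simp
      linear_combination this
    rw [e8]
    field_simp
  · have hY' : YY m (!j) x ≠ 0 := by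
      rw [hYo]
      exact div_ne_zero hY (pow_ne_zero _ hV0)
    have hd := TH_dover hB hG he (TH_mem hx1) (TH_mem hx2)
    rw [e.left_inv hx.2] at hd
    unfold om
    rw [if_pos hY, if_pos hY', hd, hYo]
    obtain ⟨n, rfl⟩ : ∃ n, m = n + 2 := ⟨m - 2, by omega⟩
    have e3 : 3 * (n + 2) - 2 = 3 * n + 4 := by omega
    rw [e3]
    set V := VV (n + 2) j x
    set D := deriv (fun z => VV (n + 2) j (e.symm z)) (e x)
    set Y := YY (n + 2) j x
    have e6 : V ^ (3 * n + 4) * V ^ 2 = (V ^ (n + 2)) ^ 3 := by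
      rw [← pow_add, ← pow_mul]
      congr 1
      ring
    have e7 : V ^ (3 * n + 4) = (V ^ (n + 2)) ^ 3 / V ^ 2 := by
      rw [eq_div_iff (pow_ne_zero _ hV0), e6]
    rw [e7]
    have hVn : V ^ (n + 2) ≠ 0 := pow_ne_zero _ hV0
    field_simp

/-- the form does not vanish on its copy -/
theorem om_three (hm : 3 ≤ m) (hB : SBasic m) (hG : SGood m) {e : OpenPartialHomeomorph (SX m) ℂ}
    (he : e ∈ atlas ℂ (SX m)) {j : Bool} {x : SX m} (hx : x ∈ UU m j ∩ e.source) :
    om m j e x ≠ 0 := by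
  by_cases hY : YY m j x = 0
  · obtain ⟨j', hs, htype⟩ := hG.chart_type e he
    have hx' : x ∈ UU m j' ∩ e.source := ⟨hs hx.2, hx.2⟩
    have hV0 : VV m j x ≠ 0 := TH_V_ne hm (hB.eqn j _ hx.1) hY
    have hY' : YY m j' x = 0 := by
      by_cases hj : j' = j
      · rw [hj, hY]
      · have hj' : j' = !j := by
          cases j <;> cases j' <;> simp_all
        subst hj'
        rw [hB.YY_other j x hx.1 hx'.1, hY, zero_div]
    have ht : e.target ∈ 𝓝 (e x) := e.open_target.mem_nhds (e.map_source hx.2)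
    have hclaim : om m j' e x ≠ 0 := by
      rcases htype with ht' | ht'
      · exact absurd hY' (ht' x hx.2).2
      · have hev : (fun z => YY m j' (e.symm z)) =ᶠ[𝓝 (e x)] fun z => z := by
          filter_upwards [ht] with w hw
          rw [← (ht' _ (e.map_target hw)).1, e.right_inv hw]
        unfold om
        rw [if_neg (not_not.2 hY'), hev.deriv_eq, deriv_id'']
        have hm0 : (m : ℂ) ≠ 0 := by
          have : m ≠ 0 := by omega
          exact_mod_cast this
        exact div_ne_zero one_ne_zero (mul_ne_zero hm0 (pow_ne_zero _ (ht' x hx.2).2))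
    by_cases hj : j' = j
    · rwa [hj] at hclaim
    · have hj' : j' = !j := by
        cases j <;> cases j' <;> simp_all
      subst hj'
      intro h0
      apply hclaim
      rw [om_five hm hB hG he ⟨⟨hx.1, hx'.1⟩, hx.2⟩, h0, mul_zero]
  · unfold om
    rw [if_pos hY]
    exact div_ne_zero (TH_dV_ne hB hG he hx hY) (pow_ne_zero _ hY)

end

end Pool.Agent.H794
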