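import Pool.Agent.H794.Est

/-!
# The scalar equation: a lower bound
-/

set_option autoImplicit false

open scoped Manifold ContDiff Matrix ComplexOrder
open Matrix Topology Set Filter

namespace Pool.Agent.H794

open Pool.Agent.Helper614.HE Pool.Agent.Helper614.HE.P_UN1 Pool.Agent.Helper614.HE.P_UN2

theorem L_neg {g : ℂ → ℝ} {z : ℂ} (hg : ContDiffAt ℝ 2 g z) :
    UN2_L (fun w => - g w) z = - UN2_L g z := by
  have h2 := UN2_L_add (g := fun _ => (0 : ℝ)) (z := z) contDiffAt_const hg (-1)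
  have h3 : UN2_L (fun _ => (0 : ℝ)) z = 0 := by unfold UN2_L; simp
  rw [h3, zero_add] at h2
  have e : (fun w => - g w) = fun w => 0 + -1 * g w := by funext w; ring
  rw [e, h2]; ring

/-- lower bound on the circle of radius 2 -/
theorem scal_circle {c R : ℝ} (hc0 : 0 < c) (hc : c ≤ 1 / 10) (hR : 3 < R) {u W : ℂ → ℝ}
    (hu : ∀ x : ℂ, ‖x‖ < R → ContDiffAt ℝ 2 u x)
    (hW : ∀ x : ℂ, ‖x‖ < R → 9 / 10 ≤ W x ∧ W x ≤ 11 / 10)
    (heq : ∀ x : ℂ, ‖x‖ < R →
      UN2_L u x = 8 * W x * (Real.exp (u x) - ‖x ^ 2 - c‖ ^ 2 * Real.exp (-u x)))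
    (x1 : ℂ) (hx1 : ‖x1‖ = 2) : Real.exp (-u x1) ≤ 11 / 5 := by
  have hball : ∀ y : ℂ, ‖y - x1‖ ≤ 1 → ‖y‖ < R ∧ 1 ≤ ‖y‖ := by
    intro y hy
    constructor
    · calc ‖y‖ = ‖(y - x1) + x1‖ := by ring_nf
        _ ≤ ‖y - x1‖ + ‖x1‖ := norm_add_le _ _
        _ < R := by linarith
    · have : ‖x1‖ ≤ ‖y - x1‖ + ‖y‖ := by
        calc ‖x1‖ = ‖y - (y - x1)‖ := by ring_nf
          _ ≤ ‖y‖ + ‖y - x1‖ := norm_sub_le _ _
          _ = _ := by ring
      linarith
  set G : ℂ → ℝ := fun y => (1 - qq x1 y) ^ 2 * Real.exp (-u y) with hG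
  have hx1m : x1 ∈ Metric.closedBall x1 (1 : ℝ) := Metric.mem_closedBall_self zero_le_one
  have hGc : ContinuousOn G (Metric.closedBall x1 1) := by
    intro y hy
    rw [Metric.mem_closedBall, dist_eq_norm] at hy
    have h1 : ContinuousAt (qq x1) y := (qq_cd x1).continuous.continuousAt
    exact (((continuousAt_const.sub h1).pow 2).mul
      (hu y (hball y hy).1).continuousAt.neg.rexp).continuousWithinAt
  obtain ⟨x2, hx2, hmax⟩ := (isCompact_closedBall x1 (1 : ℝ)).exists_isMaxOn ⟨x1, hx1m⟩ hGc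
  have hx2' : ‖x2 - x1‖ ≤ 1 := by rwa [Metric.mem_closedBall, dist_eq_norm] at hx2
  have hG1 : G x1 = Real.exp (-u x1) := by simp [hG, qq]
  have hG12 : Real.exp (-u x1) ≤ G x2 := by rw [← hG1]; exact hmax hx1m
  have hE1 := Real.exp_pos (-u x1)
  have hE2 := Real.exp_pos (-u x2)
  have hlt : ‖x2 - x1‖ < 1 := by
    rcases hx2'.eq_or_lt with h | h
    · exfalso
      have : G x2 = 0 := by simp only [hG, qq_eq, h]; norm_num
      linarith
    · exact h
  have hq2 : qq x1 x2 < 1 := by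
    rw [qq_eq]; nlinarith [norm_nonneg (x2 - x1)]
  have hq2' : 0 ≤ qq x1 x2 := by rw [qq_eq]; positivity
  have hsq : (1 - qq x1 x2) ^ 2 ≤ 1 := by nlinarith
  have hsq0 : 0 < (1 - qq x1 x2) ^ 2 := by
    have : 0 < 1 - qq x1 x2 := by linarith
    positivity
  by_cases hbig : Real.exp (-u x2) < 2
  · have h1 : G x2 ≤ Real.exp (-u x2) := by
      simp only [hG]
      nlinarith
    linarith
  · push Not at hbig
    have hloc : IsLocalMax (fun y => -u y + 2 * Real.log (1 + (-1) * qq x1 y)) x2 := by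
      have hnb : Metric.ball x1 1 ∈ 𝓝 x2 := Metric.isOpen_ball.mem_nhds (by
        rw [Metric.mem_ball, dist_eq_norm]; exact hlt)
      have hf : ∀ y ∈ Metric.ball x1 1, -u y + 2 * Real.log (1 + (-1) * qq x1 y) =
          Real.log (G y) := by
        intro y hy
        rw [Metric.mem_ball, dist_eq_norm] at hy
        have h5 : 0 < 1 - qq x1 y := by
          rw [qq_eq]; nlinarith [norm_nonneg (y - x1)]
        simp only [hG]
        rw [Real.log_mul (by positivity) (Real.exp_pos _).ne', Real.log_pow, Real.log_exp]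
        have : 1 + -1 * qq x1 y = 1 - qq x1 y := by ring
        rw [this]
        push_cast
        ring
      filter_upwards [hnb] with y hy
      rw [hf y hy, hf x2 (by rw [Metric.mem_ball, dist_eq_norm]; exact hlt)]
      have h7 : G y ≤ G x2 := hmax (Metric.ball_subset_closedBall hy)
      rw [Metric.mem_ball, dist_eq_norm] at hy
      have h5 : 0 < 1 - qq x1 y := by
        rw [qq_eq]; nlinarith [norm_nonneg (y - x1)]
      exact Real.log_le_log (by simp only [hG]; positivity) h7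
    obtain ⟨hxR, hx1'⟩ := hball x2 hx2'
    obtain ⟨l1, l2, -⟩ := L_logq (c := x1) (z := x2) (a := 1) (b := -1) (by linarith)
    have hun : ContDiffAt ℝ 2 (fun y => -u y) x2 := (hu x2 hxR).neg
    have h8 := UN2_max (hun.add (contDiffAt_const.mul l1)) hloc
    rw [UN2_L_add hun l1 2, l2, L_neg (hu x2 hxR), heq x2 hxR] at h8
    obtain ⟨w1, w2⟩ := hW x2 hxR
    have hQ : 9 / 10 ≤ ‖x2 ^ 2 - (c : ℂ)‖ := by
      have h1 : ‖x2 ^ 2‖ - ‖(c : ℂ)‖ ≤ ‖x2 ^ 2 - (c : ℂ)‖ := norm_sub_norm_le _ _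
      rw [norm_pow, Complex.norm_real, Real.norm_eq_abs, abs_of_pos hc0] at h1
      nlinarith
    have hQ2 : 81 / 100 ≤ ‖x2 ^ 2 - (c : ℂ)‖ ^ 2 := by nlinarith
    have heu : Real.exp (u x2) ≤ 1 / 2 := by
      have : Real.exp (u x2) * Real.exp (-u x2) = 1 := by
        rw [← Real.exp_add]; simp
      nlinarith [Real.exp_pos (u x2)]
    have e1 : 2 * (4 * 1 * -1 / (1 + -1 * qq x1 x2) ^ 2) = -(8 / (1 - qq x1 x2) ^ 2) := by
      have : 1 + -1 * qq x1 x2 = 1 - qq x1 x2 := by ring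
      rw [this]; ring
    rw [e1] at h8
    have h9 : W x2 * (‖x2 ^ 2 - (c : ℂ)‖ ^ 2 * Real.exp (-u x2)) ≤
        W x2 * Real.exp (u x2) + 1 / (1 - qq x1 x2) ^ 2 := by
      have : 8 / (1 - qq x1 x2) ^ 2 = 8 * (1 / (1 - qq x1 x2) ^ 2) := by ring
      rw [this] at h8
      linarith
    have h10 : 729 / 1000 * Real.exp (-u x2) ≤ 55 / 100 + 1 / (1 - qq x1 x2) ^ 2 := by
      have h11 : 729 / 1000 ≤ W x2 * ‖x2 ^ 2 - (c : ℂ)‖ ^ 2 := by nlinarith
      have h12 : W x2 * Real.exp (u x2) ≤ 55 / 100 := by nlinarith [Real.exp_pos (u x2)]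
      nlinarith
    have h13 : 729 / 1000 * G x2 ≤ 155 / 100 := by
      have h14 : (1 - qq x1 x2) ^ 2 * (729 / 1000 * Real.exp (-u x2)) ≤
          (1 - qq x1 x2) ^ 2 * (55 / 100 + 1 / (1 - qq x1 x2) ^ 2) := by gcongr
      have h15 : (1 - qq x1 x2) ^ 2 * (55 / 100 + 1 / (1 - qq x1 x2) ^ 2) =
          55 / 100 * (1 - qq x1 x2) ^ 2 + 1 := by
        rw [mul_add, mul_one_div, div_self hsq0.ne']
        ring
      rw [h15] at h14
      simp only [hG]
      nlinarith
    linarith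

/-- **the lower bound at the centre** -/
theorem scal_bound {c R : ℝ} (hc0 : 0 < c) (hc : c ≤ 1 / 10) (hR : 3 < R) {u W : ℂ → ℝ}
    (hu : ∀ x : ℂ, ‖x‖ < R → ContDiffAt ℝ 2 u x)
    (hW : ∀ x : ℂ, ‖x‖ < R → 9 / 10 ≤ W x ∧ W x ≤ 11 / 10)
    (heq : ∀ x : ℂ, ‖x‖ < R →
      UN2_L u x = 8 * W x * (Real.exp (u x) - ‖x ^ 2 - c‖ ^ 2 * Real.exp (-u x))) :
    7 / 64 ≤ Real.exp (u 0) := by
  set b : ℂ → ℝ := fun x => Real.log 7 + (-2) * Real.log (8 + (-1) * qq 0 x) with hb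
  have hq : ∀ x : ℂ, qq 0 x = ‖x‖ ^ 2 := fun x => by rw [qq_eq]; simp
  have hpos : ∀ x : ℂ, ‖x‖ ≤ 2 → 0 < 8 + (-1) * qq 0 x := by
    intro x hx
    rw [hq]; nlinarith [norm_nonneg x]
  have hbe : ∀ x : ℂ, ‖x‖ ≤ 2 → Real.exp (b x) = 7 / (8 + (-1) * qq 0 x) ^ 2 := by
    intro x hx
    have h1 := hpos x hx
    simp only [hb]
    rw [Real.exp_add, Real.exp_log (by norm_num)]
    have : -2 * Real.log (8 + -1 * qq 0 x) = -(Real.log ((8 + -1 * qq 0 x) ^ 2)) := by
      rw [Real.log_pow]; push_cast; ring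
    rw [this, Real.exp_neg, Real.exp_log (by positivity)]
    ring
  have hbc : ∀ x : ℂ, ‖x‖ ≤ 2 → ContDiffAt ℝ 2 b x := by
    intro x hx
    obtain ⟨l1, -, -⟩ := L_logq (c := 0) (z := x) (a := 8) (b := -1) (hpos x hx)
    exact contDiffAt_const.add (contDiffAt_const.mul l1)
  have hbL : ∀ x : ℂ, ‖x‖ ≤ 2 → UN2_L b x = 64 / 7 * Real.exp (b x) := by
    intro x hx
    obtain ⟨l1, l2, -⟩ := L_logq (c := 0) (z := x) (a := 8) (b := -1) (hpos x hx)
    have h2 := UN2_L_add (g := fun _ => Real.log 7) (z := x) contDiffAt_const l1 (-2)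
    have h3 : UN2_L (fun _ => Real.log 7) x = 0 := by unfold UN2_L; simp
    rw [h3, zero_add, l2] at h2
    rw [hbe x hx]
    have h4 : UN2_L b x = _ := h2
    rw [h4]
    ring
  have hcomp := max_principle (w := fun x => b x + (-1) * u x) (x1 := 0) (r := 2)
    (by
      intro x hx
      rw [Metric.mem_closedBall, dist_zero_right] at hx
      exact ((hbc x hx).continuousAt.add (continuousAt_const.mul
        (hu x (by linarith)).continuousAt)).continuousWithinAt)
    (by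
      intro x hx
      rw [sub_zero] at hx
      have h1 := scal_circle hc0 hc hR hu hW heq x hx
      have h2 : Real.exp (b x) = 7 / 16 := by
        rw [hbe x hx.le, hq, hx]; norm_num
      have h3 : b x ≤ u x := by
        rw [← Real.exp_le_exp, h2]
        have : Real.exp (u x) * Real.exp (-u x) = 1 := by
          rw [← Real.exp_add]; simp
        nlinarith [Real.exp_pos (u x), Real.exp_pos (-u x)]
      linarith)
    (by
      intro x hx hpos'
      rw [sub_zero] at hx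
      have hxR : ‖x‖ < R := by linarith
      refine ⟨(hbc x hx.le).add (contDiffAt_const.mul (hu x hxR)), ?_⟩
      rw [UN2_L_add (hbc x hx.le) (hu x hxR), hbL x hx.le, heq x hxR]
      obtain ⟨w1, w2⟩ := hW x hxR
      have h1 : Real.exp (u x) < Real.exp (b x) := Real.exp_lt_exp.2 (by linarith)
      have h2 := Real.exp_pos (u x)
      have h3 : 0 ≤ ‖x ^ 2 - (c : ℂ)‖ ^ 2 * Real.exp (-u x) := by positivity
      nlinarith)
  have h0 := hcomp 0 (by simp)
  have h1 : Real.exp (b 0) = 7 / 64 := by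
    rw [hbe 0 (by simp)]
    simp [qq]
    norm_num
  rw [← h1]
  exact Real.exp_le_exp.2 (by linarith)

end Pool.Agent.H794
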