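import Pool.Agent.H794.EBsym
import Pool.Agent.H794.Scal

/-!
# The disc in the surface
-/

set_option autoImplicit false

open scoped Manifold ContDiff Matrix ComplexOrder
open Matrix Topology Set Filter

namespace Pool.Agent.H794

open Pool.Agent.Helper614.HE Pool.Agent.Helper614.HE.P_UN1 Pool.Agent.Helper614.HE.P_UN2
  Pool.Agent.Helper614.HE.P_TH

/-- the branch of the fourth root -/
noncomputable def yv (v : ℂ) : ℂ := (v ^ (4 * 4) + 1) ^ (((4 : ℕ) : ℂ)⁻¹)

theorem yv_pow (v : ℂ) : yv v ^ 4 = v ^ (4 * 4) + 1 :=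
  Complex.cpow_nat_inv_pow _ (by norm_num)

theorem yv_slit {v : ℂ} (hv : ‖v‖ < 1) : v ^ (4 * 4) + 1 ∈ Complex.slitPlane := by
  left
  have h1 : ‖v ^ (4 * 4)‖ < 1 := by
    rw [norm_pow]
    exact pow_lt_one₀ (norm_nonneg _) hv (by norm_num)
  have h2 := Complex.abs_re_le_norm (v ^ (4 * 4))
  rw [abs_le] at h2
  simp only [Complex.add_re, Complex.one_re]
  linarith

theorem yv_diff {v : ℂ} (hv : ‖v‖ < 1) : DifferentiableAt ℂ yv v := by
  unfold yv
  exact DifferentiableAt.cpow (by fun_prop) (by fun_prop) (yv_slit hv)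

theorem yv_ne {v : ℂ} (hv : ‖v‖ < 1) : yv v ≠ 0 := by
  intro h
  have h1 := yv_pow v
  rw [h, zero_pow (by norm_num)] at h1
  exact Complex.slitPlane_ne_zero (yv_slit hv) h1.symm

theorem yv_zero : yv 0 = 1 := by simp [yv]

/-- the section over the disc -/
noncomputable def sg (r : ℝ) (x : ℂ) : SX 4 := inc 4 false ⟨(x / r, yv (x / r)), yv_pow _⟩

theorem sg_mem (r : ℝ) (x : ℂ) : sg r x ∈ UU 4 false := ⟨_, rfl⟩

theorem norm_div_lt {r : ℝ} (hr : 0 < r) {x : ℂ} (hx : ‖x‖ < r) : ‖x / (r : ℂ)‖ < 1 := by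
  rw [norm_div, Complex.norm_real, Real.norm_eq_abs, abs_of_pos hr, div_lt_one hr]
  exact hx

section

variable [ChartedSpace ℂ (SX 4)] (hB : SBasic 4) (hG : SGood 4)

omit [ChartedSpace ℂ (SX 4)] in
include hB in
theorem sg_V (r : ℝ) (x : ℂ) : VV 4 false (sg r x) = x / r := hB.VV_inc _ _

omit [ChartedSpace ℂ (SX 4)] in
include hB in
theorem sg_Y (r : ℝ) (x : ℂ) : YY 4 false (sg r x) = yv (x / r) := hB.YY_inc _ _

omit [ChartedSpace ℂ (SX 4)] in
include hB in
theorem sg_cont {r : ℝ} (hr : 0 < r) {x : ℂ} (hx : ‖x‖ < r) : ContinuousAt (sg r) x := by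
  have h1 : Continuous (inc 4 false) := (hB.embed false).continuous
  unfold sg
  refine ContinuousAt.comp (g := inc 4 false) h1.continuousAt ?_
  rw [Topology.IsInducing.subtypeVal.continuousAt_iff]
  have h2 : ContinuousAt (fun x : ℂ => x / (r : ℂ)) x := by fun_prop
  have h3 : ContinuousAt (fun x : ℂ => yv (x / (r : ℂ))) x :=
    ContinuousAt.comp (g := yv) (yv_diff (norm_div_lt hr hx)).continuousAt h2
  exact h2.prodMk h3

include hB hG in
/-- the section is holomorphic -/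
theorem sg_holo {r : ℝ} (hr : 0 < r) {x : ℂ} (hx : ‖x‖ < r) {e : OpenPartialHomeomorph (SX 4) ℂ}
    (he : e ∈ atlas ℂ (SX 4)) (hxe : sg r x ∈ e.source) :
    DifferentiableAt ℂ (fun y => e (sg r y)) x := by
  have hr' : (r : ℂ) ≠ 0 := by exact_mod_cast hr.ne'
  obtain ⟨j, hs, htype⟩ := hG.chart_type e he
  have hc := sg_cont hB hr hx
  have hev : ∀ᶠ y in 𝓝 x, sg r y ∈ e.source := hc (e.open_source.mem_nhds hxe)
  have hV1 : DifferentiableAt ℂ (fun y : ℂ => y / (r : ℂ)) x := by fun_prop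
  have hY1 : DifferentiableAt ℂ (fun y : ℂ => yv (y / (r : ℂ))) x :=
    DifferentiableAt.comp x (yv_diff (norm_div_lt hr hx)) hV1
  rcases htype with ht | ht
  · have h1 : (fun y => e (sg r y)) =ᶠ[𝓝 x] fun y => VV 4 j (sg r y) := by
      filter_upwards [hev] with y hy
      exact (ht _ hy).1
    refine DifferentiableAt.congr_of_eventuallyEq ?_ h1
    cases j
    · simp only [sg_V hB]
      exact hV1
    · have hmem : sg r x ∈ UU 4 (!false) := hs hxe
      have hV0 : VV 4 false (sg r x) ≠ 0 := (hB.mem_other false _ (sg_mem r x)).1 hmem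
      have h2 : (fun y => VV 4 true (sg r y)) =ᶠ[𝓝 x] fun y => (y / (r : ℂ))⁻¹ := by
        filter_upwards [hev] with y hy
        have := hB.VV_other false _ (sg_mem r y) (hs hy)
        rw [sg_V hB] at this
        exact this
      refine DifferentiableAt.congr_of_eventuallyEq ?_ h2
      rw [sg_V hB] at hV0
      exact hV1.inv hV0
  · have h1 : (fun y => e (sg r y)) =ᶠ[𝓝 x] fun y => YY 4 j (sg r y) := by
      filter_upwards [hev] with y hy
      exact (ht _ hy).1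
    refine DifferentiableAt.congr_of_eventuallyEq ?_ h1
    cases j
    · simp only [sg_Y hB]
      exact hY1
    · have hmem : sg r x ∈ UU 4 (!false) := hs hxe
      have hV0 : VV 4 false (sg r x) ≠ 0 := (hB.mem_other false _ (sg_mem r x)).1 hmem
      have h2 : (fun y => YY 4 true (sg r y)) =ᶠ[𝓝 x] fun y =>
          yv (y / (r : ℂ)) / (y / (r : ℂ)) ^ 4 := by
        filter_upwards [hev] with y hy
        have := hB.YY_other false _ (sg_mem r y) (hs hy)
        rw [sg_V hB, sg_Y hB] at this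
        exact this
      refine DifferentiableAt.congr_of_eventuallyEq ?_ h2
      rw [sg_V hB] at hV0
      exact hY1.fun_div (hV1.fun_pow 4) (pow_ne_zero _ hV0)

include hB hG in
/-- a harmonic metric in the coordinate of the disc -/
theorem disc_sol {E : HiggsBundle 3 (SX 4)} {i : E.ι} (hU : E.U i = UU 4 false) {r : ℝ}
    (hr : 0 < r) {Φ : ℂ → M3} (hφ : ∀ e ∈ atlas ℂ (SX 4), ∀ x ∈ UU 4 false ∩ e.source,
      E.φ i e x = ((r : ℂ) * om 4 false e x) • Φ (r * VV 4 false x))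
    {h : E.ι → SX 4 → M3} (H : IsHarmonicMetric E 1 h) {x : ℂ} (hx : ‖x‖ < r) :
    (h i (sg r x)).PosDef ∧ (∀ a b, ContDiffAt ℝ 2 (fun y => h i (sg r y) a b) x) ∧
      Hit (fun y => h i (sg r y)) ((yv (x / r) ^ 3)⁻¹ • Φ x) x := by
  have hr' : (r : ℂ) ≠ 0 := by exact_mod_cast hr.ne'
  have hmem : ∀ y, sg r y ∈ E.U i := fun y => by rw [hU]; exact sg_mem r y
  set e := chartAt ℂ (sg r x) with he
  have hea : e ∈ atlas ℂ (SX 4) := chart_mem_atlas ℂ _
  have hxe : sg r x ∈ e.source := mem_chart_source ℂ _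
  set ψ : ℂ → ℂ := fun y => e (sg r y) with hψ
  have hc := sg_cont hB hr hx
  have hev : ∀ᶠ y in 𝓝 x, sg r y ∈ e.source := hc (e.open_source.mem_nhds hxe)
  have hball : ∀ᶠ y in 𝓝 x, ‖y‖ < r := ball_open_mem hx
  have hψd : ∀ᶠ y in 𝓝 x, DifferentiableAt ℂ ψ y := by
    filter_upwards [hev, hball] with y hy hy'
    exact sg_holo hB hG hr hy' hea hy
  have hψx : e.symm (ψ x) = sg r x := e.left_inv hxe
  have hz : ψ x ∈ e.target := e.map_source hxe
  have hi : e.symm (ψ x) ∈ E.U i := by rw [hψx]; exact hmem x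
  have heq : (fun y => h i (sg r y)) =ᶠ[𝓝 x] fun y => h i (e.symm (ψ y)) := by
    filter_upwards [hev] with y hy
    have h1 : e.symm (ψ y) = sg r y := e.left_inv hy
    rw [h1]
  refine ⟨H.posDef i _ (hmem x), ?_, ?_⟩
  · intro a b
    have h1 : ContDiffAt ℝ 2 (fun w => h i (e.symm w) a b) (ψ x) := hm_cd2 H hea hz hi a b
    have h2 : ContDiffAt ℝ 2 ψ x := by
      have := Complex.analyticAt_iff_eventually_differentiableAt.2 hψd
      exact (this.contDiffAt (n := 2)).restrict_scalars ℝ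
    have h3 : ContDiffAt ℝ 2 (fun y => h i (e.symm (ψ y)) a b) x := h1.comp x h2
    refine h3.congr_of_eventuallyEq ?_
    filter_upwards [heq] with y hy
    rw [hy]
  · have h1 := (hm_hit H hea hz hi).comp (ψ := ψ) (hm_pos H hz hi)
      (fun a b => hm_cd2 H hea hz hi a b) hψd
    have h2 : Hit (fun y => h i (sg r y)) (deriv ψ x • E.φ i e (e.symm (ψ x))) x := h1.congr heq
    rw [hψx, hφ e hea _ ⟨sg_mem r x, hxe⟩, sg_V hB, mul_div_cancel₀ _ hr', smul_smul] at h2
    have h3 : deriv ψ x * ((r : ℂ) * om 4 false e (sg r x)) = (yv (x / r) ^ 3)⁻¹ := by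
      have h4 := om_four (by norm_num) hB hG hea (j := false) ⟨sg_mem r x, hxe⟩
      rw [sg_Y hB] at h4
      have h5 : DifferentiableAt ℂ (fun z => VV 4 false (e.symm z)) (ψ x) :=
        TH_diffV hB hG hea (TH_mem ⟨sg_mem r x, hxe⟩)
      have h6 : HasDerivAt (fun y => VV 4 false (e.symm (ψ y)))
          (deriv (fun z => VV 4 false (e.symm z)) (ψ x) * deriv ψ x) x :=
        h5.hasDerivAt.comp x hψd.self_of_nhds.hasDerivAt
      have h7 : (fun y => VV 4 false (e.symm (ψ y))) =ᶠ[𝓝 x] fun y => y / (r : ℂ) := by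
        filter_upwards [hev] with y hy
        have h1 : e.symm (ψ y) = sg r y := e.left_inv hy
        rw [h1, sg_V hB]
      have h8 : HasDerivAt (fun y : ℂ => y / (r : ℂ)) (1 / (r : ℂ)) x :=
        (hasDerivAt_id x).div_const _
      have h9 := (h8.congr_of_eventuallyEq h7).unique h6
      have h10 : deriv (fun z => VV 4 false (e.symm z)) (ψ x) =
        om 4 false e (sg r x) * yv (x / r) ^ 3 := h4
      rw [h10] at h9
      refine eq_inv_of_mul_eq_one_left ?_
      have h11 : (r : ℂ) * (1 / (r : ℂ)) = 1 := by field_simp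
      rw [← h11, h9]
      ring
    rw [h3] at h2
    exact h2

omit [ChartedSpace ℂ (SX 4)] in
/-- bounds of the weight -/
theorem yv_bound {v : ℂ} (hv : ‖v‖ ≤ 1 / 2) :
    9 / 10 ≤ ‖(yv v ^ 3)⁻¹‖ ^ 2 ∧ ‖(yv v ^ 3)⁻¹‖ ^ 2 ≤ 11 / 10 := by
  have h1 : ‖v ^ (4 * 4)‖ ≤ 1 / 1000 := by
    rw [norm_pow]
    calc ‖v‖ ^ (4 * 4) ≤ (1 / 2) ^ (4 * 4) := pow_le_pow_left₀ (norm_nonneg _) hv _
      _ ≤ 1 / 1000 := by norm_num
  have h2 : ‖yv v‖ ^ 4 ≤ 1001 / 1000 := by
    rw [← norm_pow, yv_pow]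
    refine (norm_add_le _ _).trans ?_
    rw [norm_one]; linarith
  have h3 : 999 / 1000 ≤ ‖yv v‖ ^ 4 := by
    rw [← norm_pow, yv_pow]
    have := norm_sub_norm_le (1 : ℂ) (-(v ^ (4 * 4)))
    rw [norm_one, norm_neg, sub_neg_eq_add, add_comm (1 : ℂ)] at this
    linarith
  have hy0 := norm_nonneg (yv v)
  have h4 : ‖yv v‖ ≤ 1001 / 1000 := by
    by_contra hcon
    push Not at hcon
    have : (1001 / 1000 : ℝ) ^ 4 < ‖yv v‖ ^ 4 := pow_lt_pow_left₀ hcon (by norm_num) (by norm_num)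
    norm_num at this
    linarith
  have h5 : 998 / 1000 ≤ ‖yv v‖ := by
    by_contra hcon
    push Not at hcon
    have : ‖yv v‖ ^ 4 < (998 / 1000 : ℝ) ^ 4 := pow_lt_pow_left₀ hcon hy0 (by norm_num)
    norm_num at this
    linarith
  have hpos : 0 < ‖yv v‖ := by linarith
  rw [norm_inv, norm_pow, inv_pow, ← pow_mul]
  constructor
  · rw [le_inv_comm₀ (by norm_num) (by positivity)]
    calc ‖yv v‖ ^ (3 * 2) ≤ (1001 / 1000) ^ (3 * 2) := pow_le_pow_left₀ hy0 h4 _
      _ ≤ (9 / 10)⁻¹ := by norm_num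
  · rw [inv_le_comm₀ (by positivity) (by norm_num)]
    calc (11 / 10 : ℝ)⁻¹ ≤ (998 / 1000) ^ (3 * 2) := by norm_num
      _ ≤ ‖yv v‖ ^ (3 * 2) := pow_le_pow_left₀ (by norm_num) h5 _

end

end Pool.Agent.H794
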