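import Pool.Agent.H794.UnOne

/-!
# Transformations of solutions of Hitchin's equation
-/

set_option autoImplicit false

open scoped Manifold ContDiff Matrix ComplexOrder
open Matrix Topology Set Filter

namespace Pool.Agent.H794

open Pool.Agent.Helper614.HE Pool.Agent.Helper614.HE.P_UN1 Pool.Agent.Helper614.HE.P_UN2

/-- Hitchin's equation at the point `z` for the metric `H` and the Higgs field `P dz` -/
def Hit (H : ℂ → M3) (P : M3) (z : ℂ) : Prop :=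
  mdzb (fun w => (H w)⁻¹ * mdz H w) z = P * adj (H z) P - adj (H z) P * P

theorem mdzb_congr {A B : ℂ → M3} {z : ℂ} (h : A =ᶠ[𝓝 z] B) : mdzb A z = mdzb B z :=
  UN1_md_congr _ h

theorem mdz_congr {A B : ℂ → M3} {z : ℂ} (h : A =ᶠ[𝓝 z] B) : mdz A z = mdz B z := by
  rw [UN1_mdz, UN1_mdz]; exact UN1_md_congr _ h

theorem mdz_congr_ev {A B : ℂ → M3} {z : ℂ} (h : A =ᶠ[𝓝 z] B) : mdz A =ᶠ[𝓝 z] mdz B :=
  h.eventuallyEq_nhds.mono fun _ hw => mdz_congr hw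

theorem Hit.congr {H K : ℂ → M3} {P : M3} {z : ℂ} (h : Hit H P z) (e : K =ᶠ[𝓝 z] H) :
    Hit K P z := by
  unfold Hit at h ⊢
  have h1 : (fun w => (K w)⁻¹ * mdz K w) =ᶠ[𝓝 z] fun w => (H w)⁻¹ * mdz H w := by
    filter_upwards [e, mdz_congr_ev e] with w h1 h2
    rw [h1, h2]
  rw [mdzb_congr h1, h, e.self_of_nhds]

theorem adj_conj {H G P P' : M3} (hH : H.PosDef) (hG : IsUnit G.det) (h : G * P = P' * G) :
    adj (Gᴴ * H * G) P = G⁻¹ * adj H P' * G := by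
  have hG' : IsUnit (Gᴴ).det := by
    rw [Matrix.det_conjTranspose]
    exact isUnit_iff_ne_zero.mpr (star_ne_zero.mpr hG.ne_zero)
  have h1 : Pᴴ * Gᴴ = Gᴴ * P'ᴴ := by
    rw [← Matrix.conjTranspose_mul, h, Matrix.conjTranspose_mul]
  rw [adj, adj, Matrix.mul_inv_rev, Matrix.mul_inv_rev]
  calc G⁻¹ * (H⁻¹ * (Gᴴ)⁻¹) * Pᴴ * (Gᴴ * H * G)
      = G⁻¹ * H⁻¹ * (Gᴴ)⁻¹ * (Pᴴ * Gᴴ) * H * G := by simp only [Matrix.mul_assoc]
    _ = G⁻¹ * H⁻¹ * ((Gᴴ)⁻¹ * Gᴴ) * P'ᴴ * H * G := by rw [h1]; simp only [Matrix.mul_assoc]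
    _ = G⁻¹ * (H⁻¹ * P'ᴴ * H) * G := by
        rw [Matrix.nonsing_inv_mul _ hG', Matrix.mul_one]; simp only [Matrix.mul_assoc]

/-- congruence by a holomorphic matrix -/
theorem Hit.conj {H G : ℂ → M3} {P P' : M3} {z : ℂ} (h : Hit H P' z)
    (hp : ∀ᶠ w in 𝓝 z, (H w).PosDef) (hC : ∀ a b, ContDiffAt ℝ 2 (fun w => H w a b) z)
    (hG : ∀ᶠ w in 𝓝 z, (∀ a b, DifferentiableAt ℂ (fun w => G w a b) w) ∧ (G w).det ≠ 0)
    (hP : G z * P = P' * G z) : Hit (fun w => (G w)ᴴ * H w * G w) P z := by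
  have hd : ∀ᶠ w in 𝓝 z, (H w).det ≠ 0 := hp.mono fun w hw => ne_of_gt hw.det_pos
  have hDH := ev_of_cda hC
  -- the connection
  have hconn : (fun w => ((G w)ᴴ * H w * G w)⁻¹ * mdz (fun w => (G w)ᴴ * H w * G w) w) =ᶠ[𝓝 z]
      fun w => (G w)⁻¹ * ((H w)⁻¹ * mdz H w) * G w + (G w)⁻¹ * mdz G w := by
    filter_upwards [hDH, hd, hG] with w h1 h2 h3
    obtain ⟨h3, h4⟩ := h3
    have hGD : UN1_D G w := fun a b => (h3 a b).restrictScalars ℝ
    have hGc := UN1_D_herm hGD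
    have uG : IsUnit (G w).det := isUnit_iff_ne_zero.mpr h4
    have uH : IsUnit (H w).det := isUnit_iff_ne_zero.mpr h2
    have uG' : IsUnit ((G w)ᴴ).det := by
      rw [Matrix.det_conjTranspose]
      exact isUnit_iff_ne_zero.mpr (star_ne_zero.mpr h4)
    rw [UN1_mdz, UN1_md_mul _ (UN1_D_mul hGc h1) hGD, UN1_md_mul _ hGc h1, ← UN1_mdz, ← UN1_mdz,
      ← UN1_mdz, mdz_ct hGD, mdzb_holo h3, Matrix.conjTranspose_zero, Matrix.zero_mul, zero_add,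
      Matrix.mul_inv_rev, Matrix.mul_inv_rev, Matrix.mul_add]
    have a1 : (G w)⁻¹ * ((H w)⁻¹ * ((G w)ᴴ)⁻¹) * ((G w)ᴴ * mdz H w * G w) =
        (G w)⁻¹ * ((H w)⁻¹ * ((((G w)ᴴ)⁻¹ * (G w)ᴴ) * mdz H w)) * G w := by
      simp only [Matrix.mul_assoc]
    have a2 : (G w)⁻¹ * ((H w)⁻¹ * ((G w)ᴴ)⁻¹) * ((G w)ᴴ * H w * mdz G w) =
        (G w)⁻¹ * ((H w)⁻¹ * ((((G w)ᴴ)⁻¹ * (G w)ᴴ) * (H w * mdz G w))) := by
      simp only [Matrix.mul_assoc]
    rw [a1, a2, Matrix.nonsing_inv_mul _ uG', Matrix.one_mul, Matrix.one_mul,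
      ← Matrix.mul_assoc (H w)⁻¹ (H w), Matrix.nonsing_inv_mul _ uH, Matrix.one_mul]
  have hGz := hG.self_of_nhds
  have hGD : UN1_D G z := fun a b => (hGz.1 a b).restrictScalars ℝ
  have hGi : ∀ᶠ w in 𝓝 z, (G w).det ≠ 0 := hG.mono fun w hw => hw.2
  have hGiD := UN1_D_inv hGD hGz.2
  -- holomorphy
  have hmG : ∀ a b, DifferentiableAt ℂ (fun w => mdz G w a b) z := by
    intro a b
    have h2 : ∀ᶠ w in 𝓝 z, DifferentiableAt ℂ (fun w => G w a b) w :=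
      hG.mono fun w hw => hw.1 a b
    refine ((Complex.analyticAt_iff_eventually_differentiableAt.2 h2).deriv).differentiableAt.congr_of_eventuallyEq ?_
    filter_upwards [hG] with w hw
    rw [mdz_holo hw.1]; rfl
  have hmGD : UN1_D (mdz G) z := fun a b => (hmG a b).restrictScalars ℝ
  have hA : UN1_D (fun w => (H w)⁻¹ * mdz H w) z :=
    UN1_D_mul (UN1_D_inv hDH.self_of_nhds hd.self_of_nhds) (UN1_D_mdz hC)
  have hinv0 : UN1_md Complex.I (fun w => (G w)⁻¹) z = 0 := by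
    rw [UN1_md_inv _ hGD hGi, ← UN1_mdzb, mdzb_holo hGz.1]; simp
  have hG0 : UN1_md Complex.I G z = 0 := by rw [← UN1_mdzb, mdzb_holo hGz.1]
  have hmG0 : UN1_md Complex.I (mdz G) z = 0 := by rw [← UN1_mdzb, mdzb_holo hmG]
  have hD1 := UN1_D_mul (UN1_D_mul hGiD hA) hGD
  have hD2 := UN1_D_mul hGiD hmGD
  unfold Hit at h ⊢
  have hadd : mdzb (fun w => (G w)⁻¹ * ((H w)⁻¹ * mdz H w) * G w + (G w)⁻¹ * mdz G w) z =
      UN1_md Complex.I (fun w => (G w)⁻¹ * ((H w)⁻¹ * mdz H w) * G w) z +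
        UN1_md Complex.I (fun w => (G w)⁻¹ * mdz G w) z := by
    ext i j
    have e4 := fderiv_fun_add (hD1 i j) (hD2 i j)
    simp only [UN1_md, UN1_dd, mdzb, dzb, Matrix.of_apply, Matrix.add_apply]
    rw [e4]
    simp only [_root_.add_apply]
    ring
  rw [mdzb_congr hconn, hadd, UN1_md_mul _ (UN1_D_mul hGiD hA) hGD, UN1_md_mul _ hGiD hA,
    UN1_md_mul _ hGiD hmGD, hinv0, hG0, hmG0, ← UN1_mdzb, h]
  simp only [Matrix.zero_mul, Matrix.mul_zero, zero_add, add_zero]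
  have uG : IsUnit (G z).det := isUnit_iff_ne_zero.mpr hGz.2
  rw [adj_conj hp.self_of_nhds uG hP]
  have hPP : P = (G z)⁻¹ * P' * G z := by
    rw [Matrix.mul_assoc, ← hP, ← Matrix.mul_assoc, Matrix.nonsing_inv_mul _ uG, Matrix.one_mul]
  have b1 : P * ((G z)⁻¹ * adj (H z) P' * G z) = (G z)⁻¹ * (P' * adj (H z) P') * G z := by
    rw [hPP]
    calc (G z)⁻¹ * P' * G z * ((G z)⁻¹ * adj (H z) P' * G z)
        = (G z)⁻¹ * P' * (G z * (G z)⁻¹) * adj (H z) P' * G z := by simp only [Matrix.mul_assoc]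
      _ = _ := by rw [Matrix.mul_nonsing_inv _ uG, Matrix.mul_one]; simp only [Matrix.mul_assoc]
  have b2 : ((G z)⁻¹ * adj (H z) P' * G z) * P = (G z)⁻¹ * (adj (H z) P' * P') * G z := by
    rw [hPP]
    calc (G z)⁻¹ * adj (H z) P' * G z * ((G z)⁻¹ * P' * G z)
        = (G z)⁻¹ * adj (H z) P' * (G z * (G z)⁻¹) * P' * G z := by simp only [Matrix.mul_assoc]
      _ = _ := by rw [Matrix.mul_nonsing_inv _ uG, Matrix.mul_one]; simp only [Matrix.mul_assoc]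
  rw [b1, b2, Matrix.mul_sub, Matrix.sub_mul]

theorem md_transpose (c : ℂ) (A : ℂ → M3) (z : ℂ) :
    UN1_md c (fun w => (A w)ᵀ) z = (UN1_md c A z)ᵀ := rfl

theorem UN1_D_T {A : ℂ → M3} {z : ℂ} (hA : UN1_D A z) : UN1_D (fun w => (A w)ᵀ) z :=
  fun i j => hA j i

/-- the dual metric -/
theorem Hit.dual {H : ℂ → M3} {P : M3} {z : ℂ} (h : Hit H P z)
    (hp : ∀ᶠ w in 𝓝 z, (H w).PosDef) (hC : ∀ a b, ContDiffAt ℝ 2 (fun w => H w a b) z) :
    Hit (fun w => ((H w)ᵀ)⁻¹) Pᵀ z := by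
  have hd : ∀ᶠ w in 𝓝 z, (H w).det ≠ 0 := hp.mono fun w hw => ne_of_gt hw.det_pos
  have hdT : ∀ᶠ w in 𝓝 z, ((H w)ᵀ).det ≠ 0 := hd.mono fun w hw => by
    rwa [Matrix.det_transpose]
  have hDH := ev_of_cda hC
  have hconn : (fun w => (((H w)ᵀ)⁻¹)⁻¹ * mdz (fun w => ((H w)ᵀ)⁻¹) w) =ᶠ[𝓝 z]
      fun w => -((H w)⁻¹ * mdz H w)ᵀ := by
    filter_upwards [hDH, hdT.eventually_nhds] with w h1 h2
    have uHT : IsUnit ((H w)ᵀ).det := isUnit_iff_ne_zero.mpr h2.self_of_nhds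
    rw [UN1_mdz, UN1_md_inv _ (UN1_D_T h1) h2, md_transpose, ← UN1_mdz,
      Matrix.nonsing_inv_nonsing_inv _ uHT, Matrix.transpose_mul, Matrix.transpose_nonsing_inv,
      Matrix.mul_neg, ← Matrix.mul_assoc, ← Matrix.mul_assoc, Matrix.mul_nonsing_inv _ uHT,
      Matrix.one_mul]
  have hA : UN1_D (fun w => (H w)⁻¹ * mdz H w) z :=
    UN1_D_mul (UN1_D_inv hDH.self_of_nhds hd.self_of_nhds) (UN1_D_mdz hC)
  unfold Hit at h ⊢
  have hneg : mdzb (fun w => -((H w)⁻¹ * mdz H w)ᵀ) z =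
      -(mdzb (fun w => (H w)⁻¹ * mdz H w) z)ᵀ := by
    ext i j
    have e4 := fderiv_fun_neg (𝕜 := ℝ) (f := fun w => ((H w)⁻¹ * mdz H w) j i) (x := z)
    simp only [mdzb, dzb, Matrix.of_apply, Matrix.neg_apply, Matrix.transpose_apply]
    rw [e4]
    simp only [_root_.neg_apply]
    ring
  rw [mdzb_congr hconn, hneg, h]
  have hpz := hp.self_of_nhds
  have uH : IsUnit (H z).det := isUnit_iff_ne_zero.mpr hd.self_of_nhds
  have uHT : IsUnit ((H z)ᵀ).det := by rwa [Matrix.det_transpose]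
  have e1 : adj ((H z)ᵀ)⁻¹ Pᵀ = (adj (H z) P)ᵀ := by
    rw [adj, adj, Matrix.nonsing_inv_nonsing_inv _ uHT, Matrix.transpose_mul,
      Matrix.transpose_mul, Matrix.transpose_nonsing_inv, Matrix.mul_assoc]
    congr 1
  rw [e1, Matrix.transpose_sub, Matrix.transpose_mul, Matrix.transpose_mul]
  abel

/-- composition with a holomorphic map -/
theorem Hit.comp {H : ℂ → M3} {P : M3} {ψ : ℂ → ℂ} {z : ℂ} (h : Hit H P (ψ z))
    (hp : ∀ᶠ w in 𝓝 (ψ z), (H w).PosDef)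
    (hC : ∀ a b, ContDiffAt ℝ 2 (fun w => H w a b) (ψ z))
    (hψ : ∀ᶠ w in 𝓝 z, DifferentiableAt ℂ ψ w) :
    Hit (fun w => H (ψ w)) (deriv ψ z • P) z := by
  have hd : ∀ᶠ w in 𝓝 (ψ z), (H w).det ≠ 0 := hp.mono fun w hw => ne_of_gt hw.det_pos
  have hDH := ev_of_cda hC
  have hψc : ContinuousAt ψ z := hψ.self_of_nhds.continuousAt
  have hconn : (fun w => (H (ψ w))⁻¹ * mdz (fun w => H (ψ w)) w) =ᶠ[𝓝 z]
      fun w => deriv ψ w • ((H (ψ w))⁻¹ * mdz H (ψ w)) := by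
    filter_upwards [hψc.eventually hDH, hψ] with w h1 h2
    have e1 : mdz (fun w => H (ψ w)) w = deriv ψ w • mdz H (ψ w) := by
      ext i j
      have := (P_G4.G4_comp (F := fun w => H w i j) (V := ψ) (t := w) (h1 i j) h2).1
      simp only [mdz, Matrix.of_apply, Matrix.smul_apply, smul_eq_mul]
      rw [this]; ring
    rw [e1, Matrix.mul_smul]
  have hA : UN1_D (fun w => (H w)⁻¹ * mdz H w) (ψ z) :=
    UN1_D_mul (UN1_D_inv hDH.self_of_nhds hd.self_of_nhds) (UN1_D_mdz hC)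
  have hψ' : DifferentiableAt ℂ (deriv ψ) z :=
    ((Complex.analyticAt_iff_eventually_differentiableAt.2 hψ).deriv).differentiableAt
  unfold Hit at h ⊢
  have e2 : mdzb (fun w => deriv ψ w • ((H (ψ w))⁻¹ * mdz H (ψ w))) z =
      (deriv ψ z * star (deriv ψ z)) • mdzb (fun w => (H w)⁻¹ * mdz H w) (ψ z) := by
    ext i j
    have h1 := (P_G4.G4_comp (F := fun w => ((H w)⁻¹ * mdz H w) i j) (V := ψ) (t := z)
      (hA i j) hψ.self_of_nhds)
    have hdc : DifferentiableAt ℝ (fun w => ((H (ψ w))⁻¹ * mdz H (ψ w)) i j) z := by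
      have := (hA i j).comp z (hψ.self_of_nhds.restrictScalars ℝ)
      exact this
    have h2 := UN1_dd_mul Complex.I (hψ'.restrictScalars ℝ) hdc
    have h3 : UN1_dd Complex.I (deriv ψ) z = 0 := by rw [← UN1_dzb, dzb_holo hψ']
    have h4 : UN1_dd Complex.I (fun w => ((H (ψ w))⁻¹ * mdz H (ψ w)) i j) z =
      dzb (fun w => ((H w)⁻¹ * mdz H w) i j) (ψ z) * (starRingEnd ℂ) (deriv ψ z) := h1.2
    rw [h3, h4, zero_mul, zero_add] at h2
    simp only [mdzb, Matrix.of_apply, Matrix.smul_apply, smul_eq_mul]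
    have h5 : dzb (fun w => deriv ψ w * ((H (ψ w))⁻¹ * mdz H (ψ w)) i j) z = _ := h2
    rw [h5, Complex.star_def]
    ring
  rw [mdzb_congr hconn, e2, h]
  have e3 : adj (H (ψ z)) (deriv ψ z • P) = star (deriv ψ z) • adj (H (ψ z)) P := by
    rw [adj, adj, Matrix.conjTranspose_smul, Matrix.mul_smul, Matrix.smul_mul]
  rw [e3]
  simp only [Matrix.smul_mul, Matrix.mul_smul, smul_smul, smul_sub]
  rw [mul_comm (star (deriv ψ z)) (deriv ψ z)]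

end Pool.Agent.H794
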