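import Pool.Agent.H794.Calc

/-!
# The trace of `K⁻¹ H` for two solutions of Hitchin's equation, with the equality case
-/

set_option autoImplicit false

open scoped Manifold ContDiff Matrix ComplexOrder
open Matrix Topology Set Filter

namespace Pool.Agent.H794

open Pool.Agent.Helper614.HE Pool.Agent.Helper614.HE.P_UN1 Pool.Agent.Helper614.HE.P_UN2

/-- first term, with the equality case -/
theorem un_T1 (H K D : M3) (hH : H.PosDef) (hK : K.PosDef) :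
    0 ≤ (K⁻¹ * Dᴴ * K * (H⁻¹ * K * D)).trace ∧
      ((K⁻¹ * Dᴴ * K * (H⁻¹ * K * D)).trace = 0 → D = 0) := by
  obtain ⟨B, hB, hB0⟩ := UN1_fact hK.inv
  obtain ⟨N, hN, hN0⟩ := UN1_fact hH.inv
  have uK : IsUnit K.det := (Matrix.isUnit_iff_isUnit_det _).mp hK.isUnit
  have h1 : (K⁻¹ * Dᴴ * K * (H⁻¹ * K * D)).trace =
      (fro (N * (K * (D * Bᴴ))) : ℂ) := by
    rw [← trace_self, Matrix.trace_mul_comm, hB, hN, Matrix.conjTranspose_mul,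
      Matrix.conjTranspose_mul, Matrix.conjTranspose_mul, Matrix.conjTranspose_conjTranspose,
      hK.isHermitian.eq]
    have h2 : Nᴴ * N * K * D * (Bᴴ * B * Dᴴ * K) = Nᴴ * (N * K * D * (Bᴴ * B * Dᴴ * K)) := by
      simp only [Matrix.mul_assoc]
    rw [h2, Matrix.trace_mul_comm Nᴴ]
    simp only [Matrix.mul_assoc]
  rw [h1]
  refine ⟨by exact_mod_cast fro_nonneg _, fun h0 => ?_⟩
  have h2 : fro (N * (K * (D * Bᴴ))) = 0 := by exact_mod_cast h0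
  have h3 := fro_eq_zero h2
  have hN' : N⁻¹ * N = 1 := Matrix.nonsing_inv_mul _ (isUnit_iff_ne_zero.mpr hN0)
  have hB0' : (Bᴴ).det ≠ 0 := by
    rw [Matrix.det_conjTranspose]; exact star_ne_zero.mpr hB0
  have hB' : Bᴴ * (Bᴴ)⁻¹ = 1 := Matrix.mul_nonsing_inv _ (isUnit_iff_ne_zero.mpr hB0')
  calc D = (K⁻¹ * K) * D * (Bᴴ * (Bᴴ)⁻¹) := by
        rw [Matrix.nonsing_inv_mul _ uK, hB', Matrix.one_mul, Matrix.mul_one]
    _ = K⁻¹ * (N⁻¹ * N) * K * D * Bᴴ * (Bᴴ)⁻¹ := by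
        rw [hN', Matrix.mul_one]; simp only [Matrix.mul_assoc]
    _ = K⁻¹ * (N⁻¹ * (N * (K * (D * Bᴴ)))) * (Bᴴ)⁻¹ := by simp only [Matrix.mul_assoc]
    _ = 0 := by rw [h3]; simp

theorem un_alg (H K H' K' P : Matrix (Fin 3) (Fin 3) ℂ) (hH : H.PosDef) (hK : K.PosDef) (T : ℂ)
    (hTdef : T = ((-(K⁻¹ * K'ᴴ * K⁻¹) * H + K⁻¹ * H'ᴴ) * (H⁻¹ * H' - K⁻¹ * K') + K⁻¹ * H *
      ((P * adj H P - adj H P * P) - (P * adj K P - adj K P * P))).trace) :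
    0 ≤ T.re ∧ (T.re = 0 → (K⁻¹ * H) * P = P * (K⁻¹ * H) ∧
      -(K⁻¹ * K'ᴴ * K⁻¹) * H + K⁻¹ * H'ᴴ = 0) := by
  have uH : IsUnit H.det := (Matrix.isUnit_iff_isUnit_det _).mp hH.isUnit
  have uK : IsUnit K.det := (Matrix.isUnit_iff_isUnit_det _).mp hK.isUnit
  have a1 : ∀ X : Matrix (Fin 3) (Fin 3) ℂ, H * (H⁻¹ * X) = X := fun X => by
    rw [← Matrix.mul_assoc, Matrix.mul_nonsing_inv _ uH, Matrix.one_mul]
  have a2 : ∀ X : Matrix (Fin 3) (Fin 3) ℂ, H⁻¹ * (H * X) = X := fun X => by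
    rw [← Matrix.mul_assoc, Matrix.nonsing_inv_mul _ uH, Matrix.one_mul]
  have b1 : ∀ X : Matrix (Fin 3) (Fin 3) ℂ, K * (K⁻¹ * X) = X := fun X => by
    rw [← Matrix.mul_assoc, Matrix.mul_nonsing_inv _ uK, Matrix.one_mul]
  have b2 : ∀ X : Matrix (Fin 3) (Fin 3) ℂ, K⁻¹ * (K * X) = X := fun X => by
    rw [← Matrix.mul_assoc, Matrix.nonsing_inv_mul _ uK, Matrix.one_mul]
  have a3 : H * H⁻¹ = 1 := Matrix.mul_nonsing_inv _ uH
  have a4 : H⁻¹ * H = 1 := Matrix.nonsing_inv_mul _ uH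
  have b3 : K * K⁻¹ = 1 := Matrix.mul_nonsing_inv _ uK
  have b4 : K⁻¹ * K = 1 := Matrix.nonsing_inv_mul _ uK
  have cH : Hᴴ = H := hH.isHermitian.eq
  have cK : Kᴴ = K := hK.isHermitian.eq
  have cHi : (H⁻¹)ᴴ = H⁻¹ := hH.inv.isHermitian.eq
  have cKi : (K⁻¹)ᴴ = K⁻¹ := hK.inv.isHermitian.eq
  let D := K⁻¹ * H' - K⁻¹ * H * K⁻¹ * K'
  let C := K⁻¹ * H * P - P * (K⁻¹ * H)
  have f1 : K⁻¹ * Dᴴ * K = -(K⁻¹ * K'ᴴ * K⁻¹) * H + K⁻¹ * H'ᴴ := by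
    simp only [D, Matrix.conjTranspose_sub, Matrix.conjTranspose_mul, cH, cKi, Matrix.mul_sub,
      Matrix.sub_mul, Matrix.mul_assoc, b4, Matrix.mul_one, Matrix.neg_mul]
    abel
  have e1 : (-(K⁻¹ * K'ᴴ * K⁻¹) * H + K⁻¹ * H'ᴴ) * (H⁻¹ * H' - K⁻¹ * K') =
      K⁻¹ * Dᴴ * K * (H⁻¹ * K * D) := by
    have f2 : H⁻¹ * K * D = H⁻¹ * H' - K⁻¹ * K' := by
      simp only [D, Matrix.mul_sub, Matrix.mul_assoc, b1, a2]
    rw [f1, f2]
  have e2 : (K⁻¹ * H * ((P * adj H P - adj H P * P) - (P * adj K P - adj K P * P))).trace =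
      (K * C * H⁻¹ * Cᴴ).trace := by
    have t1 : (K⁻¹ * H * (P * adj H P)).trace = (H * P * H⁻¹ * Pᴴ * H * K⁻¹).trace := by
      rw [Matrix.trace_mul_comm (H * P * H⁻¹ * Pᴴ * H), adj]
      simp only [Matrix.mul_assoc]
    have t2 : (K⁻¹ * H * (adj H P * P)).trace = (H * P * K⁻¹ * Pᴴ).trace := by
      have : K⁻¹ * H * (adj H P * P) = (K⁻¹ * Pᴴ) * (H * P) := by
        rw [adj]; simp only [Matrix.mul_assoc, a1]
      rw [this, Matrix.trace_mul_comm]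
      simp only [Matrix.mul_assoc]
    have t3 : (K⁻¹ * H * (P * adj K P)).trace = (K * P * K⁻¹ * Pᴴ * H * K⁻¹).trace := by
      have e : (K⁻¹ * H * (P * adj K P)) = K⁻¹ * (H * P * K⁻¹ * Pᴴ * K) := by
        rw [adj]; simp only [Matrix.mul_assoc]
      have e' : K * P * K⁻¹ * Pᴴ * H * K⁻¹ = K * (P * K⁻¹ * Pᴴ * H * K⁻¹) := by
        simp only [Matrix.mul_assoc]
      rw [e, e', Matrix.trace_mul_comm K⁻¹, Matrix.trace_mul_comm K]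
      simp only [Matrix.mul_assoc, b3, b4, Matrix.mul_one]
      rw [Matrix.trace_mul_comm H]
      simp only [Matrix.mul_assoc]
    have t4 : (K⁻¹ * H * (adj K P * P)).trace = (K * P * K⁻¹ * H * K⁻¹ * Pᴴ).trace := by
      have e : K⁻¹ * H * (adj K P * P) = (K⁻¹ * H * K⁻¹ * Pᴴ) * (K * P) := by
        rw [adj]; simp only [Matrix.mul_assoc]
      rw [e, Matrix.trace_mul_comm]
      simp only [Matrix.mul_assoc]
    have t5 : K * C * H⁻¹ * Cᴴ = H * P * H⁻¹ * Pᴴ * H * K⁻¹ - H * P * K⁻¹ * Pᴴ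
        - (K * P * K⁻¹ * Pᴴ * H * K⁻¹ - K * P * K⁻¹ * H * K⁻¹ * Pᴴ) := by
      simp only [C, Matrix.conjTranspose_sub, Matrix.conjTranspose_mul, cH, cKi, Matrix.mul_sub,
        Matrix.sub_mul, Matrix.mul_assoc, b1, a2, a3, Matrix.mul_one]
      abel
    rw [t5]
    simp only [Matrix.mul_sub, Matrix.trace_sub]
    rw [t1, t2, t3, t4]
  have hT : T = (K⁻¹ * Dᴴ * K * (H⁻¹ * K * D)).trace + (K * C * H⁻¹ * Cᴴ).trace := by
    rw [hTdef, Matrix.trace_add, e2, e1]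
  have h1 := un_T1 H K D hH hK
  have h2 := UN1_T2 H K C hH hK
  have h1r : 0 ≤ (K⁻¹ * Dᴴ * K * (H⁻¹ * K * D)).trace.re := (Complex.le_def.mp h1.1).1
  have h1i : 0 = (K⁻¹ * Dᴴ * K * (H⁻¹ * K * D)).trace.im := (Complex.le_def.mp h1.1).2
  have h2r : 0 ≤ (K * C * H⁻¹ * Cᴴ).trace.re := (Complex.le_def.mp h2.1).1
  have h2i : 0 = (K * C * H⁻¹ * Cᴴ).trace.im := (Complex.le_def.mp h2.1).2
  refine ⟨?_, fun h0 => ?_⟩
  · rw [hT, Complex.add_re]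
    exact add_nonneg h1r h2r
  · rw [hT, Complex.add_re] at h0
    have h3 : (K * C * H⁻¹ * Cᴴ).trace.re = 0 := by linarith
    have h4 : C = 0 := h2.2 (Complex.ext h3 h2i.symm)
    have h5 : (K⁻¹ * Dᴴ * K * (H⁻¹ * K * D)).trace.re = 0 := by linarith
    have h6 : D = 0 := h1.2 (Complex.ext h5 h1i.symm)
    refine ⟨sub_eq_zero.mp h4, ?_⟩
    rw [← f1, h6]
    simp

theorem un_one (H K : ℂ → M3) (P : M3) (z : ℂ)
    (hpos : ∀ᶠ w in 𝓝 z, (H w).PosDef ∧ (K w).PosDef)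
    (hC : ∀ a b, ContDiffAt ℝ 2 (fun w => H w a b) z ∧ ContDiffAt ℝ 2 (fun w => K w a b) z)
    (eH : mdzb (fun w => (H w)⁻¹ * mdz H w) z = P * adj (H z) P - adj (H z) P * P)
    (eK : mdzb (fun w => (K w)⁻¹ * mdz K w) z = P * adj (K z) P - adj (K z) P * P) :
    0 ≤ (dzb (dz (fun w => ((K w)⁻¹ * H w).trace)) z).re ∧
    ((dzb (dz (fun w => ((K w)⁻¹ * H w).trace)) z).re = 0 →
      ((K z)⁻¹ * H z) * P = P * ((K z)⁻¹ * H z) ∧ mdzb (fun w => (K w)⁻¹ * H w) z = 0) := by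
  have hDH : ∀ᶠ w in 𝓝 z, UN1_D H w := by
    have h1 : ∀ i j, ∀ᶠ w in 𝓝 z, ContDiffAt ℝ 2 (fun w => H w i j) w := fun i j =>
      (hC i j).1.eventually (by norm_num)
    have h2 : ∀ᶠ w in 𝓝 z, ∀ i j, ContDiffAt ℝ 2 (fun w => H w i j) w := by
      rw [Filter.eventually_all]; intro i
      rw [Filter.eventually_all]; intro j
      exact h1 i j
    exact h2.mono fun w hw i j => (hw i j).differentiableAt (by norm_num)
  have hDK : ∀ᶠ w in 𝓝 z, UN1_D K w := by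
    have h1 : ∀ i j, ∀ᶠ w in 𝓝 z, ContDiffAt ℝ 2 (fun w => K w i j) w := fun i j =>
      (hC i j).2.eventually (by norm_num)
    have h2 : ∀ᶠ w in 𝓝 z, ∀ i j, ContDiffAt ℝ 2 (fun w => K w i j) w := by
      rw [Filter.eventually_all]; intro i
      rw [Filter.eventually_all]; intro j
      exact h1 i j
    exact h2.mono fun w hw i j => (hw i j).differentiableAt (by norm_num)
  have hposz := hpos.self_of_nhds
  have hdetH : ∀ᶠ w in 𝓝 z, (H w).det ≠ 0 := hpos.mono fun w hw => ne_of_gt hw.1.det_pos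
  have hdetK : ∀ᶠ w in 𝓝 z, (K w).det ≠ 0 := hpos.mono fun w hw => ne_of_gt hw.2.det_pos
  -- the first derivative near z
  have hfirst : ∀ᶠ w in 𝓝 z, dz (fun w => ((K w)⁻¹ * H w).trace) w =
      ((K w)⁻¹ * H w * ((H w)⁻¹ * mdz H w - (K w)⁻¹ * mdz K w)).trace := by
    filter_upwards [hDH, hDK, hdetH.eventually_nhds, hdetK.eventually_nhds] with w h1 h2 h3 h4
    have h3' := h3.self_of_nhds
    have h4' := h4.self_of_nhds
    have uH : IsUnit (H w).det := isUnit_iff_ne_zero.mpr h3'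
    rw [UN1_dz, UN1_md_trace _ (UN1_D_mul (UN1_D_inv h2 h4') h1),
      UN1_md_mul _ (UN1_D_inv h2 h4') h1, UN1_md_inv _ h2 h4, ← UN1_mdz, ← UN1_mdz]
    have e : (K w)⁻¹ * H w * ((H w)⁻¹ * mdz H w - (K w)⁻¹ * mdz K w) =
        (K w)⁻¹ * mdz H w - (K w)⁻¹ * H w * ((K w)⁻¹ * mdz K w) := by
      rw [Matrix.mul_sub, ← Matrix.mul_assoc ((K w)⁻¹ * H w) (H w)⁻¹,
        Matrix.mul_assoc (K w)⁻¹ (H w) (H w)⁻¹, Matrix.mul_nonsing_inv _ uH, Matrix.mul_one]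
    rw [e, Matrix.trace_add, Matrix.trace_sub, Matrix.neg_mul, Matrix.trace_neg,
      Matrix.mul_assoc ((K w)⁻¹ * mdz K w), Matrix.trace_mul_comm ((K w)⁻¹ * mdz K w)]
    ring
  have hD1 : UN1_D H z := hDH.self_of_nhds
  have hD2 : UN1_D K z := hDK.self_of_nhds
  have hdH := UN1_D_mdz (A := H) (z := z) (fun i j => (hC i j).1)
  have hdK := UN1_D_mdz (A := K) (z := z) (fun i j => (hC i j).2)
  have hiH := UN1_D_inv hD1 hdetH.self_of_nhds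
  have hiK := UN1_D_inv hD2 hdetK.self_of_nhds
  have hherm1 : mdzb H z = (mdz H z)ᴴ := UN1_herm hD1 (hpos.mono fun w hw => hw.1.isHermitian.eq)
  have hherm2 : mdzb K z = (mdz K z)ᴴ := UN1_herm hD2 (hpos.mono fun w hw => hw.2.isHermitian.eq)
  have hmm : mdzb (fun w => (K w)⁻¹ * H w) z =
      -((K z)⁻¹ * (mdz K z)ᴴ * (K z)⁻¹) * H z + (K z)⁻¹ * (mdz H z)ᴴ := by
    rw [UN1_mdzb, UN1_md_mul _ hiK hD1, UN1_md_inv _ hD2 hdetK, ← UN1_mdzb, ← UN1_mdzb, hherm1,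
      hherm2]
  rw [hmm]
  refine un_alg (H z) (K z) (mdz H z) (mdz K z) P hposz.1 hposz.2 _ ?_
  rw [UN1_dzb, UN1_dd_congr _ hfirst,
    UN1_md_trace _ (UN1_D_mul (UN1_D_mul hiK hD1) (UN1_D_sub (UN1_D_mul hiH hdH)
      (UN1_D_mul hiK hdK))),
    UN1_md_mul _ (UN1_D_mul hiK hD1) (UN1_D_sub (UN1_D_mul hiH hdH) (UN1_D_mul hiK hdK)),
    UN1_md_mul _ hiK hD1, UN1_md_sub _ (UN1_D_mul hiH hdH) (UN1_D_mul hiK hdK),
    UN1_md_inv _ hD2 hdetK, ← UN1_mdzb, ← UN1_mdzb, ← UN1_mdzb, ← UN1_mdzb, eH, eK, hherm1, hherm2]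

end Pool.Agent.H794
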