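import Pool.Agent.H794.Bund

/-!
# Comparison of two harmonic metrics on a Higgs bundle over a closed Riemann surface
-/

set_option autoImplicit false

open scoped Manifold ContDiff Matrix ComplexOrder
open Matrix Topology Set Filter

namespace Pool.Agent.H794

open Pool.Agent.Helper614.HE Pool.Agent.Helper614.HE.P_UNQ Pool.Agent.Helper614.HE.P_UN1
  Pool.Agent.Helper614.HE.P_UN2

section

variable {X : Type} [TopologicalSpace X] [ChartedSpace ℂ X] {E : HiggsBundle 3 X}

theorem chart_open (E : HiggsBundle 3 X) (i : E.ι) (e : OpenPartialHomeomorph X ℂ) :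
    IsOpen (e.target ∩ e.symm ⁻¹' E.U i) :=
  e.isOpen_inter_preimage_symm (E.isOpen_U i)

/-- a harmonic metric is smooth in a chart -/
theorem hm_cd {h : E.ι → X → M3} (H : IsHarmonicMetric E 1 h) {i : E.ι}
    {e : OpenPartialHomeomorph X ℂ} (he : e ∈ atlas ℂ X) {z : ℂ} (hz : z ∈ e.target)
    (hi : e.symm z ∈ E.U i) (a b : Fin 3) :
    ContDiffAt ℝ ∞ (fun w => h i (e.symm w) a b) z :=
  (H.smooth i e he a b).contDiffAt ((chart_open E i e).mem_nhds ⟨hz, hi⟩)

theorem hm_cd2 {h : E.ι → X → M3} (H : IsHarmonicMetric E 1 h) {i : E.ι}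
    {e : OpenPartialHomeomorph X ℂ} (he : e ∈ atlas ℂ X) {z : ℂ} (hz : z ∈ e.target)
    (hi : e.symm z ∈ E.U i) (a b : Fin 3) :
    ContDiffAt ℝ 2 (fun w => h i (e.symm w) a b) z :=
  contDiffAt_infty.1 (hm_cd H he hz hi a b) 2

theorem hm_pos {h : E.ι → X → M3} (H : IsHarmonicMetric E 1 h) {i : E.ι}
    {e : OpenPartialHomeomorph X ℂ} {z : ℂ} (hz : z ∈ e.target) (hi : e.symm z ∈ E.U i) :
    ∀ᶠ w in 𝓝 z, (h i (e.symm w)).PosDef := by
  filter_upwards [(chart_open E i e).mem_nhds ⟨hz, hi⟩] with w hw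
  exact H.posDef i _ hw.2

/-- Hitchin's equation in a chart -/
theorem hm_hit {h : E.ι → X → M3} (H : IsHarmonicMetric E 1 h) {i : E.ι}
    {e : OpenPartialHomeomorph X ℂ} (he : e ∈ atlas ℂ X) {z : ℂ} (hz : z ∈ e.target)
    (hi : e.symm z ∈ E.U i) : Hit (fun w => h i (e.symm w)) (E.φ i e (e.symm z)) z := by
  have hx : e.symm z ∈ E.U i ∩ e.source := ⟨hi, e.map_target hz⟩
  have q1 := H.hitchin i e he (e.symm z) hx
  rw [e.right_inv hz, Complex.ofReal_one, one_smul] at q1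
  exact q1

/-- **comparison of harmonic metrics** -/
theorem compare (hX : IsClosedRiemannSurface X) {h₁ h₂ : E.ι → X → M3}
    (H1 : IsHarmonicMetric E 1 h₁) (H2 : IsHarmonicMetric E 1 h₂) {i : E.ι}
    {e : OpenPartialHomeomorph X ℂ} (he : e ∈ atlas ℂ X) {z : ℂ} (hz : z ∈ e.target)
    (hi : e.symm z ∈ E.U i) :
    ((h₂ i (e.symm z))⁻¹ * h₁ i (e.symm z)) * E.φ i e (e.symm z) =
      E.φ i e (e.symm z) * ((h₂ i (e.symm z))⁻¹ * h₁ i (e.symm z)) ∧
    ∀ a b, DifferentiableAt ℂ (fun w => ((h₂ i (e.symm w))⁻¹ * h₁ i (e.symm w)) a b) z := by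
  classical
  -- the index
  let ix : X → E.ι := fun x => (E.cover x).choose
  have hix : ∀ x, x ∈ E.U (ix x) := fun x => (E.cover x).choose_spec
  let f : X → ℝ := fun x => (((h₂ (ix x) x)⁻¹ * h₁ (ix x) x).trace).re
  have hf : ∀ i, ∀ x ∈ E.U i, ((f x : ℝ) : ℂ) = ((h₂ i x)⁻¹ * h₁ i x).trace := by
    intro i x hx
    show (((((h₂ (ix x) x)⁻¹ * h₁ (ix x) x).trace).re : ℝ) : ℂ) = _
    rw [UNQ_trace_real (H1.posDef _ x (hix x)) (H2.posDef _ x (hix x))]
    rw [H1.glue i (ix x) x ⟨hx, hix x⟩, H2.glue i (ix x) x ⟨hx, hix x⟩]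
    exact UNQ_glue_trace (E.det_g i (ix x) x ⟨hx, hix x⟩)
  have hloc : ∀ (e : OpenPartialHomeomorph X ℂ) (i : E.ι), ∀ z ∈ e.target,
      e.symm z ∈ E.U i → (fun w => ((f (e.symm w) : ℝ) : ℂ)) =ᶠ[𝓝 z]
        fun w => ((h₂ i (e.symm w))⁻¹ * h₁ i (e.symm w)).trace := by
    intro e i z hz hi
    filter_upwards [(chart_open E i e).mem_nhds ⟨hz, hi⟩] with w hw
    exact hf i _ hw.2
  have hlocal : ∀ (e : OpenPartialHomeomorph X ℂ), e ∈ atlas ℂ X → ∀ (i : E.ι), ∀ z ∈ e.target,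
      e.symm z ∈ E.U i →
      ContDiffAt ℝ 2 (fun w => ((h₂ i (e.symm w))⁻¹ * h₁ i (e.symm w)).trace) z ∧
      0 ≤ (dzb (dz (fun w => ((h₂ i (e.symm w))⁻¹ * h₁ i (e.symm w)).trace)) z).re ∧
      ((dzb (dz (fun w => ((h₂ i (e.symm w))⁻¹ * h₁ i (e.symm w)).trace)) z).re = 0 →
        ((h₂ i (e.symm z))⁻¹ * h₁ i (e.symm z)) * E.φ i e (e.symm z) =
        E.φ i e (e.symm z) * ((h₂ i (e.symm z))⁻¹ * h₁ i (e.symm z)) ∧
        mdzb (fun w => (h₂ i (e.symm w))⁻¹ * h₁ i (e.symm w)) z = 0) := by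
    intro e he i z hz hi
    have hev : ∀ᶠ w in 𝓝 z, w ∈ e.target ∩ e.symm ⁻¹' E.U i :=
      (chart_open E i e).mem_nhds ⟨hz, hi⟩
    have c1 := fun a b => hm_cd2 H1 he hz hi a b
    have c2 := fun a b => hm_cd2 H2 he hz hi a b
    have key := un_one (fun w => h₁ i (e.symm w)) (fun w => h₂ i (e.symm w))
      (E.φ i e (e.symm z)) z
      (hev.mono fun w hw => ⟨H1.posDef i _ hw.2, H2.posDef i _ hw.2⟩)
      (fun a b => ⟨c1 a b, c2 a b⟩) (hm_hit H1 he hz hi) (hm_hit H2 he hz hi)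
    exact ⟨UNQ_smooth (hev.mono fun w hw => H2.det i _ hw.2) c1 c2, key.1, key.2⟩
  have hC : ∀ e ∈ atlas ℂ X, ∀ z ∈ e.target, ContDiffAt ℝ 2 (fun w => f (e.symm w)) z := by
    intro e he z hz
    obtain ⟨i, hi⟩ : ∃ i, e.symm z ∈ E.U i := ⟨_, hix _⟩
    have h3 := (hlocal e he i z hz hi).1
    have h4 := h3.congr_of_eventuallyEq (hloc e i z hz hi)
    have h5 : ContDiffAt ℝ 2 (fun w => (((f (e.symm w) : ℝ) : ℂ)).re) z :=
      (Complex.reCLM.contDiff.contDiffAt).comp z h4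
    simpa using h5
  have hcont : Continuous f := by
    rw [continuous_iff_continuousAt]
    intro x
    set e := chartAt ℂ x with he
    have hxe : x ∈ e.source := mem_chart_source ℂ x
    have h3 : ContinuousAt (fun w => f (e.symm w)) (e x) :=
      (hC e (chart_mem_atlas ℂ x) (e x) (e.map_source hxe)).continuousAt
    have h4 : ContinuousAt (fun y => f (e.symm (e y))) x :=
      ContinuousAt.comp (g := fun w => f (e.symm w)) h3 (e.continuousAt hxe)
    refine h4.congr ?_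
    filter_upwards [e.open_source.mem_nhds hxe] with y hy
    rw [e.left_inv hy]
  have hconst : ∀ x y, f x = f y := by
    refine P_UN2.UN2 X _ _ hX f hcont fun e he =>
      ⟨fun z hz => (hC e he z hz).contDiffWithinAt, fun z hz => ?_⟩
    obtain ⟨i, hi⟩ : ∃ i, e.symm z ∈ E.U i := ⟨_, hix _⟩
    rw [UNQ_dzbdz_congr (hloc e i z hz hi)]
    exact (hlocal e he i z hz hi).2.1
  have hmain : ∀ (e : OpenPartialHomeomorph X ℂ), e ∈ atlas ℂ X → ∀ (i : E.ι), ∀ z ∈ e.target,
      e.symm z ∈ E.U i →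
        ((h₂ i (e.symm z))⁻¹ * h₁ i (e.symm z)) * E.φ i e (e.symm z) =
        E.φ i e (e.symm z) * ((h₂ i (e.symm z))⁻¹ * h₁ i (e.symm z)) ∧
        mdzb (fun w => (h₂ i (e.symm w))⁻¹ * h₁ i (e.symm w)) z = 0 := by
    intro e he i z hz hi
    refine (hlocal e he i z hz hi).2.2 ?_
    rw [← UNQ_dzbdz_congr (hloc e i z hz hi)]
    have h3 : (fun w => ((f (e.symm w) : ℝ) : ℂ)) = fun _ => ((f (e.symm z) : ℝ) : ℂ) := by
      funext w
      rw [hconst (e.symm w) (e.symm z)]
    rw [h3, UNQ_dzbdz_const, Complex.zero_re]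
  refine ⟨(hmain e he i z hz hi).1, fun a b => ?_⟩
  refine P_BT4.BT4_diff _ _ ?_ ?_
  · have c1 := fun a b => (hm_cd2 H1 he hz hi a b).differentiableAt (by norm_num)
    have c2 := fun a b => (hm_cd2 H2 he hz hi a b).differentiableAt (by norm_num)
    exact UN1_D_mul (UN1_D_inv (A := fun w => h₂ i (e.symm w)) c2
      (by rw [H2.det i _ hi]; exact one_ne_zero)) c1 a b
  · have := congrFun (congrFun (hmain e he i z hz hi).2 a) b
    exact this

/-- the real part of a holomorphic function is harmonic -/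
theorem L_re {G : ℂ → ℂ} {z : ℂ} (hG : ∀ᶠ w in 𝓝 z, DifferentiableAt ℂ G w) :
    ContDiffAt ℝ 2 (fun w => (G w).re) z ∧ UN2_L (fun w => (G w).re) z = 0 := by
  have han := Complex.analyticAt_iff_eventually_differentiableAt.2 hG
  have hc : ContDiffAt ℝ 2 G z := (han.contDiffAt (n := 2)).restrict_scalars ℝ
  refine ⟨(Complex.reCLM.contDiff.contDiffAt).comp z hc, ?_⟩
  have hfd : ∀ {F : ℂ → ℂ} {w : ℂ}, DifferentiableAt ℂ F w → ∀ v : ℂ,
      fderiv ℝ (fun w => (F w).re) w v = (deriv F w * v).re := by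
    intro F w hF v
    have h1 : HasFDerivAt F ((fderiv ℂ F w).restrictScalars ℝ) w :=
      hF.hasFDerivAt.restrictScalars ℝ
    have h2 : HasFDerivAt (fun w => (F w).re)
        (Complex.reCLM.comp ((fderiv ℂ F w).restrictScalars ℝ)) w :=
      Complex.reCLM.hasFDerivAt.comp w h1
    rw [h2.fderiv]
    have h3 : (fderiv ℂ F w) v = deriv F w * v := by
      rw [← fderiv_apply_one_eq_deriv, mul_comm]
      have : v = v • (1 : ℂ) := by simp
      conv_lhs => rw [this]
      rw [map_smul, smul_eq_mul]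
    simp [h3]
  have hG' : DifferentiableAt ℂ (deriv G) z := han.deriv.differentiableAt
  have e1 : (fun w => fderiv ℝ (fun w => (G w).re) w 1) =ᶠ[𝓝 z] fun w => (deriv G w).re := by
    filter_upwards [hG] with w hw
    rw [hfd hw 1, mul_one]
  have e2 : (fun w => fderiv ℝ (fun w => (G w).re) w Complex.I) =ᶠ[𝓝 z]
      fun w => ((fun w => deriv G w * Complex.I) w).re := by
    filter_upwards [hG] with w hw
    rw [hfd hw Complex.I]
  unfold UN2_L
  rw [e1.fderiv_eq, e2.fderiv_eq, hfd hG', hfd (hG'.mul_const _)]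
  have : deriv (fun w => deriv G w * Complex.I) z = deriv (deriv G) z * Complex.I := by
    rw [deriv_mul_const hG']
  rw [this, mul_assoc, Complex.I_mul_I]
  simp

/-- a holomorphic function on a closed Riemann surface is constant -/
theorem holo_const (hX : IsClosedRiemannSurface X) {F : X → ℂ}
    (hF : ∀ e ∈ atlas ℂ X, ∀ z ∈ e.target, DifferentiableAt ℂ (fun w => F (e.symm w)) z)
    (x y : X) : F x = F y := by
  have key : ∀ a : ℂ, ∀ x y : X, (a * F x).re = (a * F y).re := by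
    intro a
    have hev : ∀ e ∈ atlas ℂ X, ∀ z ∈ e.target,
        ∀ᶠ w in 𝓝 z, DifferentiableAt ℂ (fun w => a * F (e.symm w)) w := by
      intro e he z hz
      filter_upwards [e.open_target.mem_nhds hz] with w hw
      exact (hF e he w hw).const_mul a
    have hC : ∀ e ∈ atlas ℂ X, ∀ z ∈ e.target,
        ContDiffAt ℝ 2 (fun w => (a * F (e.symm w)).re) z := fun e he z hz =>
      (L_re (hev e he z hz)).1
    have hcont : Continuous (fun x => (a * F x).re) := by
      rw [continuous_iff_continuousAt]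
      intro x
      set e := chartAt ℂ x with he
      have hxe : x ∈ e.source := mem_chart_source ℂ x
      have h3 : ContinuousAt (fun w => (a * F (e.symm w)).re) (e x) :=
        (hC e (chart_mem_atlas ℂ x) (e x) (e.map_source hxe)).continuousAt
      have h4 : ContinuousAt (fun y => (a * F (e.symm (e y))).re) x :=
        ContinuousAt.comp (g := fun w => (a * F (e.symm w)).re) h3 (e.continuousAt hxe)
      refine h4.congr ?_
      filter_upwards [e.open_source.mem_nhds hxe] with y hy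
      rw [e.left_inv hy]
    refine P_UN2.UN2 X _ _ hX (fun x => (a * F x).re) hcont fun e he =>
      ⟨fun z hz => (hC e he z hz).contDiffWithinAt, fun z hz => ?_⟩
    have h1 := UN2_levi (hC e he z hz)
    rw [(L_re (hev e he z hz)).2] at h1
    rw [h1]
    simp
  apply Complex.ext
  · simpa using key 1 x y
  · have := key (-Complex.I) x y
    simpa using this

end

end Pool.Agent.H794
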